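import Pool.Agent.Lib.MP_5d4057_al.GX.Fin
import Mathlib.GroupTheory.PushoutI

/-!
# GX 10: the theorem in terms of the amalgamated product
-/

namespace Pool.Agent.Lib.MP_5d4057_al.GX

open Matrix Pool.Agent.Lib.MP_5d4057_al Pool.Agent.Lib.MP_5d4057_al.Hyb
  Pool.Agent.Lib.MP_5d4057_al.HM Pool.Agent.Lib.MP_5d4057_al.NU

/-- The image of a homomorphism from the amalgam which is standard on both factors is the hybrid. -/
theorem range_eq_hybrid {k : ℕ} {Γ₃ : Subgroup (SUGroup k)}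
    {Γ : Fin 2 → Subgroup (SUGroup (k + 1))} {ι : ∀ b, Γ₃ →* Γ b}
    {ρ : Monoid.PushoutI ι →* SUGroup (k + 2)} {g : Fin 2 → SUGroup (k + 2)}
    (hρ : ∀ (b : Fin 2) (x : Γ b), ρ (Monoid.PushoutI.of b x) =
      g b * extend (k + 1) (x : SUGroup (k + 1)) * (g b)⁻¹) : ρ.range = hybrid Γ g := by
  apply le_antisymm
  · rintro _ ⟨w, rfl⟩
    induction w using Monoid.PushoutI.induction_on with
    | of b x =>
      rw [hρ]
      exact Subgroup.subset_closure ⟨b, x, x.2, rfl⟩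
    | base x =>
      rw [← Monoid.PushoutI.of_apply_eq_base ι 0 x, hρ]
      exact Subgroup.subset_closure ⟨0, ι 0 x, (ι 0 x).2, rfl⟩
    | mul x y hx hy =>
      rw [map_mul]
      exact Subgroup.mul_mem _ hx hy
  · rw [hybrid, Subgroup.closure_le]
    rintro _ ⟨b, γ, hγ, rfl⟩
    exact ⟨Monoid.PushoutI.of b ⟨γ, hγ⟩, hρ b ⟨γ, hγ⟩⟩

/-- **The theorem for the amalgam.** -/
theorem amalgam (H : HybAll) (k : ℕ) (hk : 1 ≤ k) (Γ₃ : Subgroup (SUGroup k))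
    (Γ : Fin 2 → Subgroup (SUGroup (k + 1))) (h₃ : IsLattice Γ₃) (hL : ∀ b, IsLattice (Γ b))
    (hA : ∀ b, IsArith (k + 1) (Γ b)) (ι : ∀ b, Γ₃ →* Γ b) (hι : ∀ b, Function.Injective (ι b))
    (ρ : Monoid.PushoutI ι →* SUGroup (k + 2)) (g : Fin 2 → SUGroup (k + 2))
    (hρ : ∀ (b : Fin 2) (x : Γ b), ρ (Monoid.PushoutI.of b x) =
      g b * extend (k + 1) (x : SUGroup (k + 1)) * (g b)⁻¹)
    (hlat : IsLattice ρ.range) : IsArith (k + 2) ρ.range := by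
  have e := range_eq_hybrid hρ
  rw [e] at hlat ⊢
  refine hybrid_gen H k hk Γ₃ Γ g h₃ hL hA ι hι (fun γ => ?_) hlat
  rw [← hρ 0 (ι 0 γ), ← hρ 1 (ι 1 γ), Monoid.PushoutI.of_apply_eq_base,
    Monoid.PushoutI.of_apply_eq_base]

end Pool.Agent.Lib.MP_5d4057_al.GX
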