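import Pool.Agent.Lib.MP_5d4057_al.GX.NilA
import Pool.Agent.Lib.MP_5d4057_al.Hyb.SpanFin

/-!
# GX 6b: a lattice is not virtually nilpotent
-/

namespace Pool.Agent.Lib.MP_5d4057_al.GX

open Matrix Pool.Agent.Lib.MP_5d4057_al Pool.Agent.Lib.MP_5d4057_al.Hyb

variable {k : ℕ}

/-- a matrix which commutes with a spanning set is scalar -/
private theorem scalar_of_comm {A : Matrix (Fin (k + 1)) (Fin (k + 1)) ℂ}
    {D : Subgroup (SUGroup k)}
    (hs : Submodule.span ℂ (SUGroup.toMatrix '' (D : Set (SUGroup k))) = ⊤)
    (h : ∀ g ∈ D, A * g.toMatrix = g.toMatrix * A) : ∃ c : ℂ, A = c • 1 := by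
  have h1 : ∀ B : Matrix (Fin (k + 1)) (Fin (k + 1)) ℂ, A * B = B * A := by
    intro B
    have hB : B ∈ Submodule.span ℂ (SUGroup.toMatrix '' (D : Set (SUGroup k))) := by
      rw [hs]
      trivial
    induction hB using Submodule.span_induction with
    | mem x hx =>
      obtain ⟨g, hg, rfl⟩ := hx
      exact h g hg
    | zero => rw [Matrix.mul_zero, Matrix.zero_mul]
    | add x y _ _ hx hy => rw [Matrix.mul_add, Matrix.add_mul, hx, hy]
    | smul t x _ hx => rw [Matrix.mul_smul, Matrix.smul_mul, hx]
  obtain ⟨c, hc⟩ := mem_range_scalar_of_commute_single (M := A)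
    fun i j _ => (h1 (Matrix.single i j 1)).symm
  refine ⟨c, ?_⟩
  rw [← hc, Matrix.scalar_apply, Matrix.smul_one_eq_diagonal]

private theorem det_toMatrix (g : SUGroup k) : g.toMatrix.det = 1 := g.1.2

private theorem smul_one_eq {c d : ℂ}
    (h : c • (1 : Matrix (Fin (k + 1)) (Fin (k + 1)) ℂ) = d • 1) : c = d := by
  have h1 := congrFun (congrFun h 0) 0
  simpa using h1

/-- the elements of the upper central series are scalars -/
private theorem ucs_scalar (hk : 1 ≤ k) {Γ : Subgroup (SUGroup k)} (h : IsLattice Γ)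
    {D : Subgroup (SUGroup k)} (hle : D ≤ Γ) (hfi : D.relIndex Γ ≠ 0) (n : ℕ) :
    ∀ z ∈ Subgroup.upperCentralSeries D n, ∃ c : ℂ, (z : SUGroup k).toMatrix = c • 1 := by
  induction n with
  | zero =>
    intro z hz
    have h1 : z = 1 := by simpa using hz
    exact ⟨1, by rw [h1, one_smul]; rfl⟩
  | succ n ih =>
    intro z hz
    have hcomm : ∀ g : D, ∃ c : ℂ, ((z * g * z⁻¹ * g⁻¹ : D) : SUGroup k).toMatrix = c • 1 := by
      intro g
      apply ih
      have h1 := hz g
      rwa [commutatorElement_def] at h1
    choose c hc using hcomm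
    have hdet : ∀ g, c g ^ (k + 1) = 1 := by
      intro g
      have h1 := det_toMatrix ((z * g * z⁻¹ * g⁻¹ : D) : SUGroup k)
      rw [hc g, det_smul, det_one, mul_one, Fintype.card_fin] at h1
      exact h1
    have hmul : ∀ g g' : D, c (g * g') = c g * c g' := by
      intro g g'
      apply smul_one_eq (k := k)
      rw [← hc]
      have e : ((z * (g * g') * z⁻¹ * (g * g')⁻¹ : D) : SUGroup k) =
          ((z * g * z⁻¹ * g⁻¹ : D) : SUGroup k) * (g : SUGroup k) *
            ((z * g' * z⁻¹ * g'⁻¹ : D) : SUGroup k) * (g : SUGroup k)⁻¹ := by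
        push_cast
        group
      rw [e, toMatrix_mul, toMatrix_mul, toMatrix_mul, hc g, hc g', Matrix.mul_smul,
        Matrix.mul_one, Matrix.smul_mul, Matrix.smul_mul, Matrix.smul_mul, Matrix.one_mul,
        toMatrix_mul_inv, smul_smul, mul_comm]
    have hone : c 1 = 1 := by
      apply smul_one_eq (k := k)
      rw [← hc, one_smul]
      have e : ((z * 1 * z⁻¹ * 1⁻¹ : D) : SUGroup k) = 1 := by
        push_cast
        group
      rw [e]
      rfl
    let φ : D →* ℂ := ⟨⟨c, hone⟩, hmul⟩
    have hrange : φ.toHomUnits.range ≤ rootsOfUnity (k + 1) ℂ := by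
      rintro _ ⟨g, rfl⟩
      rw [mem_rootsOfUnity']
      exact hdet g
    have hfin : Finite φ.toHomUnits.range :=
      Finite.of_injective (Subgroup.inclusion hrange) (Subgroup.inclusion_injective hrange)
    have hC : φ.toHomUnits.ker.FiniteIndex := inferInstance
    obtain ⟨C, hCdef⟩ : ∃ C : Subgroup (SUGroup k), C = φ.toHomUnits.ker.map D.subtype :=
      ⟨_, rfl⟩
    have hCD : C ≤ D := by
      rw [hCdef]
      rintro _ ⟨g, -, rfl⟩
      exact g.2
    have hCi : C.relIndex D ≠ 0 := by
      have e : C.subgroupOf D = φ.toHomUnits.ker := by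
        rw [hCdef]
        exact Subgroup.comap_map_eq_self_of_injective D.subtype_injective _
      rw [Subgroup.relIndex, e]
      exact hC.index_ne_zero
    have hCΓ : C.relIndex Γ ≠ 0 := by
      rw [← Subgroup.relIndex_mul_relIndex _ _ _ hCD hle]
      exact mul_ne_zero hCi hfi
    have hspan := span_top_fin hk Γ C h hCΓ
    refine scalar_of_comm hspan ?_
    intro g hg
    rw [hCdef] at hg
    obtain ⟨g, hg, rfl⟩ := hg
    have h1 : c g = 1 := by
      have h2 : φ.toHomUnits g = 1 := hg
      exact congrArg Units.val h2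
    have h3 := hc g
    rw [h1, one_smul] at h3
    have h4 : (z * g * z⁻¹ * g⁻¹ : D) = 1 := by
      apply Subtype.ext
      apply toMatrix_injective
      rw [h3]
      rfl
    have h5 : z * g = g * z := by
      have h6 : z * g * z⁻¹ = g := mul_inv_eq_one.mp h4
      rw [mul_inv_eq_iff_eq_mul] at h6
      exact h6
    have h7 := congrArg (fun x : D => (x : SUGroup k).toMatrix) h5
    exact h7

/-- An irreducible nilpotent group all of whose subgroups of finite index are irreducible consists of
scalars. PROOF: suppose that some element is not scalar. The centre is scalar (it commutes with the span,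
which is everything: `Matrix` centre). Let `z` be a nonscalar element of the second centre (exists because
the group is nilpotent and not equal to its centre: `Subgroup.upperCentralSeries`). For `g` in the group
`z g z⁻¹ g⁻¹` is central, so a scalar `c g` with `c g ^ (k+1) = 1` (determinant one); `c` is a homomorphism
into a finite group, so its kernel, the centraliser of `z`, has finite index; its span is everything
(`span_top_fin`), so `z` is scalar: contradiction. So the group is abelian, contained in the scalars; but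
the span is everything and `1 ≤ k`. -/
theorem not_nilp (hk : 1 ≤ k) {Γ : Subgroup (SUGroup k)} (h : IsLattice Γ)
    {D : Subgroup (SUGroup k)} (hle : D ≤ Γ) (hfi : D.relIndex Γ ≠ 0) : ¬ Group.IsNilpotent D := by
  intro hn
  obtain ⟨n, hn⟩ := Group.IsNilpotent.nilpotent D
  have h1 := ucs_scalar hk h hle hfi n
  have hspan := span_top_fin hk Γ D h hfi
  have h2 : ∀ B : Matrix (Fin (k + 1)) (Fin (k + 1)) ℂ, ∃ c : ℂ, B = c • 1 := by
    intro B
    have hB : B ∈ Submodule.span ℂ (SUGroup.toMatrix '' (D : Set (SUGroup k))) := by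
      rw [hspan]
      trivial
    induction hB using Submodule.span_induction with
    | mem x hx =>
      obtain ⟨g, hg, rfl⟩ := hx
      exact h1 ⟨g, hg⟩ (by rw [hn]; trivial)
    | zero => exact ⟨0, by rw [zero_smul]⟩
    | add x y _ _ hx hy =>
      obtain ⟨a, ha⟩ := hx
      obtain ⟨b, hb⟩ := hy
      exact ⟨a + b, by rw [ha, hb, add_smul]⟩
    | smul t x _ hx =>
      obtain ⟨a, ha⟩ := hx
      exact ⟨t * a, by rw [ha, smul_smul]⟩
  obtain ⟨c, hc⟩ := h2 (Matrix.single 0 (Fin.last k) 1)
  have h3 : (0 : Fin (k + 1)) ≠ Fin.last k := by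
    intro h4
    have h5 := congrArg Fin.val h4
    simp at h5
    omega
  have h4 := congrFun (congrFun hc 0) (Fin.last k)
  rw [Matrix.single_apply_same, Matrix.smul_apply, Matrix.one_apply_ne h3, smul_zero] at h4
  exact one_ne_zero h4

end Pool.Agent.Lib.MP_5d4057_al.GX
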