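import Pool.Agent.Lib.MP_5d4057_al.GX.Frm
import Pool.Agent.Lib.MP_5d4057_al.GX.Nilp
import Pool.Agent.Lib.MP_5d4057_al.GX.Fix

/-!
# GX 8: the two hyperplanes meet
-/

namespace Pool.Agent.Lib.MP_5d4057_al.GX

open MeasureTheory hiding extend
open Matrix Filter Topology Pool.Agent.Lib.MP_5d4057_al
  Pool.Agent.Lib.MP_5d4057_al.Hyb Pool.Agent.Lib.MP_5d4057_al.HM
  Pool.Agent.Lib.MP_5d4057_al.NU

variable {k : ℕ}

private theorem pos_q_n {m : ℕ} (g : SUGroup (m + 1)) : q (act g (e0 m)) = 1 := by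
  rw [q_act, q_e0]

/-- The elements of the piece fix the normal vector. -/
theorem act_emb_e0 {m : ℕ} (g : SUGroup (m + 1)) (γ : SUGroup m) :
    act (emb g γ) (act g (e0 m)) = act g (e0 m) := by
  rw [emb_apply, ← act_mul, inv_mul_cancel_right, act_mul, act_extend_e0]

/-- The normal vectors are not proportional. PROOF: otherwise every element of the hybrid fixes
`n_0` (the generators do); the span of the hybrid is everything (`span_top`): contradiction. -/
theorem not_prop {Γ : Fin 2 → Subgroup (SUGroup (k + 1))} {g : Fin 2 → SUGroup (k + 2)}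
    (hlat : IsLattice (hybrid Γ g)) (ζ : ℂ) :
    act (g 1) (e0 (k + 1)) ≠ ζ • act (g 0) (e0 (k + 1)) := by
  intro h
  obtain ⟨n0, hn0⟩ : ∃ n0, n0 = act (g 0) (e0 (k + 1)) := ⟨_, rfl⟩
  have hne : n0 ≠ 0 := by
    intro h0
    have h1 := pos_q_n (g 0)
    rw [← hn0, h0] at h1
    simp [q, herm] at h1
  have hζ : ζ ≠ 0 := by
    intro h0
    rw [h0, zero_smul] at h
    have h1 := pos_q_n (g 1)
    rw [h] at h1
    simp [q, herm] at h1
  have hfix : ∀ x ∈ hybrid Γ g, act x n0 = n0 := by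
    intro x hx
    induction hx using Subgroup.closure_induction with
    | mem x hx =>
      obtain ⟨b, γ, hγ, rfl⟩ := hx
      have h2 := act_emb_e0 (g b) γ
      rw [emb_apply] at h2
      fin_cases b
      · rw [hn0]
        exact h2
      · have h3 : act (g 1 * extend (k + 1) γ * (g 1)⁻¹) (ζ • n0) = ζ • n0 := by
          rw [hn0, ← h]
          exact h2
        rw [act_smul] at h3
        exact smul_right_injective _ hζ h3
    | one => exact act_one _
    | mul x y _ _ hx hy => rw [act_mul, hy, hx]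
    | inv x _ hx =>
      nth_rewrite 1 [← hx]
      rw [← act_mul, inv_mul_cancel, act_one]
  have hspan : ∀ M : Matrix (Fin (k + 3)) (Fin (k + 3)) ℂ, ∃ c : ℂ, M *ᵥ n0 = c • n0 := by
    intro M
    have hM : M ∈ Submodule.span ℂ (SUGroup.toMatrix '' (hybrid Γ g : Set (SUGroup (k + 2)))) := by
      rw [span_top (by omega) _ hlat]
      trivial
    induction hM using Submodule.span_induction with
    | mem x hx =>
      obtain ⟨γ, hγ, rfl⟩ := hx
      exact ⟨1, by rw [one_smul]; exact hfix γ hγ⟩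
    | zero => exact ⟨0, by rw [zero_mulVec, zero_smul]⟩
    | add x y _ _ hx hy =>
      obtain ⟨c, hc⟩ := hx
      obtain ⟨d, hd⟩ := hy
      exact ⟨c + d, by rw [add_mulVec, hc, hd, add_smul]⟩
    | smul a x _ hx =>
      obtain ⟨c, hc⟩ := hx
      exact ⟨a * c, by rw [smul_mulVec, hc, smul_smul]⟩
  obtain ⟨j, hj⟩ : ∃ j, n0 j ≠ 0 := by
    by_contra hcon
    push Not at hcon
    exact hne (funext hcon)
  obtain ⟨i, hi⟩ : ∃ i : Fin (k + 3), i ≠ j := exists_ne j
  obtain ⟨c, hc⟩ := hspan (Matrix.single i j 1)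
  have h4 := congrFun hc j
  have h5 := congrFun hc i
  rw [Matrix.mulVec, dotProduct] at h4 h5
  rw [Finset.sum_eq_zero (fun l _ => by
    rw [Matrix.single_apply, if_neg (by rintro ⟨h6, -⟩; exact hi h6), zero_mul])] at h4
  rw [Finset.sum_eq_single j (fun l _ hl => by
    rw [Matrix.single_apply, if_neg (by rintro ⟨-, h6⟩; exact hl h6.symm), zero_mul])
    (fun h6 => absurd (Finset.mem_univ _) h6), Matrix.single_apply, if_pos ⟨rfl, rfl⟩, one_mul] at h5
  have hc0 : c = 0 := by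
    rcases mul_eq_zero.1 h4.symm with h6 | h6
    · exact h6
    · exact absurd h6 hj
  rw [hc0, zero_smul] at h5
  exact hj h5

/-- **The hyperplanes meet.** PROOF: `n_b = act (g b) e_0`, `c = herm n_0 n_1`, `p = n_1 - c n_0`,
`q p = 1 - |c|²`, `p ≠ 0` (`not_prop`); every `j γ` fixes `n_0`, `n_1` (`act_extend_e0`), so `p`. If
`|c| > 1` then `p ∈ Cone`: `fin_of_fix_neg`, contradiction with `exists_not_fin` (`j` injective). If
`|c| = 1` then `q p = 0`: `fix_null` for `D = j.range`; in the first case as before, in the second case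
`D'.comap j` has finite index in `Γ₃` and is nilpotent (isomorphic to `D'`): `not_nilp`. -/
theorem herm_lt_one (hk : 1 ≤ k) {Γ₃ : Subgroup (SUGroup k)} (h₃ : IsLattice Γ₃)
    {Γ : Fin 2 → Subgroup (SUGroup (k + 1))} {g : Fin 2 → SUGroup (k + 2)}
    (hlat : IsLattice (hybrid Γ g)) (hf : FGG (hybrid Γ g)) (j : Γ₃ →* SUGroup (k + 2))
    (hj : Function.Injective j) (h0 : ∀ γ, j γ ∈ (Γ 0).map (emb (g 0)))
    (h1 : ∀ γ, j γ ∈ (Γ 1).map (emb (g 1))) :
    ‖herm (act (g 0) (e0 (k + 1))) (act (g 1) (e0 (k + 1)))‖ < 1 := by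
  by_contra hcon
  push Not at hcon
  obtain ⟨n0, hn0⟩ : ∃ n0, n0 = act (g 0) (e0 (k + 1)) := ⟨_, rfl⟩
  obtain ⟨n1, hn1⟩ : ∃ n1, n1 = act (g 1) (e0 (k + 1)) := ⟨_, rfl⟩
  obtain ⟨c, hc⟩ : ∃ c, c = herm n0 n1 := ⟨_, rfl⟩
  rw [← hn0, ← hn1, ← hc] at hcon
  have hq0 : herm n0 n0 = 1 := by rw [herm_self, hn0, q_act, q_e0, Complex.ofReal_one]
  have hq1 : herm n1 n1 = 1 := by rw [herm_self, hn1, q_act, q_e0, Complex.ofReal_one]
  have hc' : herm n1 n0 = star c := by rw [herm_comm, ← hc]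
  obtain ⟨p, hp⟩ : ∃ p, p = n1 + (-c) • n0 := ⟨_, rfl⟩
  have hqp : herm p p = ((1 - ‖c‖ ^ 2 : ℝ) : ℂ) := by
    rw [hp, herm_add_right, herm_add_left, herm_smul_right, herm_add_left, herm_smul_left,
      herm_smul_left, hq0, hq1, ← hc, hc', star_neg]
    have hcc : star c * c = (‖c‖ : ℂ) ^ 2 := by
      rw [RCLike.star_def, Complex.conj_mul']
    push_cast
    rw [← hcc]
    ring
  have hqp' : q p = 1 - ‖c‖ ^ 2 := by
    have h2 := herm_self p
    rw [hqp] at h2
    exact_mod_cast h2.symm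
  have hp0 : p ≠ 0 := by
    intro h2
    refine not_prop hlat c ?_
    rw [← hn0, ← hn1]
    rw [hp, neg_smul, ← sub_eq_add_neg, sub_eq_zero] at h2
    exact h2
  have hfix : ∀ γ, act (j γ) p = p := by
    intro γ
    obtain ⟨a, -, ha⟩ := h0 γ
    obtain ⟨b, -, hb⟩ := h1 γ
    have h2 : act (j γ) n0 = n0 := by
      rw [← ha, hn0]
      exact act_emb_e0 _ _
    have h3 : act (j γ) n1 = n1 := by
      rw [← hb, hn1]
      exact act_emb_e0 _ _
    rw [hp, act_add, act_smul, h2, h3]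
  have hmem : ∀ γ, j γ ∈ hybrid Γ g := by
    intro γ
    obtain ⟨a, ha, ha'⟩ := h0 γ
    rw [← ha']
    exact Subgroup.subset_closure ⟨0, a, ha, rfl⟩
  have hnot : ¬ ∀ γ : Γ₃, IsOfFinOrder (j γ) := by
    intro hall
    obtain ⟨γ, hγ, hnf⟩ := exists_not_fin hk h₃
    obtain ⟨N, hN, hN1⟩ := isOfFinOrder_iff_pow_eq_one.1 (hall ⟨γ, hγ⟩)
    rw [← map_pow, ← map_one j] at hN1
    refine hnf (isOfFinOrder_iff_pow_eq_one.2 ⟨N, hN, ?_⟩)
    exact congrArg Subtype.val (hj hN1)
  rcases hcon.lt_or_eq with hlt | heq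
  · refine hnot fun γ => ?_
    refine fin_of_fix_neg hlat.1 (hmem γ) (v := p) ?_ (hfix γ)
    show q p < 0
    rw [hqp']
    nlinarith
  · have hq : q p = 0 := by
      rw [hqp', ← heq]
      norm_num
    rcases fix_null (by omega) hlat hf hp0 hq (D := j.range) (by
      rintro _ ⟨γ, rfl⟩
      exact hmem γ) (by
      rintro _ ⟨γ, rfl⟩
      exact hfix γ) with hA | ⟨D', hD', hrel, hnil⟩
    · exact hnot fun γ => hA _ ⟨γ, rfl⟩
    · refine not_nilp hk h₃ (D := (D'.comap j).map Γ₃.subtype) ?_ ?_ ?_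
      · rintro _ ⟨γ, -, rfl⟩
        exact γ.2
      · rw [Subgroup.relIndex, Subgroup.subgroupOf,
          Subgroup.comap_map_eq_self_of_injective Γ₃.subtype_injective, Subgroup.index_comap]
        exact hrel
      · have hn1 : Group.IsNilpotent (D'.comap j) := by
          have hnil' : Group.IsNilpotent D' := hnil
          refine Subgroup.isNilpotent_of_ker_le_center (j.subgroupComap D') ?_
          rw [(MonoidHom.ker_eq_bot_iff _).2]
          · exact bot_le
          · intro x y hxy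
            exact Subtype.ext (hj (congrArg Subtype.val hxy))
        exact Group.nilpotent_of_mulEquiv
          ((D'.comap j).equivMapOfInjective Γ₃.subtype Γ₃.subtype_injective)

end Pool.Agent.Lib.MP_5d4057_al.GX
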