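import Pool.Agent.Lib.MP_5d4057_al.HM.CocSub
import Pool.Agent.Lib.MP_5d4057_al.HM.Kak
import Pool.Agent.Lib.MP_5d4057_al.Hyb.Main
import Pool.Agent.Lib.MP_5d4057_al.Hyb.ArithG

/-!
# GX 4a: frames adapted to two hyperplanes which meet
-/

namespace Pool.Agent.Lib.MP_5d4057_al.GX

open Matrix Pool.Agent.Lib.MP_5d4057_al Pool.Agent.Lib.MP_5d4057_al.Hyb
  Pool.Agent.Lib.MP_5d4057_al.HM

variable {k m : ℕ}

/-- The first basis vector. -/
def e0 (m : ℕ) : Vec (m + 1) := Pi.single 0 1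

theorem herm_e0 (v : Vec (m + 1)) : herm (e0 m) v = v 0 := by
  have h1 : star (e0 m) = Pi.single 0 1 := by
    rw [e0, ← Pi.single_star, star_one]
  rw [herm, h1, single_dotProduct, one_mul, J, mulVec_diagonal, if_neg (Fin.last_pos).ne, one_mul]

theorem q_e0 (m : ℕ) : q (e0 m) = 1 := by
  rw [q, herm_e0, e0, Pi.single_eq_same, Complex.one_re]

theorem herm_cons_cons (x y : ℂ) (v w : Vec m) :
    herm (Fin.cons x v : Vec (m + 1)) (Fin.cons y w : Vec (m + 1)) = star x * y + herm v w := by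
  rw [herm, herm, J_succ, dsum_mulVec_cons, dotProduct, Fin.sum_univ_succ, one_mul]
  rfl

theorem act_extend_cons (y : SUGroup m) (x : ℂ) (v : Vec m) :
    act (extend m y) (Fin.cons x v : Vec (m + 1)) = (Fin.cons x (act y v) : Vec (m + 1)) := by
  rw [act, act, extend_toMatrix, dsum_mulVec_cons, one_mul]

theorem e0_eq_cons : e0 m = (Fin.cons 1 0 : Vec (m + 1)) := by
  ext i
  refine Fin.cases ?_ (fun i => ?_) i
  · rw [e0, Pi.single_eq_same, Fin.cons_zero]
  · rw [e0, Pi.single_eq_of_ne (Fin.succ_ne_zero i), Fin.cons_succ, Pi.zero_apply]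

theorem act_extend_e0 (y : SUGroup m) : act (extend m y) (e0 m) = e0 m := by
  rw [e0_eq_cons, act_extend_cons, act, mulVec_zero]

/-- The stabiliser of the first basis vector is the image of `extend`. PROOF: the first column of `x` is
`e_0`; `x` preserves the form, so the first row is `e_0` as well. -/
theorem exists_extend {x : SUGroup (m + 1)} (h : act x (e0 m) = e0 m) : ∃ y, x = extend m y := by
  have hcol : ∀ i : Fin (m + 1), x.toMatrix i.succ 0 = 0 := by
    intro i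
    have h1 := congrFun h i.succ
    rw [act, e0, mulVec_single_one, Pi.single_eq_of_ne (Fin.succ_ne_zero i)] at h1
    exact h1
  have h00 : x.toMatrix 0 0 = 1 := by
    have h1 := congrFun h 0
    rw [act, e0, mulVec_single_one, Pi.single_eq_same] at h1
    exact h1
  have hrow : ∀ j : Fin (m + 1), x.toMatrix 0 j.succ = 0 := by
    intro j
    have h1 : herm (act x (e0 m)) (act x (Pi.single j.succ 1)) =
        herm (e0 m) (Pi.single j.succ 1) := herm_act x _ _
    rw [h, herm_e0, herm_e0, act, mulVec_single_one,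
      Pi.single_eq_of_ne (Fin.succ_ne_zero j).symm] at h1
    exact h1
  obtain ⟨A, hA⟩ : ∃ A : Matrix (Fin (m + 1)) (Fin (m + 1)) ℂ, x.toMatrix = dsum 1 A := by
    refine ⟨x.toMatrix.submatrix Fin.succ Fin.succ, ?_⟩
    ext i j
    refine Fin.cases ?_ (fun i => ?_) i <;> refine Fin.cases ?_ (fun j => ?_) j
    · rw [h00, dsum_zero_zero]
    · rw [hrow, dsum_zero_succ]
    · rw [hcol, dsum_succ_zero]
    · rw [dsum_succ_succ, submatrix_apply]
  have hdet : A.det = 1 := by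
    have h1 : x.toMatrix.det = 1 := x.1.2
    rw [hA, det_dsum, one_mul] at h1
    exact h1
  have hpres : Aᴴ * J m * A = J m := by
    have h1 : x.toMatrixᴴ * J (m + 1) * x.toMatrix = J (m + 1) := x.2
    rw [hA, dsum_conjTranspose, J_succ, dsum_mul, dsum_mul] at h1
    exact (dsum_inj h1).2
  refine ⟨ofMatrix A hdet hpres, toMatrix_injective ?_⟩
  rw [extend_toMatrix, toMatrix_ofMatrix, hA]

/-- Transitivity on positive vectors of length one. PROOF: the reflection in `e_0 - u w` for a phase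
`u` with `herm e_0 (u w) ≤ 0` maps `e_0` to `u w`; correct the phase and the determinant by a
diagonal matrix. -/
theorem exists_act_e0 {w : Vec (m + 1)} (hw : q w = 1) : ∃ x : SUGroup (m + 1), act x (e0 m) = w := by
  -- the phase
  obtain ⟨u, hu, r, hr, hur⟩ : ∃ u : ℂ, star u * u = 1 ∧ ∃ r : ℝ, 0 ≤ r ∧
      herm (e0 m) (u • w) = ((-r : ℝ) : ℂ) := by
    by_cases h0 : herm (e0 m) w = 0
    · exact ⟨1, by simp, 0, le_rfl, by rw [one_smul, h0]; simp⟩
    · have hn : (‖herm (e0 m) w‖ : ℂ) ≠ 0 := by exact_mod_cast norm_ne_zero_iff.2 h0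
      have hcc : star (herm (e0 m) w) * herm (e0 m) w = (‖herm (e0 m) w‖ : ℂ) ^ 2 := by
        rw [RCLike.star_def, Complex.conj_mul']
      refine ⟨-(star (herm (e0 m) w) / (‖herm (e0 m) w‖ : ℂ)), ?_, ‖herm (e0 m) w‖,
        norm_nonneg _, ?_⟩
      · have hsn : star (‖herm (e0 m) w‖ : ℂ) = (‖herm (e0 m) w‖ : ℂ) := Complex.conj_ofReal _
        rw [star_neg, star_div₀, star_star, neg_mul_neg, hsn, div_mul_div_comm,
          mul_comm (herm (e0 m) w), hcc, ← sq, div_self (pow_ne_zero 2 hn)]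
      · rw [herm_smul_right, neg_mul, div_mul_eq_mul_div, hcc, Complex.ofReal_neg]
        field_simp
  have hun : ‖u‖ = 1 := by
    have h1 : ‖u‖ ^ 2 = 1 := by
      have h2 := hu
      rw [RCLike.star_def, Complex.conj_mul'] at h2
      exact_mod_cast h2
    exact (pow_eq_one_iff_of_nonneg (norm_nonneg u) two_ne_zero).1 h1
  have hu0 : u ≠ 0 := norm_ne_zero_iff.1 (by rw [hun]; exact one_ne_zero)
  obtain ⟨w1, hw1⟩ : ∃ w1, w1 = u • w := ⟨_, rfl⟩
  have hqw1 : q w1 = 1 := by rw [hw1, q_smul, hun, hw]; norm_num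
  obtain ⟨d, hd⟩ : ∃ d, d = e0 m + (-1 : ℂ) • w1 := ⟨_, rfl⟩
  have hh1 : herm (e0 m) w1 = ((-r : ℝ) : ℂ) := by rw [hw1, hur]
  have hh2 : herm w1 (e0 m) = ((-r : ℝ) : ℂ) := by
    rw [herm_comm, hh1, RCLike.star_def, Complex.conj_ofReal]
  have hde : herm d (e0 m) = ((1 + r : ℝ) : ℂ) := by
    rw [hd, herm_add_left, herm_smul_left, herm_self, hh2, q_e0]
    simp
  have hdw : herm d w1 = ((-(1 + r) : ℝ) : ℂ) := by
    rw [hd, herm_add_left, herm_smul_left, herm_self, hh1, hqw1, star_neg, star_one]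
    push_cast
    ring
  have hqd : q d = 2 * (1 + r) := by
    have h1 : herm d d = ((2 * (1 + r) : ℝ) : ℂ) := by
      have h2 : herm d d = herm d (e0 m) + (-1 : ℂ) * herm d w1 := by
        conv_lhs => rw [show herm d d = herm d (e0 m + (-1 : ℂ) • w1) by rw [← hd]]
        rw [herm_add_right, herm_smul_right]
      rw [h2, hde, hdw]
      push_cast
      ring
    rw [herm_self] at h1
    exact_mod_cast h1
  have hqd0 : q d ≠ 0 := by
    rw [hqd]
    positivity
  have e1 : Kak.refl d *ᵥ (e0 m) = w1 := by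
    rw [Kak.refl_mulVec, hde, hqd]
    have h1 : (2 * ((1 + r : ℝ) : ℂ) / ((2 * (1 + r) : ℝ) : ℂ)) = 1 := by
      rw [Complex.ofReal_mul, Complex.ofReal_ofNat]
      refine div_self (mul_ne_zero two_ne_zero ?_)
      have : (1 + r : ℝ) ≠ 0 := by positivity
      exact_mod_cast this
    rw [h1, one_smul, hd]
    module
  -- the diagonal correction
  obtain ⟨c, hc⟩ : ∃ c : ℂ, c ^ (m + 1) = -u := IsAlgClosed.exists_pow_nat_eq _ (Nat.succ_pos m)
  have hc1 : ‖c‖ = 1 := by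
    have h1 := congrArg norm hc
    rw [norm_pow, norm_neg, hun] at h1
    exact (pow_eq_one_iff_of_nonneg (norm_nonneg c) (Nat.succ_ne_zero m)).1 h1
  have hcc : star c * c = 1 := by
    rw [RCLike.star_def, Complex.conj_mul', hc1]; simp
  obtain ⟨D, hD⟩ : ∃ D : Mat (m + 2), D = dsum u⁻¹ (c • (1 : Mat (m + 1))) := ⟨_, rfl⟩
  have hDdet : D.det = -1 := by
    rw [hD, det_dsum, det_smul, det_one, mul_one, Fintype.card_fin, hc]
    field_simp
  have hDpres : Dᴴ * J (m + 1) * D = J (m + 1) := by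
    have hu' : star u⁻¹ * 1 * u⁻¹ = 1 := by
      rw [mul_one, star_inv₀, ← mul_inv, hu, inv_one]
    rw [hD, dsum_conjTranspose, J_succ, dsum_mul, dsum_mul, hu', conjTranspose_smul,
      conjTranspose_one, smul_mul_assoc, one_mul, Matrix.mul_smul, Matrix.mul_one, smul_smul,
      mul_comm c, hcc, one_smul]
  have hDe : D *ᵥ e0 m = u⁻¹ • e0 m := by
    rw [e0_eq_cons, hD, dsum_mulVec_cons, mulVec_zero, mul_one]
    ext i
    refine Fin.cases ?_ (fun i => ?_) i
    · simp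
    · simp
  have hRpres : (Kak.refl d)ᴴ * J (m + 1) * Kak.refl d = J (m + 1) := by
    apply Kak.pres_of_herm
    intro v w
    exact Kak.herm_refl hqd0 v w
  have hdet : (Kak.refl d * D).det = 1 := by
    rw [det_mul, Kak.det_refl hqd0, hDdet]
    norm_num
  have hpres : (Kak.refl d * D)ᴴ * J (m + 1) * (Kak.refl d * D) = J (m + 1) :=
    unitary_mul hRpres hDpres
  refine ⟨ofMatrix (Kak.refl d * D) hdet hpres, ?_⟩
  rw [act, toMatrix_ofMatrix, ← mulVec_mulVec, hDe, mulVec_smul, e1, hw1, smul_smul,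
    inv_mul_cancel₀ hu0, one_smul]

theorem det_bsum {n : ℕ} (X : Matrix (Fin 2) (Fin 2) ℂ) (A : Matrix (Fin n) (Fin n) ℂ) :
    (bsum X A).det = X.det * A.det := by
  have h0 : (bsum X A).submatrix Fin.succ (Fin.succAbove 0) = dsum (X 1 1) A := by
    ext i j
    refine Fin.cases ?_ (fun i => ?_) i <;> refine Fin.cases ?_ (fun j => ?_) j <;> rfl
  have h1 : (bsum X A).submatrix Fin.succ (Fin.succAbove (Fin.succ 0)) = dsum (X 1 0) A := by
    ext i j
    refine Fin.cases ?_ (fun i => ?_) i <;> refine Fin.cases ?_ (fun j => ?_) j <;> rfl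
  rw [det_succ_row_zero, Fin.sum_univ_succ, Fin.sum_univ_succ, h0, h1, det_dsum, det_dsum,
    Finset.sum_eq_zero, det_fin_two, bsum_00, bsum_01]
  · simp
    ring
  · intro i _
    rw [bsum_0j, mul_zero, zero_mul]

/-- **Adapted frames.** PROOF: `n_b = act (g b) e_0`, `c = herm n_0 n_1`, `s = √(1 - |c|²) > 0`,
`m_0 = s⁻¹ (n_1 - c n_0)`, a vector with `q = 1` orthogonal to `n_0`; `(g 0)⁻¹ m_0 = (0, w)`, `q w = 1`;
`u 0` from `exists_act_e0`, so `g 0 (1 ⊕ u 0)` maps `e_1` to `m_0`. `X = !![c, -s; s, conj c]`, unitary with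
determinant one; `x = g 0 (1 ⊕ u 0) (X ⊕ 1)` maps `e_0` to `c n_0 + s m_0 = n_1`; `(g 1)⁻¹ x` fixes `e_0`:
`exists_extend`. -/
theorem exists_frames (g : Fin 2 → SUGroup (k + 2))
    (h : ‖herm (act (g 0) (e0 (k + 1))) (act (g 1) (e0 (k + 1)))‖ < 1) :
    ∃ (u : Fin 2 → SUGroup (k + 1)) (X : Matrix (Fin 2) (Fin 2) ℂ), Xᴴ * X = 1 ∧
      (g 1 * extend (k + 1) (u 1)).toMatrix = (g 0 * extend (k + 1) (u 0)).toMatrix * bsum X 1 := by
  obtain ⟨n0, hn0⟩ : ∃ n0, n0 = act (g 0) (e0 (k + 1)) := ⟨_, rfl⟩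
  obtain ⟨n1, hn1⟩ : ∃ n1, n1 = act (g 1) (e0 (k + 1)) := ⟨_, rfl⟩
  obtain ⟨c, hc⟩ : ∃ c, c = herm n0 n1 := ⟨_, rfl⟩
  rw [← hn0, ← hn1, ← hc] at h
  have hq0 : herm n0 n0 = 1 := by rw [herm_self, hn0, q_act, q_e0, Complex.ofReal_one]
  have hq1 : herm n1 n1 = 1 := by rw [herm_self, hn1, q_act, q_e0, Complex.ofReal_one]
  have hc' : herm n1 n0 = star c := by rw [herm_comm, ← hc]
  have hpos : 0 < 1 - ‖c‖ ^ 2 := by
    have : ‖c‖ ^ 2 < 1 := by
      have h0 := norm_nonneg c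
      nlinarith
    linarith
  obtain ⟨s, hs⟩ : ∃ s : ℝ, s = Real.sqrt (1 - ‖c‖ ^ 2) := ⟨_, rfl⟩
  have hs0 : 0 < s := by rw [hs]; exact Real.sqrt_pos.2 hpos
  have hs2 : s ^ 2 = 1 - ‖c‖ ^ 2 := by rw [hs, Real.sq_sqrt hpos.le]
  have hsC : (s : ℂ) ≠ 0 := by exact_mod_cast hs0.ne'
  have hcc : star c * c = 1 - (s : ℂ) ^ 2 := by
    rw [RCLike.star_def, Complex.conj_mul']
    have h1 : (‖c‖ : ℝ) ^ 2 = 1 - s ^ 2 := by rw [hs2]; ring
    exact_mod_cast h1
  obtain ⟨m0, hm0⟩ : ∃ m0, m0 = (s : ℂ)⁻¹ • (n1 + (-c) • n0) := ⟨_, rfl⟩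
  have hs' : star ((s : ℂ)⁻¹) = (s : ℂ)⁻¹ := by
    rw [star_inv₀, RCLike.star_def, Complex.conj_ofReal]
  have hnm : herm n0 m0 = 0 := by
    rw [hm0, herm_smul_right, herm_add_right, herm_smul_right, hq0, ← hc, mul_one,
      add_neg_cancel, mul_zero]
  have hmm : herm m0 m0 = 1 := by
    rw [hm0, herm_smul_right, herm_smul_left, hs', herm_add_right, herm_add_left, herm_smul_right,
      herm_add_left, herm_smul_left, herm_smul_left, hq0, hq1, ← hc, hc', star_neg]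
    have h1 : (1 + -star c * c + -c * (star c + -star c * 1)) = (s : ℂ) ^ 2 := by
      linear_combination -hcc
    rw [h1]
    field_simp
  -- the second vector of the frame
  obtain ⟨v, hv⟩ : ∃ v, v = act (g 0)⁻¹ m0 := ⟨_, rfl⟩
  have hgv : act (g 0) v = m0 := by rw [hv, ← act_mul, mul_inv_cancel, act_one]
  have hv0 : v 0 = 0 := by
    rw [← herm_e0 v, ← herm_act (g 0), hgv, ← hn0, hnm]
  obtain ⟨w, hw⟩ : ∃ w : Vec (k + 1), v = (Fin.cons 0 w : Vec (k + 2)) :=
    ⟨Fin.tail v, by rw [← hv0]; exact (Fin.cons_self_tail v).symm⟩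
  have hqw : q w = 1 := by
    have h1 : herm v v = 1 := by rw [← herm_act (g 0), hgv, hmm]
    rw [hw, herm_cons_cons, mul_zero, zero_add] at h1
    rw [q, h1, Complex.one_re]
  obtain ⟨u0, hu0⟩ := exists_act_e0 hqw
  obtain ⟨X, hX⟩ : ∃ X : Matrix (Fin 2) (Fin 2) ℂ, X = !![c, -(s : ℂ); (s : ℂ), star c] := ⟨_, rfl⟩
  have hXX : Xᴴ * X = 1 := by
    rw [hX]
    ext i j
    fin_cases i <;> fin_cases j <;>
      simp [Matrix.mul_apply, Fin.sum_univ_two]
    · rw [RCLike.star_def] at hcc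
      linear_combination hcc
    · ring
    · ring
    · rw [RCLike.star_def] at hcc
      linear_combination hcc
  have hXdet : X.det = 1 := by
    rw [hX, det_fin_two_of]
    linear_combination hcc
  have hBdet : (bsum X (1 : Matrix (Fin (k + 1)) (Fin (k + 1)) ℂ)).det = 1 := by
    rw [det_bsum, hXdet, det_one, one_mul]
  have hBpres : (bsum X (1 : Matrix (Fin (k + 1)) (Fin (k + 1)) ℂ))ᴴ * J (k + 2) *
      bsum X (1 : Matrix (Fin (k + 1)) (Fin (k + 1)) ℂ) = J (k + 2) := by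
    rw [J_succ_succ, bsum_conjTranspose, bsum_mul, bsum_mul, conjTranspose_one, Matrix.mul_one,
      Matrix.one_mul, Matrix.mul_one, hXX]
  obtain ⟨B, hB⟩ : ∃ B : SUGroup (k + 2), B.toMatrix = bsum X 1 :=
    ⟨ofMatrix _ hBdet hBpres, toMatrix_ofMatrix _ _ _⟩
  have hBe : act B (e0 (k + 1)) = c • e0 (k + 1) + (s : ℂ) • (Fin.cons 0 (e0 k) : Vec (k + 2)) := by
    have h1 : (0 : Vec (k + 1)) = (Fin.cons 0 0 : Vec (k + 1)) := by
      ext i
      refine Fin.cases ?_ (fun i => ?_) i <;> rfl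
    rw [act, hB, e0_eq_cons, h1, bsum_mulVec_cons, mulVec_zero, hX, e0_eq_cons]
    ext i
    refine Fin.cases ?_ (fun i => Fin.cases ?_ (fun i => ?_) i) i
    · simp
    · simp
    · simp
  have hx : act (g 0 * extend (k + 1) u0 * B) (e0 (k + 1)) = n1 := by
    rw [act_mul, hBe, act_add, act_smul, act_smul, act_mul, act_mul, act_extend_e0,
      act_extend_cons, hu0, ← hw, hgv, ← hn0, hm0, smul_smul, mul_inv_cancel₀ hsC]
    module
  obtain ⟨y, hy⟩ := exists_extend (m := k + 1) (x := (g 1)⁻¹ * (g 0 * extend (k + 1) u0 * B)) (by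
    rw [act_mul, hx, hn1, ← act_mul, inv_mul_cancel, act_one])
  refine ⟨![u0, y], X, hXX, ?_⟩
  have h2 : g 1 * extend (k + 1) y = g 0 * extend (k + 1) u0 * B := by
    rw [← hy, mul_inv_cancel_left]
  show (g 1 * extend (k + 1) y).toMatrix = (g 0 * extend (k + 1) u0).toMatrix * bsum X 1
  rw [h2, toMatrix_mul, hB]

end Pool.Agent.Lib.MP_5d4057_al.GX
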