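import Pool.Agent.Lib.MP_5d4057_al.HM.CocSub
import Pool.Agent.Lib.MP_5d4057_al.Hyb.ArithG

/-!
# GX 4b: conjugation of the pieces
-/

namespace Pool.Agent.Lib.MP_5d4057_al.GX

open Matrix Pool.Agent.Lib.MP_5d4057_al Pool.Agent.Lib.MP_5d4057_al.Hyb
  Pool.Agent.Lib.MP_5d4057_al.HM

variable {k m : ℕ}

/-- Conjugation of the pieces. -/
def cj (u : SUGroup m) (Γ : Subgroup (SUGroup m)) : Subgroup (SUGroup m) :=
  Γ.comap (MulAut.conj u).toMonoidHom

theorem mem_cj {u x : SUGroup m} {Γ : Subgroup (SUGroup m)} : x ∈ cj u Γ ↔ u * x * u⁻¹ ∈ Γ :=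
  Iff.rfl

theorem hybrid_cj (Γ : Fin 2 → Subgroup (SUGroup m)) (g : Fin 2 → SUGroup (m + 1))
    (u : Fin 2 → SUGroup m) :
    hybrid (fun b => cj (u b) (Γ b)) (fun b => g b * extend m (u b)) = hybrid Γ g := by
  unfold hybrid
  congr 1
  ext x
  constructor
  · rintro ⟨b, γ, hγ, rfl⟩
    refine ⟨b, u b * γ * (u b)⁻¹, mem_cj.1 hγ, ?_⟩
    rw [map_mul, map_mul, map_inv]
    group
  · rintro ⟨b, γ, hγ, rfl⟩
    refine ⟨b, (u b)⁻¹ * γ * u b, ?_, ?_⟩
    · rw [mem_cj]
      have : u b * ((u b)⁻¹ * γ * u b) * (u b)⁻¹ = γ := by group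
      rw [this]
      exact hγ
    · rw [map_mul, map_mul, map_inv]
      group

/-- Right multiplication by `u` on the quotients. -/
private def rq (u : SUGroup m) (Γ : Subgroup (SUGroup m)) :
    SUGroup m ⧸ Γ → SUGroup m ⧸ cj u Γ :=
  Quotient.map' (fun g => g * u) fun a b h => by
    rw [QuotientGroup.leftRel_apply] at h ⊢
    rw [mem_cj]
    have : u * ((a * u)⁻¹ * (b * u)) * u⁻¹ = a⁻¹ * b := by group
    rw [this]
    exact h

private theorem rq_mk (u : SUGroup m) (Γ : Subgroup (SUGroup m)) (g : SUGroup m) :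
    rq u Γ (QuotientGroup.mk g) = QuotientGroup.mk (g * u) := rfl

private theorem continuous_rq (u : SUGroup m) (Γ : Subgroup (SUGroup m)) :
    Continuous (rq u Γ) := by
  refine (QuotientGroup.isQuotientMap_mk Γ).continuous_iff.2 ?_
  exact QuotientGroup.continuous_mk.comp (continuous_mul_const u)

private theorem rq_smul (u : SUGroup m) (Γ : Subgroup (SUGroup m)) (g : SUGroup m)
    (x : SUGroup m ⧸ Γ) : rq u Γ (g • x) = g • rq u Γ x := by
  induction x using QuotientGroup.induction_on with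
  | H y =>
    show rq u Γ (QuotientGroup.mk (g * y)) = g • rq u Γ (QuotientGroup.mk y)
    rw [rq_mk, rq_mk, mul_assoc]
    rfl

/-- PROOF: transport the measure by the homeomorphism of the quotients given by conjugation. -/
theorem isLattice_cj (u : SUGroup m) {Γ : Subgroup (SUGroup m)} (h : IsLattice Γ) :
    IsLattice (cj u Γ) := by
  obtain ⟨hd, μ, h0, hfin, hinv⟩ := h
  refine ⟨?_, ?_⟩
  · refine DiscreteTopology.of_continuous_injective
      (f := fun x : cj u Γ => (⟨u * x * u⁻¹, mem_cj.1 x.2⟩ : Γ)) ?_ ?_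
    · exact Continuous.subtype_mk ((continuous_const.mul continuous_subtype_val).mul
        continuous_const) _
    · intro x y hxy
      have h1 : u * (x : SUGroup m) * u⁻¹ = u * y * u⁻¹ := congrArg Subtype.val hxy
      exact Subtype.ext (mul_left_cancel (mul_right_cancel h1))
  · let m1 : MeasurableSpace (SUGroup m ⧸ Γ) := borel _
    let m2 : MeasurableSpace (SUGroup m ⧸ cj u Γ) := borel _
    have b1 : BorelSpace (SUGroup m ⧸ Γ) := ⟨rfl⟩
    have b2 : BorelSpace (SUGroup m ⧸ cj u Γ) := ⟨rfl⟩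
    have hm : Measurable (rq u Γ) := (continuous_rq u Γ).measurable
    refine ⟨μ.map (rq u Γ), ?_, ?_, fun g s hs => ?_⟩
    · intro h1
      apply h0
      rw [← MeasureTheory.Measure.measure_univ_eq_zero] at h1 ⊢
      rwa [MeasureTheory.Measure.map_apply hm MeasurableSet.univ, Set.preimage_univ] at h1
    · rwa [MeasureTheory.Measure.map_apply hm MeasurableSet.univ, Set.preimage_univ]
    · have hg : Measurable fun x : SUGroup m ⧸ cj u Γ => g • x :=
        (continuous_const_smul g).measurable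
      rw [MeasureTheory.Measure.map_apply hm hs, MeasureTheory.Measure.map_apply hm (hg hs),
        ← hinv g _ (hm hs)]
      congr 1
      ext x
      show g • rq u Γ x ∈ s ↔ rq u Γ (g • x) ∈ s
      rw [rq_smul]

/-- PROOF: conjugate the algebra and the order (`IsUnitaryForm.conj`). -/
theorem isArith_cj (u : SUGroup m) {Γ : Subgroup (SUGroup m)} (h : IsArith m Γ) :
    IsArith m (cj u Γ) := by
  obtain ⟨K, A, O, hU, hO, hc⟩ := h
  obtain ⟨φ, hφ⟩ : ∃ φ : Matrix (Fin (m + 1)) (Fin (m + 1)) ℂ ≃+*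
      Matrix (Fin (m + 1)) (Fin (m + 1)) ℂ, φ = (cjAlg K u).toRingEquiv := ⟨_, rfl⟩
  have hφa : ∀ a, φ a = u.toMatrix * a * u⁻¹.toMatrix := fun a => by rw [hφ]; rfl
  have hmem : ∀ a, a ∈ O.comap φ.toRingHom ↔ u.toMatrix * a * u⁻¹.toMatrix ∈ O := fun a => by
    rw [← hφa]
    exact Iff.rfl
  refine ⟨K, conjAlg A u, O.comap φ.toRingHom, hU.conj u, ⟨fun a ha => ?_, ?_, fun a ha => ?_⟩, ?_⟩
  · rw [mem_conjAlg]
    exact hO.sub _ ((hmem a).1 ha)
  · have h1 : (O.comap φ.toRingHom).toAddSubgroup =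
        O.toAddSubgroup.map (φ.symm : _ ≃+* _).toRingHom.toAddMonoidHom := by
      ext a
      rw [AddSubgroup.mem_map]
      constructor
      · intro ha
        exact ⟨φ a, ha, φ.symm_apply_apply a⟩
      · rintro ⟨b, hb, rfl⟩
        show φ (φ.symm b) ∈ O
        rw [φ.apply_symm_apply]
        exact hb
    obtain ⟨S, hS⟩ := hO.fg
    classical
    refine ⟨S.image (φ.symm : _ ≃+* _).toRingHom.toAddMonoidHom, ?_⟩
    rw [h1, ← hS, Finset.coe_image, AddMonoidHom.map_closure]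
  · rw [mem_conjAlg] at ha
    obtain ⟨N, hN, h1⟩ := hO.full _ ha
    refine ⟨N, hN, ?_⟩
    rw [hmem, Matrix.mul_smul, Matrix.smul_mul]
    exact h1
  · have h1 : unitPoints m (O.comap φ.toRingHom) = cj u (unitPoints m O) := by
      ext x
      have e1 : (u * x * u⁻¹).toMatrix = u.toMatrix * x.toMatrix * u⁻¹.toMatrix := by
        rw [toMatrix_mul, toMatrix_mul]
      have e2 : (u * x * u⁻¹)⁻¹.toMatrix = u.toMatrix * x⁻¹.toMatrix * u⁻¹.toMatrix := by
        have : (u * x * u⁻¹)⁻¹ = u * x⁻¹ * u⁻¹ := by group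
        rw [this, toMatrix_mul, toMatrix_mul]
      constructor
      · rintro ⟨h1, h2⟩
        rw [mem_cj]
        refine ⟨?_, ?_⟩
        · rw [e1]
          exact (hmem _).1 h1
        · rw [e2]
          exact (hmem _).1 h2
      · intro h3
        rw [mem_cj] at h3
        obtain ⟨h1, h2⟩ := h3
        rw [e1] at h1
        rw [e2] at h2
        exact ⟨(hmem _).2 h1, (hmem _).2 h2⟩
    rw [h1]
    have h2 : ∀ Γ₁ Γ₂ : Subgroup (SUGroup m), (cj u Γ₁).relIndex (cj u Γ₂) = Γ₁.relIndex Γ₂ := by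
      intro Γ₁ Γ₂
      unfold cj
      rw [Subgroup.relIndex_comap, Subgroup.map_comap_eq_self_of_surjective
        (MulAut.conj u).surjective]
    exact ⟨by rw [h2]; exact hc.1, by rw [h2]; exact hc.2⟩

end Pool.Agent.Lib.MP_5d4057_al.GX
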