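import Pool.Agent.Lib.MP_5d4057_al.GX.FrmA
import Pool.Agent.Lib.MP_5d4057_al.GX.FrmB

/-!
# GX 4c: the elements which are in both pieces
-/

namespace Pool.Agent.Lib.MP_5d4057_al.GX

open Matrix Pool.Agent.Lib.MP_5d4057_al Pool.Agent.Lib.MP_5d4057_al.Hyb
  Pool.Agent.Lib.MP_5d4057_al.HM

variable {k m : ℕ}

private theorem frm_mul (a b : SUGroup m) : (a * b).toMatrix = a.toMatrix * b.toMatrix := rfl

private theorem frm_ext {a b : SUGroup m} (h : a.toMatrix = b.toMatrix) : a = b :=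
  Subtype.ext (Subtype.ext h)

private theorem frm_D {g : Fin 2 → SUGroup (k + 2)} {X : Matrix (Fin 2) (Fin 2) ℂ}
    (hg : (g 1).toMatrix = (g 0).toMatrix * bsum X 1) :
    ((g 0)⁻¹ * g 1).toMatrix = bsum X 1 := by
  have h1 : ((g 0)⁻¹).toMatrix * (g 0).toMatrix = 1 := by
    rw [← frm_mul, inv_mul_cancel]
    rfl
  rw [frm_mul, hg, ← Matrix.mul_assoc, h1, Matrix.one_mul]

private theorem frm_comm {D : SUGroup (k + 2)} {X : Matrix (Fin 2) (Fin 2) ℂ}
    (hD : D.toMatrix = bsum X 1) (x : SUGroup k) :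
    D * extend (k + 1) (extend k x) = extend (k + 1) (extend k x) * D := by
  refine frm_ext ?_
  rw [frm_mul, frm_mul, hD, extend_toMatrix, extend_toMatrix, dsum_dsum, bsum_mul, bsum_mul]
  have h1 : (!![1, 0; 0, 1] : Matrix (Fin 2) (Fin 2) ℂ) = 1 := by
    ext i j
    fin_cases i <;> fin_cases j <;> rfl
  rw [h1]
  simp

/-- The elements which are in both pieces are in the common subgroup. PROOF: such an element fixes
`n_0` and `n_1`, so `e_0` and `e_1` after conjugation by `g 0` (`X 0 1 ≠ 0`, so `X 1 0 ≠ 0`);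
`exists_extend` twice; for `b = 1` use that `X ⊕ 1` commutes with `1 ⊕ 1 ⊕ x`. -/
theorem mem_both {Γ : Fin 2 → Subgroup (SUGroup (k + 1))} {g : Fin 2 → SUGroup (k + 2)}
    {X : Matrix (Fin 2) (Fin 2) ℂ} (hX : Xᴴ * X = 1) (h01 : X 0 1 ≠ 0)
    (hg : (g 1).toMatrix = (g 0).toMatrix * bsum X 1) {x : SUGroup (k + 2)}
    (h0 : x ∈ (Γ 0).map (emb (g 0))) (h1 : x ∈ (Γ 1).map (emb (g 1))) :
    ∃ d : SUGroup k, extend k d ∈ Γ 0 ∧ extend k d ∈ Γ 1 ∧
      x = g 0 * extend (k + 1) (extend k d) * (g 0)⁻¹ := by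
  obtain ⟨a, ha, rfl⟩ := h0
  obtain ⟨b, hb, hab⟩ := h1
  obtain ⟨D, hDdef⟩ : ∃ D, D = (g 0)⁻¹ * g 1 := ⟨_, rfl⟩
  have hD : D.toMatrix = bsum X 1 := by
    rw [hDdef]
    exact frm_D hg
  have hab' : extend (k + 1) a * D = D * extend (k + 1) b := by
    have h2 : g 1 * extend (k + 1) b * (g 1)⁻¹ = g 0 * extend (k + 1) a * (g 0)⁻¹ := hab
    have h3 : extend (k + 1) a = (g 0)⁻¹ * (g 0 * extend (k + 1) a * (g 0)⁻¹) * g 0 := by group
    rw [h3, ← h2, hDdef]
    group
  have h10 : X 1 0 ≠ 0 := by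
    intro h10
    have e00 := congrFun (congrFun hX 0) 0
    have e01 := congrFun (congrFun hX 0) 1
    rw [Matrix.mul_apply, Fin.sum_univ_two, Matrix.conjTranspose_apply, Matrix.conjTranspose_apply,
      h10, star_zero, zero_mul, add_zero] at e00 e01
    rw [Matrix.one_apply_eq] at e00
    rw [Matrix.one_apply_ne (by decide)] at e01
    rcases mul_eq_zero.1 e01 with h | h
    · rw [h, zero_mul] at e00
      exact zero_ne_one e00
    · exact h01 h
  have hcol : D.toMatrix *ᵥ e0 (k + 1) =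
      (Fin.cons (X 0 0) (X 1 0 • e0 k) : Fin (k + 1 + 1 + 1) → ℂ) := by
    rw [hD]
    funext i
    rw [e0, Matrix.mulVec_single_one]
    refine Fin.cases ?_ (fun i => Fin.cases ?_ (fun i => ?_) i) i
    · rfl
    · rw [Matrix.col_apply, Fin.cons_succ, Pi.smul_apply, e0, Pi.single_eq_same, smul_eq_mul, mul_one]
      rfl
    · rw [Matrix.col_apply, Fin.cons_succ, Pi.smul_apply, e0,
        Pi.single_eq_of_ne (Fin.succ_ne_zero i), smul_zero]
      rfl
  have hfix : a.toMatrix *ᵥ e0 k = e0 k := by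
    have h2 := congrArg (fun y : SUGroup (k + 2) => y.toMatrix *ᵥ e0 (k + 1)) hab'
    have h3 : (extend (k + 1) b).toMatrix *ᵥ e0 (k + 1) = e0 (k + 1) := act_extend_e0 b
    simp only [frm_mul] at h2
    rw [← Matrix.mulVec_mulVec, ← Matrix.mulVec_mulVec, h3, hcol, extend_toMatrix,
      dsum_mulVec_cons] at h2
    have h4 : a.toMatrix *ᵥ (X 1 0 • e0 k) = X 1 0 • e0 k := by
      funext i
      have h5 := congrFun h2 i.succ
      rwa [Fin.cons_succ, Fin.cons_succ] at h5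
    rw [Matrix.mulVec_smul] at h4
    exact smul_right_injective _ h10 h4
  obtain ⟨d, rfl⟩ := exists_extend (x := a) hfix
  have hb' : b = extend k d := by
    refine extend_injective (k + 1) ?_
    have h2 := frm_comm hD d
    rw [← h2] at hab'
    exact (mul_left_cancel hab').symm
  subst hb'
  exact ⟨d, ha, hb, rfl⟩

/-- The two embeddings agree on the common subgroup. -/
theorem agree_of_frame {g : Fin 2 → SUGroup (k + 2)} {X : Matrix (Fin 2) (Fin 2) ℂ}
    (hg : (g 1).toMatrix = (g 0).toMatrix * bsum X 1) (x : SUGroup k) :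
    g 0 * extend (k + 1) (extend k x) * (g 0)⁻¹ = g 1 * extend (k + 1) (extend k x) * (g 1)⁻¹ := by
  obtain ⟨D, hDdef⟩ : ∃ D, D = (g 0)⁻¹ * g 1 := ⟨_, rfl⟩
  have hD : D.toMatrix = bsum X 1 := by
    rw [hDdef]
    exact frm_D hg
  have h2 := frm_comm hD x
  have h3 : g 1 = g 0 * D := by
    rw [hDdef]
    group
  rw [h3, mul_assoc (g 0) D, h2]
  group

end Pool.Agent.Lib.MP_5d4057_al.GX
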