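import Pool.Agent.Lib.MP_5d4057_al.GX.LogA
import Pool.Agent.Lib.MP_5d4057_al.HM.AppEmb
import Pool.Agent.Lib.MP_5d4057_al.NU.CuspA

/-!
# GX 3b: the logarithm of the height of a cusp, restricted to a totally geodesic ball, is strictly
superharmonic with a fixed defect
-/

namespace Pool.Agent.Lib.MP_5d4057_al.GX

open MeasureTheory hiding extend
open Matrix Filter Topology Pool.Agent.Lib.MP_5d4057_al
  Pool.Agent.Lib.MP_5d4057_al.Hyb Pool.Agent.Lib.MP_5d4057_al.HM
  Pool.Agent.Lib.MP_5d4057_al.NU Pool.Agent.Lib.MP_5d4057_al.IN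

variable {k n : ℕ}

/-- the last coordinates -/
private def lyt (w : Vec (n + 1)) : Vec n := fun i => w i.succ

private theorem ly_herm (v : Vec n) (w : Vec (n + 1)) : herm (inc n v) w = herm v (lyt w) := by
  rw [herm_eq, herm_eq, Fin.sum_univ_succ, Fin.castSucc_zero, inc_zero, star_zero, zero_mul,
    zero_add]
  congr 1

private theorem ly_q (w : Vec (n + 1)) : q w = ‖w 0‖ ^ 2 + q (lyt w) := by
  rw [q_eq, q_eq, Fin.sum_univ_succ, Fin.castSucc_zero, add_sub_assoc]
  rfl

private theorem ly_tail {w : Vec (n + 1)} (hq : q w ≤ 0) (hw : w ≠ 0) :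
    q (lyt w) ≤ 0 ∧ lyt w ≠ 0 := by
  have h1 := ly_q w
  have h2 := sq_nonneg ‖w 0‖
  refine ⟨by linarith, fun h => hw ?_⟩
  have h3 : q (lyt w) = 0 := by
    rw [h, q, herm, star_zero, zero_dotProduct, Complex.zero_re]
  rw [h3, add_zero] at h1
  have h4 : ‖w 0‖ = 0 := by
    have : ‖w 0‖ ^ 2 = 0 := le_antisymm (by linarith) h2
    exact pow_eq_zero_iff two_ne_zero |>.1 this
  funext i
  refine Fin.cases (norm_eq_zero.1 h4) (fun i => ?_) i
  exact congrFun h i

private theorem ly_ext (x : SUGroup k) : act (extend (k + 1) (extend k x)) (base (k + 2)) =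
    inc (k + 1) (inc k (act x (base k))) := by
  rw [← inc_base, ← inc_base, act_extend, act_extend]

private theorem ly_wt (x : SUGroup k) : wt (extend (k + 1) (extend k x)) = wt x := by
  have h : ∀ (j : ℕ) (x : SUGroup j), ch (extend j x) = ch x := by
    intro j x
    rw [ch, ch, extend_toMatrix, ← Fin.succ_last, dsum_succ_succ]
  rw [wt, wt, h, h]

/-- The height in terms of the Hermitian product in dimension `k`. -/
private theorem ly_yp {p : Vec (k + 2)} (h : SUGroup (k + 2)) (x : SUGroup k) :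
    Real.log (yp p (act (h * extend (k + 1) (extend k x)) (base (k + 2)))) =
      (-1) * Real.log (‖herm (act x (base k)) (lyt (lyt (act h⁻¹ p)))‖ ^ 2) := by
  have h1 : herm (act (h * extend (k + 1) (extend k x)) (base (k + 2))) p =
      herm (act x (base k)) (lyt (lyt (act h⁻¹ p))) := by
    rw [← herm_act h⁻¹, ← act_mul, inv_mul_cancel_left, ly_ext, ly_herm, ly_herm]
  rw [yp, q_orbit, neg_neg, h1, one_div, Real.log_inv]
  ring

/-- The restriction of `log y_p` to a totally geodesic ball of dimension `k` in dimension `k + 2`. PROOF: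
`yp p (h (1 ⊕ 1 ⊕ x) e) = 1 / |herm (x e) p'|²`, where `p'` is the vector of the last `k + 1` coordinates of
`h⁻¹ p` (`q (h (1 ⊕ 1 ⊕ x) e) = -1`), `q p' ≤ 0` and `p' ≠ 0`; `AA_log_herm`. -/
theorem AA_log_yp (hk : 1 ≤ k) {r : ℝ} (hr : 0 < r) (hr1 : r < 1) {p : Vec (k + 2)} (hp : p ≠ 0)
    (hq : q p = 0) (h : SUGroup (k + 2)) (g : SUGroup k) :
    AA r (fun x => Real.log (yp p (act (h * extend (k + 1) (extend k x)) (base (k + 2))))) g =
      Real.log (yp p (act (h * extend (k + 1) (extend k g)) (base (k + 2)))) - dfc k r := by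
  have h0 : act h⁻¹ p ≠ 0 := by
    intro h1
    apply hp
    have h2 : p = act h (act h⁻¹ p) := by rw [← act_mul, mul_inv_cancel, act_one]
    rw [h2, h1, act, Matrix.mulVec_zero]
  have hq0 : q (act h⁻¹ p) ≤ 0 := by rw [q_act, hq]
  obtain ⟨h1, h2⟩ := ly_tail hq0 h0
  obtain ⟨h3, h4⟩ := ly_tail h1 h2
  simp only [ly_yp]
  rw [AA_smul, AA_log_herm hk hr hr1 h4 h3]
  ring

private theorem ly_pos {Γ : Subgroup (SUGroup n)} {T : ℝ} {y : Vec n → ℝ} (hy : Ht Γ T y)
    (g : SUGroup n) : 0 < y (act g (base n)) :=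
  lt_of_lt_of_le one_pos (hy.one_le _ (orbit_mem g))

private theorem ly_wt_sq {x : SUGroup n} (h : hq x ≤ (1 / 2) ^ 2) : wt x ^ 2 ≤ 4 := by
  have h1 := one_le_ch x
  have h0 : 0 < ch x ^ 2 := by positivity
  have h2 : 3 / 4 ≤ (ch x ^ 2)⁻¹ := by
    rw [hq] at h
    linarith
  have h3 : ch x ^ 2 ≤ 4 / 3 := by
    have h4 := mul_le_mul_of_nonneg_right h2 h0.le
    rw [inv_mul_cancel₀ h0.ne'] at h4
    linarith
  have h5 : Real.sqrt (ch x ^ 2 - 1) ^ 2 = ch x ^ 2 - 1 :=
    Real.sq_sqrt (by nlinarith)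
  rw [wt]
  nlinarith [sq_nonneg (ch x - Real.sqrt (ch x ^ 2 - 1))]

/-- The function `V x = log y (h (1 ⊕ 1 ⊕ x) e)` for a height function `y`. PROOF: `V > log 64` at `g`:
`p` from `Ht.nul` (`T = 64`); for `z` in the support of `bk (1/2)`, `wt z ^ 2 ≤ 3`, so
`yp p (.. g z ..) ≥ yp p (.. g ..) / 4 ≥ 16` (`|herm (g z e) p| ≤ wt z * |herm (g e) p|`) and
`y = yp p` at these points; `AA_log_yp`. -/
theorem lyap_log_y (hk : 1 ≤ k) {Γ : Subgroup (SUGroup (k + 2))} {y : Vec (k + 2) → ℝ}
    (hy : Ht Γ 64 y) (h : SUGroup (k + 2)) (g : SUGroup k)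
    (hg : Real.log 64 < Real.log (y (act (h * extend (k + 1) (extend k g)) (base (k + 2))))) :
    AA (1 / 2) (fun x => Real.log (y (act (h * extend (k + 1) (extend k x)) (base (k + 2))))) g ≤
      Real.log (y (act (h * extend (k + 1) (extend k g)) (base (k + 2)))) - dfc k (1 / 2) := by
  have h64 := (Real.log_lt_log_iff (by norm_num) (ly_pos hy _)).1 hg
  obtain ⟨p, hp, hq0, hyp, -, hnul⟩ := hy.nul _ h64.le
  have e : AA (1 / 2) (fun x => Real.log (y (act (h * extend (k + 1) (extend k x))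
      (base (k + 2))))) g = AA (1 / 2) (fun x => Real.log (yp p (act (h * extend (k + 1)
      (extend k x)) (base (k + 2))))) g := by
    unfold AA
    refine integral_congr_ae (Eventually.of_forall fun x => ?_)
    show bk (1 / 2) x * Real.log (y (act (h * extend (k + 1) (extend k (g * x)))
      (base (k + 2)))) = bk (1 / 2) x * Real.log (yp p (act (h * extend (k + 1)
      (extend k (g * x))) (base (k + 2))))
    rcases le_or_gt (hq x) ((1 / 2) ^ 2) with hx | hx
    · have h1 : h * extend (k + 1) (extend k (g * x)) =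
          h * extend (k + 1) (extend k g) * extend (k + 1) (extend k x) := by
        rw [map_mul, map_mul, mul_assoc]
      have h2 := yp_harn hp hq0 (h * extend (k + 1) (extend k (g * x)))
        (extend (k + 1) (extend k x))⁻¹
      rw [wt_inv, ly_wt] at h2
      have h3 : h * extend (k + 1) (extend k (g * x)) * (extend (k + 1) (extend k x))⁻¹ =
          h * extend (k + 1) (extend k g) := by rw [h1, mul_inv_cancel_right]
      rw [h3, ← hyp] at h2
      have h4 : 0 < yp p (act (h * extend (k + 1) (extend k (g * x))) (base (k + 2))) :=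
        yp_pos hp hq0 (orbit_mem _)
      have h5 := mul_le_mul_of_nonneg_right (ly_wt_sq hx) h4.le
      rw [hnul _ (by linarith)]
    · rw [bk, wk_eq_zero (by norm_num) hx.le, zero_div, zero_mul, zero_mul]
  rw [e, AA_log_yp hk (by norm_num) (by norm_num) hp hq0, hyp]

private theorem ly_cont {Γ : Subgroup (SUGroup n)} {T : ℝ} {y : Vec n → ℝ} (hy : Ht Γ T y) :
    Continuous fun G : SUGroup n => Real.log (y (act G (base n))) := by
  have hb1 : ∀ G G' : SUGroup n, Real.log (y (act G' (base n))) - Real.log (y (act G (base n))) ≤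
      2 * Real.log (wt (G⁻¹ * G')) := by
    intro G G'
    have h1 := hy.harn G (G⁻¹ * G')
    rw [mul_inv_cancel_left] at h1
    have h2 := Real.log_le_log (ly_pos hy G') h1
    have hw : 0 < wt (G⁻¹ * G') := lt_of_lt_of_le one_pos (one_le_wt _)
    rw [Real.log_mul (pow_ne_zero 2 hw.ne') (ly_pos hy G).ne', Real.log_pow] at h2
    push_cast at h2
    linarith
  have hb : ∀ G G' : SUGroup n,
      ‖Real.log (y (act G' (base n))) - Real.log (y (act G (base n)))‖ ≤
      2 * Real.log (wt (G⁻¹ * G')) := by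
    intro G G'
    have h1 := hb1 G G'
    have h2 := hb1 G' G
    have h3 : wt (G'⁻¹ * G) = wt (G⁻¹ * G') := by
      rw [← wt_inv, _root_.mul_inv_rev, inv_inv]
    rw [h3] at h2
    rw [Real.norm_eq_abs, abs_le]
    constructor <;> linarith
  rw [continuous_iff_continuousAt]
  intro G
  refine tendsto_iff_norm_sub_tendsto_zero.2 (squeeze_zero (fun _ => norm_nonneg _)
    (fun G' => hb G G') ?_)
  have hc : Continuous fun G' : SUGroup n => 2 * Real.log (wt (G⁻¹ * G')) :=
    continuous_const.mul ((continuous_wt.comp (continuous_const_mul G⁻¹)).log fun G' =>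
      (lt_of_lt_of_le one_pos (one_le_wt _)).ne')
  have h1 := hc.tendsto G
  simp only [inv_mul_cancel, wt_one, Real.log_one, mul_zero] at h1
  exact h1

/-- PROOF: `Ht.harn` gives `|log y (g x) - log y g| ≤ 2 log (wt x)`. -/
theorem continuous_log_y {Γ : Subgroup (SUGroup (k + 2))} {y : Vec (k + 2) → ℝ}
    (hy : Ht Γ 64 y) (h : SUGroup (k + 2)) : Continuous fun x : SUGroup k =>
      Real.log (y (act (h * extend (k + 1) (extend k x)) (base (k + 2)))) :=
  (ly_cont hy).comp (continuous_const.mul ((continuous_extend (k + 1)).comp (continuous_extend k)))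

end Pool.Agent.Lib.MP_5d4057_al.GX
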