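import Pool.Agent.Lib.MP_5d4057_al.NU.LatA
import Pool.Agent.Lib.MP_5d4057_al.NU.LatB
import Pool.Agent.Lib.MP_5d4057_al.IN.AvgB

/-! Finite covolume from a Lyapunov function (Foster, Lyapunov). -/

set_option autoImplicit false

namespace Pool.Agent.Lib.MP_5d4057_al.GX

open Matrix MeasureTheory Filter Topology Pool.Agent.Lib.MP_5d4057_al
  Pool.Agent.Lib.MP_5d4057_al.Hyb Pool.Agent.Lib.MP_5d4057_al.HM
  Pool.Agent.Lib.MP_5d4057_al.NU Pool.Agent.Lib.MP_5d4057_al.IN

open scoped ComplexOrder MatrixOrder Matrix.Norms.L2Operator ENNReal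

variable {n : ℕ} {Γ : Subgroup (SUGroup n)} {χ : SUGroup n → ℝ}

/-- A partition of unity, without a condition on the covolume. -/
private structure PuL (Γ : Subgroup (SUGroup n)) (χ : SUGroup n → ℝ) : Prop where
  disc : DiscreteTopology Γ
  cont : Continuous χ
  pos : ∀ g, 0 < χ g
  sum : ∀ g, ∑' γ : Γ, χ ((γ : SUGroup n) * g) = 1

private theorem PuL.tsum_ofReal (h : PuL Γ χ) (g : SUGroup n) :
    ∑' γ : Γ, ENNReal.ofReal (χ ((γ : SUGroup n) * g)) = 1 := by
  have hs : Summable fun γ : Γ => χ ((γ : SUGroup n) * g) := by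
    by_contra h0
    have h1 := h.sum g
    rw [tsum_eq_zero_of_not_summable h0] at h1
    exact zero_ne_one h1
  rw [← ENNReal.ofReal_tsum_of_nonneg (fun γ => (h.pos _).le) hs, h.sum g, ENNReal.ofReal_one]

private theorem PuL.meas (h : PuL Γ χ) : Measurable fun g => ENNReal.ofReal (χ g) :=
  h.cont.measurable.ennreal_ofReal

/-- Unfolding. -/
private theorem PuL.unf (h : PuL Γ χ) {f φ : SUGroup n → ℝ≥0∞}
    (hf : ∀ γ ∈ Γ, ∀ g, f (γ * g) = f g) (hm : Measurable f) (hφ : Measurable φ) :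
    ∫⁻ g, φ g * f g ∂(mu n) = LI χ fun g => (∑' γ : Γ, φ ((γ : SUGroup n) * g)) * f g := by
  have := countable_disc h.disc
  have e1 : ∀ g, φ g * f g = ∑' γ : Γ, ENNReal.ofReal (χ ((γ : SUGroup n) * g)) * (φ g * f g) := by
    intro g
    rw [ENNReal.tsum_mul_right, h.tsum_ofReal, one_mul]
  have hm1 : ∀ γ : Γ, AEMeasurable
      (fun g => ENNReal.ofReal (χ ((γ : SUGroup n) * g)) * (φ g * f g)) (mu n) := fun γ =>
    ((h.meas.comp (measurable_const_mul (γ : SUGroup n))).mul (hφ.mul hm)).aemeasurable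
  have e2 : ∀ γ : Γ, ∫⁻ g, ENNReal.ofReal (χ ((γ : SUGroup n) * g)) * (φ g * f g) ∂(mu n) =
      ∫⁻ g, ENNReal.ofReal (χ g) * (φ (((γ⁻¹ : Γ) : SUGroup n) * g) * f g) ∂(mu n) := by
    intro γ
    rw [← lintegral_mul_left_eq_self
      (fun g => ENNReal.ofReal (χ ((γ : SUGroup n) * g)) * (φ g * f g)) ((γ⁻¹ : Γ) : SUGroup n)]
    refine lintegral_congr fun g => ?_
    rw [hf _ (γ⁻¹).2, ← mul_assoc (γ : SUGroup n), ← Subgroup.coe_mul, mul_inv_cancel,
      Subgroup.coe_one, one_mul]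
  have hm2 : ∀ γ : Γ, AEMeasurable
      (fun g => ENNReal.ofReal (χ g) * (φ (((γ⁻¹ : Γ) : SUGroup n) * g) * f g)) (mu n) := fun γ =>
    (h.meas.mul ((hφ.comp (measurable_const_mul _)).mul hm)).aemeasurable
  calc ∫⁻ g, φ g * f g ∂(mu n)
      = ∫⁻ g, ∑' γ : Γ, ENNReal.ofReal (χ ((γ : SUGroup n) * g)) * (φ g * f g) ∂(mu n) :=
        lintegral_congr e1
    _ = ∑' γ : Γ, ∫⁻ g, ENNReal.ofReal (χ ((γ : SUGroup n) * g)) * (φ g * f g) ∂(mu n) :=
        lintegral_tsum hm1
    _ = ∑' γ : Γ, ∫⁻ g, ENNReal.ofReal (χ g) *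
          (φ (((γ⁻¹ : Γ) : SUGroup n) * g) * f g) ∂(mu n) := tsum_congr e2
    _ = ∫⁻ g, ∑' γ : Γ, ENNReal.ofReal (χ g) *
          (φ (((γ⁻¹ : Γ) : SUGroup n) * g) * f g) ∂(mu n) := (lintegral_tsum hm2).symm
    _ = LI χ fun g => (∑' γ : Γ, φ ((γ : SUGroup n) * g)) * f g := by
        refine lintegral_congr fun g => ?_
        rw [ENNReal.tsum_mul_left, ENNReal.tsum_mul_right]
        congr 2
        exact (Equiv.inv Γ).tsum_eq fun γ : Γ => φ ((γ : SUGroup n) * g)

/-- Invariance under right translations. -/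
private theorem PuL.right (h : PuL Γ χ) {f : SUGroup n → ℝ≥0∞}
    (hf : ∀ γ ∈ Γ, ∀ g, f (γ * g) = f g) (hm : Measurable f) (a : SUGroup n) :
    LI χ (fun g => f (g * a)) = LI χ f := by
  have h1 : LI χ (fun g => f (g * a)) =
      ∫⁻ g, ENNReal.ofReal (χ (g * a⁻¹)) * f g ∂(mu n) := by
    unfold LI
    rw [← lintegral_mul_right_eq_self (fun g => ENNReal.ofReal (χ (g * a⁻¹)) * f g) a]
    simp
  have h2 : Measurable (fun g => ENNReal.ofReal (χ (g * a⁻¹))) :=
    h.meas.comp (measurable_mul_const a⁻¹)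
  rw [h1, h.unf hf hm h2]
  refine lintegral_congr fun g => ?_
  have h3 : ∑' γ : Γ, ENNReal.ofReal (χ ((γ : SUGroup n) * g * a⁻¹)) = 1 := by
    rw [← h.tsum_ofReal (g * a⁻¹)]
    simp only [mul_assoc]
  show ENNReal.ofReal (χ g) * ((∑' γ : Γ, ENNReal.ofReal (χ ((γ : SUGroup n) * g * a⁻¹))) * f g) =
    ENNReal.ofReal (χ g) * f g
  rw [h3, one_mul]

/-- Averages have the same integral. -/
private theorem PuL.avg (h : PuL Γ χ) {f κ : SUGroup n → ℝ≥0∞}
    (hf : ∀ γ ∈ Γ, ∀ g, f (γ * g) = f g) (hm : Measurable f) (hκ : Measurable κ) :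
    LI χ (fun g => ∫⁻ x, κ x * f (g * x) ∂(mu n)) = (∫⁻ x, κ x ∂(mu n)) * LI χ f := by
  have hm1 : Measurable fun p : SUGroup n × SUGroup n => f (p.1 * p.2) :=
    hm.comp measurable_mul
  have hm2 : Measurable fun p : SUGroup n × SUGroup n =>
      ENNReal.ofReal (χ p.1) * (κ p.2 * f (p.1 * p.2)) :=
    (h.meas.comp measurable_fst).mul ((hκ.comp measurable_snd).mul hm1)
  calc LI χ (fun g => ∫⁻ x, κ x * f (g * x) ∂(mu n))
      = ∫⁻ g, ∫⁻ x, ENNReal.ofReal (χ g) * (κ x * f (g * x)) ∂(mu n) ∂(mu n) := by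
        unfold LI
        refine lintegral_congr fun g => ?_
        rw [lintegral_const_mul]
        exact hκ.mul (hm.comp (measurable_const_mul g))
    _ = ∫⁻ x, ∫⁻ g, ENNReal.ofReal (χ g) * (κ x * f (g * x)) ∂(mu n) ∂(mu n) :=
        lintegral_lintegral_swap hm2.aemeasurable
    _ = ∫⁻ x, κ x * LI χ f ∂(mu n) := by
        refine lintegral_congr fun x => ?_
        have h1 : ∫⁻ g, ENNReal.ofReal (χ g) * (κ x * f (g * x)) ∂(mu n) =
            κ x * LI χ (fun g => f (g * x)) := by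
          have h2 : Measurable fun g => ENNReal.ofReal (χ g) * f (g * x) :=
            h.meas.mul (hm.comp (measurable_mul_const x))
          unfold LI
          rw [← lintegral_const_mul _ h2]
          refine lintegral_congr fun g => ?_
          ring
        rw [h1, h.right hf hm x]
    _ = (∫⁻ x, κ x ∂(mu n)) * LI χ f := by
        rw [lintegral_mul_const _ hκ]

private theorem PuL.cm (h : PuL Γ χ) (a : ℝ≥0∞) {f : SUGroup n → ℝ≥0∞} (hf : Measurable f) :
    LI χ (fun g => a * f g) = a * LI χ f := by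
  have h2 : Measurable fun g => ENNReal.ofReal (χ g) * f g := h.meas.mul hf
  unfold LI
  rw [← lintegral_const_mul _ h2]
  refine lintegral_congr fun g => ?_
  ring

private theorem PuL.ad (h : PuL Γ χ) {f₁ : SUGroup n → ℝ≥0∞} (hf : Measurable f₁)
    (f₂ : SUGroup n → ℝ≥0∞) : LI χ (fun g => f₁ g + f₂ g) = LI χ f₁ + LI χ f₂ := by
  have h2 : Measurable fun g => ENNReal.ofReal (χ g) * f₁ g := h.meas.mul hf
  unfold LI
  rw [← lintegral_add_left h2]
  refine lintegral_congr fun g => ?_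
  rw [mul_add]

/-- Sets which are compact modulo `Γ` have finite volume. -/
private theorem PuL.fin (h : PuL Γ χ) {S F : Set (SUGroup n)} (hF : IsCompact F)
    (hS : ∀ g ∈ S, ∃ γ ∈ Γ, γ * g ∈ F) (hSm : MeasurableSet S)
    (hSi : ∀ γ ∈ Γ, ∀ g, γ * g ∈ S ↔ g ∈ S) : LI χ (S.indicator 1) < ⊤ := by
  have hFm : MeasurableSet F := hF.isClosed.measurableSet
  have hf : ∀ γ ∈ Γ, ∀ g, S.indicator (1 : SUGroup n → ℝ≥0∞) (γ * g) = S.indicator 1 g := by
    intro γ hγ g
    by_cases hg : g ∈ S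
    · rw [Set.indicator_of_mem hg, Set.indicator_of_mem ((hSi γ hγ g).2 hg)]
      rfl
    · rw [Set.indicator_of_notMem hg, Set.indicator_of_notMem fun h0 => hg ((hSi γ hγ g).1 h0)]
  have h1 := h.unf hf (measurable_one.indicator hSm) (φ := F.indicator 1)
    (measurable_one.indicator hFm)
  have h2 : LI χ (S.indicator 1) ≤
      LI χ fun g => (∑' γ : Γ, F.indicator (1 : SUGroup n → ℝ≥0∞) ((γ : SUGroup n) * g)) *
        S.indicator 1 g := by
    refine LI_mono fun g => ?_
    by_cases hg : g ∈ S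
    · obtain ⟨γ, hγ, hm⟩ := hS g hg
      rw [Set.indicator_of_mem hg, Pi.one_apply, mul_one]
      refine le_trans ?_ (ENNReal.le_tsum (⟨γ, hγ⟩ : Γ))
      show (1 : ℝ≥0∞) ≤ F.indicator 1 (γ * g)
      rw [Set.indicator_of_mem hm, Pi.one_apply]
    · rw [Set.indicator_of_notMem hg, mul_zero]
  refine lt_of_le_of_lt h2 ?_
  rw [← h1]
  calc ∫⁻ g, F.indicator (1 : SUGroup n → ℝ≥0∞) g * S.indicator 1 g ∂(mu n)
      ≤ ∫⁻ g, F.indicator (1 : SUGroup n → ℝ≥0∞) g ∂(mu n) := by
        refine lintegral_mono fun g => ?_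
        refine (mul_le_mul_right (b := S.indicator (1 : SUGroup n → ℝ≥0∞) g) (c := 1) ?_ _).trans
          (mul_one _).le
        exact Set.indicator_le_self' (fun _ _ => zero_le) g
    _ = (mu n) F := by rw [lintegral_indicator_one hFm]
    _ < ⊤ := hF.measure_lt_top

/-- **Finite covolume from a Lyapunov function.** -/
theorem lat_of_lyap_all (hn : 1 ≤ n) (hd : DiscreteTopology Γ) {V : SUGroup n → ℝ}
    (hc : Continuous V) (hinv : ∀ γ ∈ Γ, ∀ g, V (γ * g) = V g)
    (hcpt : ∀ R : ℝ, ∃ F : Set (SUGroup n), IsCompact F ∧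
      ∀ g, V g ≤ R → ∃ γ ∈ Γ, γ * g ∈ F)
    {r c R₀ : ℝ} (hr : 0 < r) (hr1 : r < 1) (hc0 : 0 < c)
    (h : ∀ g, R₀ ≤ V g → AA r V g ≤ V g - c) : ∃ χ : SUGroup n → ℝ, Lat Γ χ := by
  obtain ⟨χ, hχc, hχ0, hχs⟩ := exists_chi hd
  have P : PuL Γ χ := ⟨hd, hχc, hχ0, hχs⟩
  -- the core
  obtain ⟨F₀, hF₀, hcov₀⟩ := hcpt R₀
  obtain ⟨b, hb0, hb⟩ : ∃ b : ℝ, 0 ≤ b ∧ ∀ g, V g ≤ R₀ → AA r V g ≤ V g + b := by
    have hcont : Continuous fun g => AA r V g - V g := (continuous_AA hr hr1 hc).sub hc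
    obtain ⟨b, hb⟩ := (hF₀.image hcont).bddAbove
    refine ⟨max b 0, le_max_right _ _, fun g hg => ?_⟩
    obtain ⟨γ, hγ, hm⟩ := hcov₀ g hg
    have h1 := hb ⟨γ * g, hm, rfl⟩
    have h2 : AA r V (γ * g) = AA r V g := by
      rw [← AA_left]
      simp only [hinv γ hγ]
    simp only [h2, hinv γ hγ g] at h1
    linarith [le_max_left b 0]
  -- measurability
  have hVm : Measurable V := hc.measurable
  have hS0m : MeasurableSet {g | V g ≤ R₀} := measurableSet_le hVm measurable_const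
  have hfin : ∀ R : ℝ, LI χ ({g | V g ≤ R}.indicator 1) < ⊤ := by
    intro R
    obtain ⟨F, hF, hcov⟩ := hcpt R
    refine P.fin hF hcov (measurableSet_le hVm measurable_const) fun γ hγ g => ?_
    show V (γ * g) ≤ R ↔ V g ≤ R
    rw [hinv γ hγ g]
  have hcE : ENNReal.ofReal c ≠ 0 := (ENNReal.ofReal_pos.2 hc0).ne'
  -- the estimate for the truncations
  have key : ∀ M : ℝ, R₀ ≤ M →
      ENNReal.ofReal c * LI χ ({g | R₀ ≤ V g ∧ V g ≤ M}.indicator 1) ≤
        ENNReal.ofReal b * LI χ ({g | V g ≤ R₀}.indicator 1) := by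
    intro M hM
    obtain ⟨W, hW⟩ : ∃ W : SUGroup n → ℝ, W = fun g => max (M - V g) 0 := ⟨_, rfl⟩
    have hWc : Continuous W := by
      rw [hW]
      exact (continuous_const.sub hc).max continuous_const
    have hW0 : ∀ g, 0 ≤ W g := fun g => by
      rw [hW]
      exact le_max_right _ _
    have hWge : ∀ g, M - V g ≤ W g := fun g => by
      rw [hW]
      exact le_max_left _ _
    have hAW : ∀ g, M - AA r V g ≤ AA r W g := by
      intro g
      have h1 := AA_mono hr hr1 (u := fun x => M - V x) (continuous_const.sub hc) hWc (g := g)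
        fun x _ => hWge (g * x)
      rw [AA_sub hr hr1 continuous_const hc, AA_const hn hr hr1] at h1
      exact h1
    have hAW0 : ∀ g, 0 ≤ AA r W g := by
      intro g
      exact integral_nonneg fun x => mul_nonneg (bk_nonneg hr x) (hW0 _)
    have hpt : ∀ g, ENNReal.ofReal (W g) +
        ENNReal.ofReal c * {g | R₀ ≤ V g ∧ V g ≤ M}.indicator 1 g ≤
        ENNReal.ofReal (AA r W g) + ENNReal.ofReal b * {g | V g ≤ R₀}.indicator 1 g := by
      intro g
      rcases lt_or_ge (V g) R₀ with h1 | h1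
      · have e1 : g ∉ {g | R₀ ≤ V g ∧ V g ≤ M} := fun h0 => absurd h0.1 (not_le.2 h1)
        have e2 : g ∈ {g | V g ≤ R₀} := h1.le
        rw [Set.indicator_of_notMem e1, Set.indicator_of_mem e2, mul_zero, add_zero,
          Pi.one_apply, mul_one, ← ENNReal.ofReal_add (hAW0 g) hb0]
        refine ENNReal.ofReal_le_ofReal ?_
        have h2 : W g = M - V g := by
          rw [hW]
          exact max_eq_left (by linarith)
        linarith [hAW g, hb g h1.le]
      · rcases le_or_gt (V g) M with h3 | h3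
        · have e1 : g ∈ {g | R₀ ≤ V g ∧ V g ≤ M} := ⟨h1, h3⟩
          rw [Set.indicator_of_mem e1, Pi.one_apply, mul_one, ← ENNReal.ofReal_add (hW0 g) hc0.le]
          refine le_trans (ENNReal.ofReal_le_ofReal ?_) le_self_add
          have h2 : W g = M - V g := by
            rw [hW]
            exact max_eq_left (by linarith)
          linarith [hAW g, h g h1]
        · have e1 : g ∉ {g | R₀ ≤ V g ∧ V g ≤ M} := fun h0 => absurd h0.2 (not_le.2 h3)
          have h2 : W g = 0 := by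
            rw [hW]
            exact max_eq_right (by linarith)
          rw [Set.indicator_of_notMem e1, mul_zero, add_zero, h2, ENNReal.ofReal_zero]
          exact zero_le
    -- integrate
    have hWi : ∀ γ ∈ Γ, ∀ g, ENNReal.ofReal (W (γ * g)) = ENNReal.ofReal (W g) := by
      intro γ hγ g
      rw [hW]
      simp only [hinv γ hγ g]
    have hWfin : LI χ (fun g => ENNReal.ofReal (W g)) < ⊤ := by
      obtain ⟨F, hF, hcov⟩ := hcpt M
      obtain ⟨B, hB⟩ := (hF.image hWc).bddAbove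
      have h1 : ∀ g, ENNReal.ofReal (W g) ≤ ENNReal.ofReal B * {g | V g ≤ M}.indicator 1 g := by
        intro g
        rcases le_or_gt (V g) M with h3 | h3
        · have e1 : g ∈ {g | V g ≤ M} := h3
          rw [Set.indicator_of_mem e1, Pi.one_apply, mul_one]
          obtain ⟨γ, hγ, hm⟩ := hcov g h3
          have h4 := hB ⟨γ * g, hm, rfl⟩
          rw [← hWi γ hγ g]
          exact ENNReal.ofReal_le_ofReal h4
        · have h2 : W g = 0 := by
            rw [hW]
            exact max_eq_right (by linarith)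
          rw [h2, ENNReal.ofReal_zero]
          exact zero_le
      refine lt_of_le_of_lt (LI_mono h1) ?_
      rw [P.cm _ (measurable_one.indicator (measurableSet_le hVm measurable_const))]
      exact ENNReal.mul_lt_top ENNReal.ofReal_lt_top (hfin M)
    have hAWi : LI χ (fun g => ENNReal.ofReal (AA r W g)) =
        LI χ (fun g => ENNReal.ofReal (W g)) := by
      have h1 : ∀ g, ENNReal.ofReal (AA r W g) =
          ∫⁻ x, ENNReal.ofReal (bk r x) * ENNReal.ofReal (W (g * x)) ∂(mu n) := by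
        intro g
        unfold AA
        rw [ofReal_integral_eq_lintegral_ofReal (integrable_AA hr hr1 hWc g)
          (Eventually.of_forall fun x => mul_nonneg (bk_nonneg hr x) (hW0 _))]
        refine lintegral_congr fun x => ?_
        rw [ENNReal.ofReal_mul (bk_nonneg hr x)]
      simp only [h1]
      rw [P.avg hWi hWc.measurable.ennreal_ofReal (continuous_bk r).measurable.ennreal_ofReal,
        ← ofReal_integral_eq_lintegral_ofReal (integrable_bk hr hr1)
          (Eventually.of_forall fun x => bk_nonneg hr x), integral_bk hn hr hr1,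
        ENNReal.ofReal_one, one_mul]
    have h1 := LI_mono (χ := χ) hpt
    have hS1m : MeasurableSet {g | R₀ ≤ V g ∧ V g ≤ M} :=
      (measurableSet_le measurable_const hVm).inter (measurableSet_le hVm measurable_const)
    rw [P.ad hWc.measurable.ennreal_ofReal,
      P.ad (continuous_AA hr hr1 hWc).measurable.ennreal_ofReal, hAWi,
      P.cm _ (measurable_one.indicator hS1m), P.cm _ (measurable_one.indicator hS0m)] at h1
    exact (ENNReal.add_le_add_iff_left hWfin.ne).1 h1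
  -- the measure with density `χ`
  obtain ⟨ν, hν⟩ : ∃ ν : Measure (SUGroup n), ν = (mu n).withDensity fun g => ENNReal.ofReal (χ g) :=
    ⟨_, rfl⟩
  have hνS : ∀ S : Set (SUGroup n), MeasurableSet S → ν S = LI χ (S.indicator 1) := by
    intro S hS
    rw [hν, withDensity_apply _ hS, ← lintegral_indicator hS]
    unfold LI
    refine lintegral_congr fun g => ?_
    by_cases hg : g ∈ S
    · rw [Set.indicator_of_mem hg, Set.indicator_of_mem hg, Pi.one_apply, mul_one]
    · rw [Set.indicator_of_notMem hg, Set.indicator_of_notMem hg, mul_zero]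
  obtain ⟨B, hB⟩ : ∃ B : ℝ≥0∞, B = ENNReal.ofReal b * LI χ ({g | V g ≤ R₀}.indicator 1) /
    ENNReal.ofReal c := ⟨_, rfl⟩
  have hBt : B < ⊤ := by
    rw [hB]
    exact ENNReal.div_lt_top (ENNReal.mul_lt_top ENNReal.ofReal_lt_top (hfin R₀)).ne hcE
  have hbig : ∀ k : ℕ, ν {g | R₀ ≤ V g ∧ V g ≤ R₀ + k} ≤ B := by
    intro k
    have hm : MeasurableSet {g | R₀ ≤ V g ∧ V g ≤ R₀ + k} :=
      (measurableSet_le measurable_const hVm).inter (measurableSet_le hVm measurable_const)
    rw [hνS _ hm, hB, ENNReal.le_div_iff_mul_le (Or.inl hcE) (Or.inl ENNReal.ofReal_ne_top),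
      mul_comm]
    exact key _ (by linarith [Nat.cast_nonneg (α := ℝ) k])
  have hmono : Monotone fun k : ℕ => {g | R₀ ≤ V g ∧ V g ≤ R₀ + k} := by
    intro i j hij g hg
    refine ⟨hg.1, hg.2.trans ?_⟩
    have : (i : ℝ) ≤ j := Nat.cast_le.2 hij
    linarith
  have hU : ν (⋃ k : ℕ, {g | R₀ ≤ V g ∧ V g ≤ R₀ + k}) ≤ B := by
    rw [hmono.measure_iUnion]
    exact iSup_le hbig
  have huniv : ν Set.univ < ⊤ := by
    have hsub : (Set.univ : Set (SUGroup n)) ⊆
        {g | V g ≤ R₀} ∪ ⋃ k : ℕ, {g | R₀ ≤ V g ∧ V g ≤ R₀ + k} := by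
      intro g _
      rcases le_or_gt (V g) R₀ with h1 | h1
      · exact Or.inl h1
      · obtain ⟨k, hk⟩ := exists_nat_ge (V g - R₀)
        exact Or.inr (Set.mem_iUnion.2 ⟨k, h1.le, by linarith⟩)
    refine lt_of_le_of_lt ((measure_mono hsub).trans (measure_union_le _ _)) ?_
    rw [hνS _ hS0m]
    exact ENNReal.add_lt_top.2 ⟨hfin R₀, hU.trans_lt hBt⟩
  refine ⟨χ, hd, hχc, hχ0, hχs, hχc.aestronglyMeasurable, ?_⟩
  rw [hasFiniteIntegral_iff_ofReal (Eventually.of_forall fun g => (hχ0 g).le)]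
  rw [hν, withDensity_apply _ MeasurableSet.univ, Measure.restrict_univ] at huniv
  exact huniv

end Pool.Agent.Lib.MP_5d4057_al.GX
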