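import Pool.Agent.Lib.MP_5d4057_al.GX.Inter
import Pool.Agent.Lib.MP_5d4057_al.GX.LyapB
import Pool.Agent.Lib.MP_5d4057_al.GX.LogY
import Pool.Agent.Lib.MP_5d4057_al.GX.Frm
import Pool.Agent.Lib.MP_5d4057_al.NU.ThmL
import Pool.Agent.Lib.MP_5d4057_al.NU.LatC
import Pool.Agent.Lib.MP_5d4057_al.NU.CutN
import Pool.Agent.Lib.MP_5d4057_al.RC.Slice
import Pool.Agent.Lib.MP_5d4057_al.HM.CutB

/-!
# GX 5: the common subgroup of the two pieces is a lattice
-/

namespace Pool.Agent.Lib.MP_5d4057_al.GX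

open MeasureTheory hiding extend
open Matrix Filter Topology Pool.Agent.Lib.MP_5d4057_al
  Pool.Agent.Lib.MP_5d4057_al.Hyb Pool.Agent.Lib.MP_5d4057_al.HM
  Pool.Agent.Lib.MP_5d4057_al.NU Pool.Agent.Lib.MP_5d4057_al.IN

variable {k : ℕ}

/-- The common subgroup of the two pieces (in adapted frames). -/
def common (Γ : Fin 2 → Subgroup (SUGroup (k + 1))) : Subgroup (SUGroup k) :=
  (Γ 0).comap (extend k) ⊓ (Γ 1).comap (extend k)

/-- PROOF: `y`, `Lat` of the hybrid from `exists_data` (only the compactness `Ht.cpt` is used). For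
`x ∈ SU(k,1)` with `y (g 0 (1 ⊕ 1 ⊕ x) e) ≤ R` there is `γ` in the hybrid with `γ g_0 (1 ⊕ 1 ⊕ x)` in a
compact set, so `γ emb (g b) (extend k x)` is in a compact set for `b = 0, 1` (`agree_of_frame`);
`piece_cover` for `Γ b` (`exists_lat`, `continuous_emb`, `emb_injective`) gives `δ_b ∈ Γ b` with
`δ_b (extend k x)` in a compact set; `inter_cover` in `SU(k+2,1)` for the images `(Γ b).map (emb (g b))`;
`mem_both`; the map `x ↦ g 0 (1 ⊕ 1 ⊕ x) (g 0)⁻¹` is a closed embedding (or: bounded `ch`), so the preimage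
of a compact set is compact. -/
theorem common_cover {Γ : Fin 2 → Subgroup (SUGroup (k + 1))} {g : Fin 2 → SUGroup (k + 2)}
    (hL : ∀ b, IsLattice (Γ b)) (hlat : IsLattice (hybrid Γ g)) {y : Vec (k + 2) → ℝ}
    (hy : Ht (hybrid Γ g) 64 y) {X : Matrix (Fin 2) (Fin 2) ℂ} (hX : Xᴴ * X = 1)
    (h01 : X 0 1 ≠ 0)
    (hg : (g 1).toMatrix = (g 0).toMatrix * bsum X 1) (R : ℝ) :
    ∃ E : Set (SUGroup k), IsCompact E ∧ ∀ x : SUGroup k,
      y (act (g 0 * extend (k + 1) (extend k x)) (base (k + 2))) ≤ R →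
        ∃ δ ∈ common Γ, δ * x ∈ E := by
  obtain ⟨F, hF, hFc⟩ := hy.cpt R
  have hd : DiscreteTopology (hybrid Γ g) := hlat.1
  obtain ⟨F', hF'⟩ : ∃ F' : Set (SUGroup (k + 2)), F' = (fun z => z * (g 0)⁻¹) '' F := ⟨_, rfl⟩
  have hF'c : IsCompact F' := by
    rw [hF']
    exact hF.image (continuous_mul_const _)
  have hpc : ∀ b : Fin 2, ∃ C : Set (SUGroup (k + 1)), IsCompact C ∧ ∀ x : SUGroup (k + 1),
      (∃ γ ∈ hybrid Γ g, γ * emb (g b) x ∈ F') → ∃ δ ∈ Γ b, δ * x ∈ C := by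
    intro b
    obtain ⟨χ, hχ⟩ := exists_lat (hL b)
    exact piece_cover hd hχ (emb (g b)) (continuous_emb (g b)) (emb_injective (g b))
      (fun δ hδ => Subgroup.subset_closure ⟨b, δ, hδ, rfl⟩) hF'c
  have hag : ∀ x : SUGroup k, emb (g 0) (extend k x) = emb (g 1) (extend k x) := fun x =>
    agree_of_frame hg x
  obtain ⟨C0, hC0, hc0⟩ := hpc 0
  obtain ⟨C1, hC1, hc1⟩ := hpc 1
  obtain ⟨A, hA⟩ : ∃ A : Set (SUGroup (k + 2)), A = {z | ∃ x : SUGroup k,
      y (act (g 0 * extend (k + 1) (extend k x)) (base (k + 2))) ≤ R ∧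
      z = emb (g 0) (extend k x)} := ⟨_, rfl⟩
  have hmem : ∀ x : SUGroup k, y (act (g 0 * extend (k + 1) (extend k x)) (base (k + 2))) ≤ R →
      ∃ γ ∈ hybrid Γ g, γ * emb (g 0) (extend k x) ∈ F' := by
    intro x hx
    obtain ⟨γ, hγ, h⟩ := hFc _ hx
    refine ⟨γ, hγ, ?_⟩
    rw [hF']
    refine ⟨_, h, ?_⟩
    rw [emb_apply]
    group
  have hle : ∀ b : Fin 2, (Γ b).map (emb (g b)) ≤ hybrid Γ g := by
    intro b
    rintro _ ⟨γ, hγ, rfl⟩
    exact Subgroup.subset_closure ⟨b, γ, hγ, rfl⟩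
  obtain ⟨C, hC, hCc⟩ := inter_cover hd (hle 0) (hle 1) (A := A)
    (hC0.image (continuous_emb (g 0))) (hC1.image (continuous_emb (g 1)))
    (by
      intro z hz
      rw [hA] at hz
      obtain ⟨x, hx, rfl⟩ := hz
      obtain ⟨δ, hδ, h⟩ := hc0 (extend k x) (hmem x hx)
      exact ⟨emb (g 0) δ, ⟨δ, hδ, rfl⟩, ⟨_, h, map_mul _ _ _⟩⟩)
    (by
      intro z hz
      rw [hA] at hz
      obtain ⟨x, hx, rfl⟩ := hz
      obtain ⟨δ, hδ, h⟩ := hc1 (extend k x) (by
        rw [← hag]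
        exact hmem x hx)
      refine ⟨emb (g 1) δ, ⟨δ, hδ, rfl⟩, ⟨_, h, ?_⟩⟩
      rw [hag, map_mul])
  obtain ⟨T, hT⟩ : ∃ T : ℝ, ∀ z ∈ C, ch ((g 0)⁻¹ * z * g 0) ≤ T := by
    obtain ⟨T, hT⟩ := (hC.image (continuous_ch.comp
      ((continuous_const.mul continuous_id).mul continuous_const :
        Continuous fun z : SUGroup (k + 2) => (g 0)⁻¹ * z * g 0))).bddAbove
    exact ⟨T, fun z hz => hT ⟨z, hz, rfl⟩⟩
  refine ⟨{x | ch x ≤ T}, isCompact_ball T, fun x hx => ?_⟩
  obtain ⟨δ, hδ, h⟩ := hCc (emb (g 0) (extend k x)) (by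
    rw [hA]
    exact ⟨x, hx, rfl⟩)
  obtain ⟨d, hd0, hd1, rfl⟩ := mem_both hX h01 hg hδ.1 hδ.2
  refine ⟨d, ⟨hd0, hd1⟩, ?_⟩
  have h2 := hT _ h
  have h3 : (g 0)⁻¹ * (g 0 * extend (k + 1) (extend k d) * (g 0)⁻¹ * emb (g 0) (extend k x)) *
      g 0 = extend (k + 1) (extend k (d * x)) := by
    rw [emb_apply, map_mul, map_mul]
    group
  rw [h3, RC.ch_extend, RC.ch_extend] at h2
  exact h2

/-- **The common subgroup is a lattice.** PROOF: discrete because `extend k` is a closed embedding;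
`lat_of_lyap` with `V x = log y (g 0 (1 ⊕ 1 ⊕ x) e)`, `r = 1/2`, `R = log 64`, `lyap_log_y`, `dfc_pos`,
`common_cover` with `R = 64`. -/
theorem isLattice_common (hk : 1 ≤ k) {Γ : Fin 2 → Subgroup (SUGroup (k + 1))}
    {g : Fin 2 → SUGroup (k + 2)} (hL : ∀ b, IsLattice (Γ b)) (hlat : IsLattice (hybrid Γ g))
    (hf : FGG (hybrid Γ g)) {X : Matrix (Fin 2) (Fin 2) ℂ} (hX : Xᴴ * X = 1) (h01 : X 0 1 ≠ 0)
    (hg : (g 1).toMatrix = (g 0).toMatrix * bsum X 1) : IsLattice (common Γ) := by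
  obtain ⟨χ, y, N, C, h1, hy, h3⟩ := exists_data (by omega) hlat hf (RingEquiv.refl ℂ)
  have hd0 : DiscreteTopology (Γ 0) := (hL 0).1
  have hd : DiscreteTopology (common Γ) := by
    refine DiscreteTopology.of_continuous_injective
      (f := fun x : common Γ => (⟨extend k x, x.2.1⟩ : Γ 0)) ?_ ?_
    · exact Continuous.subtype_mk ((continuous_extend k).comp continuous_subtype_val) _
    · intro x y hxy
      exact Subtype.ext (extend_injective k (congrArg Subtype.val hxy))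
  have hpos : ∀ x : SUGroup k,
      0 < y (act (g 0 * extend (k + 1) (extend k x)) (base (k + 2))) := fun x =>
    hy.pos (orbit_mem _)
  obtain ⟨χ', hχ'⟩ := lat_of_lyap_all (n := k) (Γ := common Γ) hk hd
    (V := fun x => Real.log (y (act (g 0 * extend (k + 1) (extend k x)) (base (k + 2)))))
    (r := 1 / 2) (c := dfc k (1 / 2)) (R₀ := Real.log 64 + 1)
    (by
      have hc : Continuous fun x : SUGroup k =>
          y (act (g 0 * extend (k + 1) (extend k x)) (base (k + 2))) := by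
        refine hy.cont_c.comp_continuous ?_ fun x => orbit_mem _
        exact (continuous_actv (base (k + 2))).comp (continuous_const.mul
          ((continuous_extend (k + 1)).comp (continuous_extend k)))
      exact hc.log fun x => (hpos x).ne')
    (by
      intro δ hδ x
      have h4 : g 0 * extend (k + 1) (extend k (δ * x)) =
          g 0 * extend (k + 1) (extend k δ) * (g 0)⁻¹ *
            (g 0 * extend (k + 1) (extend k x)) := by
        rw [map_mul, map_mul]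
        group
      show Real.log (y (act (g 0 * extend (k + 1) (extend k (δ * x))) (base (k + 2)))) =
        Real.log (y (act (g 0 * extend (k + 1) (extend k x)) (base (k + 2))))
      rw [h4, act_mul, hy.inv _ (Subgroup.subset_closure ⟨0, extend k δ, hδ.1, rfl⟩) _
        (orbit_mem _)])
    (by
      intro R
      obtain ⟨E, hE, hcov⟩ := common_cover hL hlat hy hX h01 hg (Real.exp R)
      refine ⟨E, hE, fun x hx => hcov x ?_⟩
      rw [← Real.exp_log (hpos x)]
      exact Real.exp_le_exp.2 hx)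
    (by norm_num) (by norm_num) (dfc_pos hk (by norm_num) (by norm_num))
    (by
      intro x hx
      exact lyap_log_y hk hy (g 0) x (by
        have h5 : Real.log 64 + 1 ≤
          Real.log (y (act (g 0 * extend (k + 1) (extend k x)) (base (k + 2)))) := hx
        linarith))
  exact hχ'.isLattice

end Pool.Agent.Lib.MP_5d4057_al.GX
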