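import Pool.Agent.Lib.MP_5d4057_al.GX.Delta
import Pool.Agent.Lib.MP_5d4057_al.GX.Pos
import Pool.Agent.Lib.MP_5d4057_al.RC.Fgg

/-!
# GX 9: hybrids with arbitrary common group and arbitrary embeddings
-/

namespace Pool.Agent.Lib.MP_5d4057_al.GX

open Matrix Pool.Agent.Lib.MP_5d4057_al Pool.Agent.Lib.MP_5d4057_al.Hyb
  Pool.Agent.Lib.MP_5d4057_al.HM Pool.Agent.Lib.MP_5d4057_al.NU

/-- The theorem on hybrids with standard embeddings (REC + INT) as a proposition. -/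
def HybAll : Prop := ∀ (k : ℕ), 1 ≤ k → ∀ (Γ₃ : Subgroup (SUGroup k))
  (Γ : Fin 2 → Subgroup (SUGroup (k + 1))) (g : Fin 2 → SUGroup (k + 2)),
  IsLattice Γ₃ → (∀ b, IsLattice (Γ b)) → (∀ b, IsArith (k + 1) (Γ b)) →
  (∀ b, ∀ γ ∈ Γ₃, extend k γ ∈ Γ b) →
  (∀ γ ∈ Γ₃, g 0 * extend (k + 1) (extend k γ) * (g 0)⁻¹ =
    g 1 * extend (k + 1) (extend k γ) * (g 1)⁻¹) →
  IsLattice (hybrid Γ g) → IsArith (k + 2) (hybrid Γ g)

/-- If `X 0 1 = 0` then the normal vectors are proportional. -/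
theorem prop_of_zero {k : ℕ} {g0 g1 : SUGroup (k + 2)} {X : Matrix (Fin 2) (Fin 2) ℂ}
    (hX : Xᴴ * X = 1) (h0 : X 0 1 = 0) (hg : g1.toMatrix = g0.toMatrix * bsum X 1) :
    act g1 (e0 (k + 1)) = X 0 0 • act g0 (e0 (k + 1)) := by
  have h1 : X * Xᴴ = 1 := mul_eq_one_comm.1 hX
  have h2 := congrFun (congrFun h1 0) 0
  have h3 := congrFun (congrFun hX 0) 0
  rw [Matrix.mul_apply, Fin.sum_univ_two, conjTranspose_apply, conjTranspose_apply, h0] at h2
  rw [Matrix.mul_apply, Fin.sum_univ_two, conjTranspose_apply, conjTranspose_apply] at h3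
  have h4 : star (X 1 0) * X 1 0 = 0 := by
    have h5 : star (X 0 0) * X 0 0 = 1 := by
      rw [mul_comm]
      simpa using h2
    rw [h5, one_apply_eq] at h3
    simpa using h3
  have h10 : X 1 0 = 0 := by
    rcases mul_eq_zero.1 h4 with h | h
    · exact star_eq_zero.1 h
    · exact h
  have h6 : (e0 (k + 1) : Vec (k + 2)) = Fin.cons 1 (Fin.cons 0 0) := by
    rw [e0_eq_cons]
    congr 1
    funext i
    refine Fin.cases ?_ (fun i => ?_) i <;> rfl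
  have h7 : bsum X (1 : Matrix (Fin (k + 1)) (Fin (k + 1)) ℂ) *ᵥ (e0 (k + 1) : Vec (k + 2)) =
      X 0 0 • (e0 (k + 1) : Vec (k + 2)) := by
    rw [h6, bsum_mulVec_cons, h10]
    funext i
    refine Fin.cases ?_ (fun i => ?_) i
    · simp
    · refine Fin.cases ?_ (fun i => ?_) i
      · simp
      · simp
  rw [act, act, hg, ← mulVec_mulVec, h7, mulVec_smul]

/-- **Arbitrary embeddings.** PROOF: `j γ = emb (g 0) (ι 0 γ)`; `herm_lt_one` (FGG of the hybrid: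
`fgg_hybrid`, `RC.fgg_of_isArith`); `exists_frames`; `Γ' b = cj (u b) (Γ b)`, `g' b = g b * extend _ (u b)`;
`hybrid_cj`, `isLattice_cj`, `isArith_cj`; `isLattice_common`; `agree_of_frame`; `H`. -/
theorem hybrid_gen (H : HybAll) (k : ℕ) (hk : 1 ≤ k) (Γ₃ : Subgroup (SUGroup k))
    (Γ : Fin 2 → Subgroup (SUGroup (k + 1))) (g : Fin 2 → SUGroup (k + 2))
    (h₃ : IsLattice Γ₃) (hL : ∀ b, IsLattice (Γ b)) (hA : ∀ b, IsArith (k + 1) (Γ b))
    (ι : ∀ b, Γ₃ →* Γ b) (hι : ∀ b, Function.Injective (ι b))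
    (hagree : ∀ γ, g 0 * extend (k + 1) (ι 0 γ : SUGroup (k + 1)) * (g 0)⁻¹ =
      g 1 * extend (k + 1) (ι 1 γ : SUGroup (k + 1)) * (g 1)⁻¹)
    (hlat : IsLattice (hybrid Γ g)) : IsArith (k + 2) (hybrid Γ g) := by
  have hf : FGG (hybrid Γ g) := fgg_hybrid (fun b => RC.fgg_of_isArith (hA b)) g
  obtain ⟨j, hj⟩ : ∃ j : Γ₃ →* SUGroup (k + 2),
      j = (emb (g 0)).comp ((Γ 0).subtype.comp (ι 0)) := ⟨_, rfl⟩
  have hj' : ∀ γ, j γ = g 0 * extend (k + 1) (ι 0 γ : SUGroup (k + 1)) * (g 0)⁻¹ := fun γ => by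
    rw [hj]
    rfl
  have hlt := herm_lt_one hk h₃ hlat hf j (by
      rw [hj]
      exact (emb_injective (g 0)).comp ((Γ 0).subtype_injective.comp (hι 0)))
    (fun γ => ⟨ι 0 γ, (ι 0 γ).2, by rw [hj']; rfl⟩)
    (fun γ => ⟨ι 1 γ, (ι 1 γ).2, by rw [hj', hagree]; rfl⟩)
  obtain ⟨u, X, hX, hg⟩ := exists_frames g hlt
  have e := hybrid_cj Γ g u
  have hlat' : IsLattice (hybrid (fun b => cj (u b) (Γ b)) fun b => g b * extend (k + 1) (u b)) := by
    rw [e]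
    exact hlat
  have hf' : FGG (hybrid (fun b => cj (u b) (Γ b)) fun b => g b * extend (k + 1) (u b)) := by
    rw [e]
    exact hf
  have h01 : X 0 1 ≠ 0 := by
    intro h0
    refine not_prop hlat' (X 0 0) ?_
    exact prop_of_zero hX h0 hg
  have h1 := H k hk (common fun b => cj (u b) (Γ b)) (fun b => cj (u b) (Γ b))
    (fun b => g b * extend (k + 1) (u b))
    (isLattice_common hk (fun b => isLattice_cj (u b) (hL b)) hlat' hf' hX h01 hg)
    (fun b => isLattice_cj (u b) (hL b)) (fun b => isArith_cj (u b) (hA b))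
    (fun b γ hγ => by
      fin_cases b
      · exact hγ.1
      · exact hγ.2)
    (fun γ _ => agree_of_frame (g := fun b => g b * extend (k + 1) (u b)) hg γ) hlat'
  rw [e] at h1
  exact h1

end Pool.Agent.Lib.MP_5d4057_al.GX
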