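import Pool.Agent.Lib.MP_5d4057_al.NU.LatC
import Pool.Agent.Lib.MP_5d4057_al.HM.Kak

/-!
# GX 7a: elements fixing a negative vector
-/

namespace Pool.Agent.Lib.MP_5d4057_al.GX

open MeasureTheory hiding extend
open Matrix Filter Topology Pool.Agent.Lib.MP_5d4057_al
  Pool.Agent.Lib.MP_5d4057_al.Hyb Pool.Agent.Lib.MP_5d4057_al.HM
  Pool.Agent.Lib.MP_5d4057_al.NU

variable {n : ℕ} {Γ : Subgroup (SUGroup n)}

/-- PROOF: all powers are in a compact set (`v = act g (base n)` up to a scalar, `ch (g⁻¹ γ^j g) = 1`), the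
group is discrete, so two powers are equal. -/
theorem fin_of_fix_neg (hd : DiscreteTopology Γ) {γ : SUGroup n} (hγ : γ ∈ Γ) {v : Vec n}
    (hv : v ∈ Cone n) (h : act γ v = v) : IsOfFinOrder γ := by
  obtain ⟨g, c0, hc0, rfl⟩ := exists_act_eq hv
  have h1 : act γ (act g (base n)) = act g (base n) := by
    have h' := h
    rw [act_smul] at h'
    exact smul_right_injective _ hc0 h'
  obtain ⟨x, hx⟩ : ∃ x, x = g⁻¹ * γ * g := ⟨_, rfl⟩
  have h2 : act x (base n) = base n := by
    rw [hx, act_mul, act_mul, h1, ← act_mul, inv_mul_cancel, act_one]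
  have h3 : ∀ k : ℕ, act (x ^ k) (base n) = base n := by
    intro k
    induction k with
    | zero => rw [pow_zero, act_one]
    | succ k ih => rw [pow_succ', act_mul, ih, h2]
  have h6 : ∀ k : ℕ, ch (x ^ k) ≤ 1 := by
    intro k
    have h' : (x ^ k).toMatrix (Fin.last n) (Fin.last n) = act (x ^ k) (base n) (Fin.last n) := by
      rw [act, base, mulVec_single_one]
      rfl
    rw [ch, h', h3, base, Pi.single_eq_same, norm_one]
  -- the powers lie in a finite set
  have h7 : IsCompact ((fun y : SUGroup n => g * y * g⁻¹) '' {y | ch y ≤ 1}) :=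
    (isCompact_ball 1).image (by fun_prop)
  have hcl : IsClosed (Γ : Set (SUGroup n)) := Subgroup.isClosed_of_discrete
  have h8 : ((Γ : Set (SUGroup n)) ∩
      ((fun y : SUGroup n => g * y * g⁻¹) '' {y | ch y ≤ 1})).Finite := by
    refine (h7.inter_left hcl).finite ?_
    exact ⟨DiscreteTopology.of_subset hd Set.inter_subset_left⟩
  have h9 : ∀ k : ℕ, γ ^ k ∈ (Γ : Set (SUGroup n)) ∩
      ((fun y : SUGroup n => g * y * g⁻¹) '' {y | ch y ≤ 1}) := by
    intro k
    refine ⟨Γ.pow_mem hγ k, x ^ k, h6 k, ?_⟩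
    have h' : x ^ k = g⁻¹ * γ ^ k * g := by
      rw [hx]
      have e := conj_pow (i := k) (a := g⁻¹) (b := γ)
      rwa [inv_inv] at e
    show g * x ^ k * g⁻¹ = γ ^ k
    rw [h']
    group
  obtain ⟨a, -, b, -, hab, he⟩ := Set.infinite_univ.exists_ne_map_eq_of_mapsTo
    (f := fun k : ℕ => γ ^ k) (fun k _ => h9 k) h8
  have key : ∀ a b : ℕ, a < b → γ ^ a = γ ^ b → IsOfFinOrder γ := by
    intro a b hab he
    rw [isOfFinOrder_iff_pow_eq_one]
    refine ⟨b - a, by omega, ?_⟩
    rw [pow_sub _ hab.le, ← he, mul_inv_cancel]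
  rcases lt_or_gt_of_ne hab with h' | h'
  · exact key a b h' he
  · exact key b a h' he.symm

end Pool.Agent.Lib.MP_5d4057_al.GX
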