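import Pool.Agent.Lib.MP_5d4057_al.NU.LatC

/-!
# GX 1: the intersection of two subgroups of a discrete group (covering lemmas)

Project GEN: in the theorem on hybrids the group `Γ₃` and the two embeddings `Γ₃ → Γ b` are arbitrary.
-/

namespace Pool.Agent.Lib.MP_5d4057_al.GX

open Matrix MeasureTheory Filter Topology Pool.Agent.Lib.MP_5d4057_al Pool.Agent.Lib.MP_5d4057_al.HM
  Pool.Agent.Lib.MP_5d4057_al.NU

/-- If `A ⊆ Γ₀ C₀` and `A ⊆ Γ₁ C₁` with compact sets `C₀`, `C₁` and `Γ₀`, `Γ₁` are contained in a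
discrete group, then `A ⊆ (Γ₀ ∩ Γ₁) C` with `C` compact. PROOF: for `x ∈ A` let `γ₀ x = c₀`,
`γ₁ x = c₁`; then `φ = γ₁ γ₀⁻¹ = c₁ c₀⁻¹` is in the finite set `Γ ∩ C₁ C₀⁻¹`
(`Subgroup.isClosed_of_discrete`, as in `NU.finite_disc`). For each `φ` of this set for which there is an
element `a φ ∈ Γ₀` with `φ * a φ ∈ Γ₁` choose one. Then `δ = (a φ)⁻¹ γ₀` is in `Γ₀`, and it is
`(φ a φ)⁻¹ (φ γ₀) = (φ a φ)⁻¹ γ₁ ∈ Γ₁`, and `δ x = (a φ)⁻¹ c₀`. So `C` is the finite union of the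
`(a φ)⁻¹ C₀`. -/
theorem inter_cover {G : Type} [Group G] [TopologicalSpace G] [IsTopologicalGroup G] [T2Space G]
    {Γ Γ₀ Γ₁ : Subgroup G} (hd : DiscreteTopology Γ) (h0 : Γ₀ ≤ Γ) (h1 : Γ₁ ≤ Γ)
    {A C₀ C₁ : Set G} (hC₀ : IsCompact C₀) (hC₁ : IsCompact C₁)
    (hA₀ : ∀ x ∈ A, ∃ γ ∈ Γ₀, γ * x ∈ C₀) (hA₁ : ∀ x ∈ A, ∃ γ ∈ Γ₁, γ * x ∈ C₁) :
    ∃ C : Set G, IsCompact C ∧ ∀ x ∈ A, ∃ δ ∈ Γ₀ ⊓ Γ₁, δ * x ∈ C := by
  classical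
  have hcl : IsClosed (Γ : Set G) := Subgroup.isClosed_of_discrete
  have hce : IsClosedEmbedding (Subtype.val : Γ → G) := hcl.isClosedEmbedding_subtypeVal
  obtain ⟨Q, hQ⟩ : ∃ Q : Set G, Q = (fun p : G × G => p.1 * p.2⁻¹) '' (C₁ ×ˢ C₀) := ⟨_, rfl⟩
  have hQc : IsCompact Q := by
    rw [hQ]
    exact (hC₁.prod hC₀).image (continuous_fst.mul continuous_snd.inv)
  have hfin : (Subtype.val ⁻¹' Q : Set Γ).Finite :=
    (hce.isCompact_preimage hQc).finite_of_discrete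
  have hch : ∀ φ : Γ, ∃ a : G, a ∈ Γ₀ ∧ ((∃ b ∈ Γ₀, (φ : G) * b ∈ Γ₁) → (φ : G) * a ∈ Γ₁) := by
    intro φ
    by_cases h : ∃ b ∈ Γ₀, (φ : G) * b ∈ Γ₁
    · obtain ⟨b, hb, hb'⟩ := h
      exact ⟨b, hb, fun _ => hb'⟩
    · exact ⟨1, Γ₀.one_mem, fun h' => absurd h' h⟩
  choose a ha ha' using hch
  refine ⟨⋃ φ ∈ (Subtype.val ⁻¹' Q : Set Γ), (fun x => (a φ)⁻¹ * x) '' C₀, ?_, ?_⟩
  · exact hfin.isCompact_biUnion fun φ _ => hC₀.image (continuous_const_mul _)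
  · intro x hx
    obtain ⟨γ₀, hγ₀, hc₀⟩ := hA₀ x hx
    obtain ⟨γ₁, hγ₁, hc₁⟩ := hA₁ x hx
    have hφ : γ₁ * γ₀⁻¹ ∈ Γ := Γ.mul_mem (h1 hγ₁) (Γ.inv_mem (h0 hγ₀))
    have hφQ : γ₁ * γ₀⁻¹ ∈ Q := by
      rw [hQ]
      refine ⟨(γ₁ * x, γ₀ * x), ⟨hc₁, hc₀⟩, ?_⟩
      show γ₁ * x * (γ₀ * x)⁻¹ = γ₁ * γ₀⁻¹
      group
    obtain ⟨φ, hφd⟩ : ∃ φ : Γ, φ = ⟨γ₁ * γ₀⁻¹, hφ⟩ := ⟨_, rfl⟩
    have hφv : (φ : G) = γ₁ * γ₀⁻¹ := by rw [hφd]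
    have hex : ∃ b ∈ Γ₀, (φ : G) * b ∈ Γ₁ := by
      refine ⟨γ₀, hγ₀, ?_⟩
      rw [hφv, inv_mul_cancel_right]
      exact hγ₁
    have h2 := ha φ
    have h3 := ha' φ hex
    refine ⟨(a φ)⁻¹ * γ₀, ⟨Γ₀.mul_mem (Γ₀.inv_mem h2) hγ₀, ?_⟩, ?_⟩
    · have e : (a φ)⁻¹ * γ₀ = ((φ : G) * a φ)⁻¹ * γ₁ := by
        rw [_root_.mul_inv_rev, _root_.mul_assoc, hφv]
        congr 1
        group
      show (a φ)⁻¹ * γ₀ ∈ Γ₁
      rw [e]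
      exact Γ₁.mul_mem (Γ₁.inv_mem h3) hγ₁
    · refine Set.mem_iUnion₂.2 ⟨φ, ?_, ⟨γ₀ * x, hc₀, ?_⟩⟩
      · show (φ : G) ∈ Q
        rw [hφv]
        exact hφQ
      · show (a φ)⁻¹ * (γ₀ * x) = (a φ)⁻¹ * γ₀ * x
        rw [mul_assoc]

private theorem gxi_uniform {a : ℕ} {Γ : Subgroup (SUGroup a)} (hd : DiscreteTopology Γ)
    {F : Set (SUGroup a)} (hF : IsCompact F) : ∃ U ∈ 𝓝 (1 : SUGroup a),
    ∀ f ∈ F, ∀ γ ∈ Γ, f⁻¹ * γ * f ∈ U → γ = 1 := by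
  obtain ⟨K, hK, hK1⟩ := exists_compact_mem_nhds (1 : SUGroup a)
  have hcl : IsClosed (Γ : Set (SUGroup a)) := Subgroup.isClosed_of_discrete
  have hce : IsClosedEmbedding (Subtype.val : Γ → SUGroup a) := hcl.isClosedEmbedding_subtypeVal
  obtain ⟨Q, hQ⟩ : ∃ Q : Set (SUGroup a), Q =
      (fun p : SUGroup a × SUGroup a => p.1 * p.2 * p.1⁻¹) '' (F ×ˢ K) := ⟨_, rfl⟩
  have hQc : IsCompact Q := by
    rw [hQ]
    exact (hF.prod hK).image ((continuous_fst.mul continuous_snd).mul continuous_fst.inv)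
  have hfin : (Subtype.val ⁻¹' Q : Set Γ).Finite :=
    (hce.isCompact_preimage hQc).finite_of_discrete
  set S : Set Γ := {γ | γ ∈ (Subtype.val ⁻¹' Q : Set Γ) ∧ γ ≠ 1} with hS
  have hSf : S.Finite := hfin.subset (fun γ hγ => hγ.1)
  set cg : Γ → Set (SUGroup a) := fun γ => (fun f : SUGroup a => f⁻¹ * γ * f) '' F with hcg
  have hc1 : ∀ γ, IsCompact (cg γ) := fun γ =>
    hF.image ((continuous_inv.mul continuous_const).mul continuous_id)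
  refine ⟨K ∩ ⋂ γ ∈ S, (cg γ)ᶜ, ?_, ?_⟩
  · refine Filter.inter_mem hK1 ?_
    rw [Filter.biInter_mem hSf]
    intro γ hγ
    refine (hc1 γ).isClosed.isOpen_compl.mem_nhds ?_
    rintro ⟨f, -, hf⟩
    apply hγ.2
    have h1 : (γ : SUGroup a) = 1 := by
      have h2 : (γ : SUGroup a) = f * (f⁻¹ * γ * f) * f⁻¹ := by group
      have hf' : f⁻¹ * (γ : SUGroup a) * f = 1 := hf
      rw [h2, hf', mul_one, mul_inv_cancel]
    exact Subtype.ext h1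
  · intro f hf γ hγ hU
    by_contra hne
    have hQm : γ ∈ Q := by
      rw [hQ]
      refine ⟨(f, f⁻¹ * γ * f), ⟨hf, hU.1⟩, ?_⟩
      show f * (f⁻¹ * γ * f) * f⁻¹ = γ
      group
    have h4 := Set.mem_iInter₂.1 hU.2 ⟨γ, hγ⟩ ⟨hQm, fun h => hne (congrArg Subtype.val h)⟩
    exact h4 ⟨f, hf, rfl⟩

open scoped Matrix.Norms.L2Operator in
private theorem gxi_small {b : ℕ} {V : Set (SUGroup b)} (hV : V ∈ 𝓝 (1 : SUGroup b)) :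
    ∃ e : ℝ, 0 < e ∧ ∀ x : SUGroup b, fro (x.toMatrix - 1) < e → x ∈ V := by
  rw [(Hyb.isClosedEmbedding_toMatrix b).isInducing.nhds_eq_comap 1, Filter.mem_comap] at hV
  obtain ⟨W, hW, hWV⟩ := hV
  rw [Hyb.toMatrix_one] at hW
  obtain ⟨ε, hε, hball⟩ := Metric.mem_nhds_iff.1 hW
  refine ⟨ε, hε, fun x hx => hWV (hball ?_)⟩
  rw [Metric.mem_ball, dist_eq_norm]
  exact (norm_le_fro _).trans_lt hx

/-- A lattice `Δ` of a subgroup: the points which are in a compact set modulo the big discrete group `Γ`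
are in a compact set modulo `Δ`. PROOF: let `F` be the compact set; for `γ ι(x) = f ∈ F` and
`δ ∈ Δ \ {1}` the element `ι(x⁻¹ δ x) = f⁻¹ (γ ι(δ) γ⁻¹) f` is `≠ 1` and it is not near `1` (`F` compact,
`Γ` discrete: as in `HM.Coc.uniform`, whose proof gives exactly this), so `x⁻¹ δ x` is not near `1`
(`ι` continuous), that is `e ≤ ds x δ` for a fixed `e > 0`; `NU.thick`. -/
theorem piece_cover {a b : ℕ} {Γ : Subgroup (SUGroup a)} (hd : DiscreteTopology Γ)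
    {Δ : Subgroup (SUGroup b)} {χ : SUGroup b → ℝ} (hΔ : Lat Δ χ) (ι : SUGroup b →* SUGroup a)
    (hι : Continuous ι) (hinj : Function.Injective ι) (hsub : ∀ δ ∈ Δ, ι δ ∈ Γ)
    {F : Set (SUGroup a)} (hF : IsCompact F) :
    ∃ C : Set (SUGroup b), IsCompact C ∧ ∀ x : SUGroup b, (∃ γ ∈ Γ, γ * ι x ∈ F) →
      ∃ δ ∈ Δ, δ * x ∈ C := by
  obtain ⟨U, hU1, hU⟩ := gxi_uniform hd hF
  have h1 : ι ⁻¹' U ∈ 𝓝 (1 : SUGroup b) := by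
    apply hι.continuousAt.preimage_mem_nhds
    rw [map_one]
    exact hU1
  obtain ⟨e, he, hball⟩ := gxi_small h1
  obtain ⟨R, hR⟩ := thick hΔ he
  refine ⟨{x | ch x ≤ R}, isCompact_ball R, ?_⟩
  rintro x ⟨γ, hγ, hγF⟩
  refine hR x fun δ hδ hne => ?_
  by_contra hlt
  have h2 : fro ((x⁻¹ * δ * x).toMatrix - 1) < e := not_le.1 hlt
  have h3 : ι (x⁻¹ * δ * x) ∈ U := hball _ h2
  rw [map_mul, map_mul, map_inv] at h3
  have h4 : (γ * ι x)⁻¹ * (γ * ι δ * γ⁻¹) * (γ * ι x) = (ι x)⁻¹ * ι δ * ι x := by group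
  have h5 := hU (γ * ι x) hγF (γ * ι δ * γ⁻¹)
    (Γ.mul_mem (Γ.mul_mem hγ (hsub δ hδ)) (Γ.inv_mem hγ)) (by rw [h4]; exact h3)
  have h6 : ι δ = 1 := by
    rw [mul_inv_eq_one] at h5
    exact mul_eq_left.1 h5
  exact hne (hinj (by rw [h6, map_one]))

end Pool.Agent.Lib.MP_5d4057_al.GX
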