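import Pool.Agent.Lib.MP_5d4057_al.NU.Defs
import Pool.Agent.Lib.MP_5d4057_al.IN.AvgB
import Pool.Agent.Lib.MP_5d4057_al.IN.BallA
import Pool.Agent.Lib.MP_5d4057_al.HM.CocSub

/-!
# GX 3a: the mean value of the logarithm of a Hermitian product
-/

namespace Pool.Agent.Lib.MP_5d4057_al.GX

open MeasureTheory hiding extend
open Matrix Filter Topology Pool.Agent.Lib.MP_5d4057_al
  Pool.Agent.Lib.MP_5d4057_al.Hyb Pool.Agent.Lib.MP_5d4057_al.HM
  Pool.Agent.Lib.MP_5d4057_al.NU Pool.Agent.Lib.MP_5d4057_al.IN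

variable {k n : ℕ}

/-- The defect. -/
noncomputable def dfc (k : ℕ) (r : ℝ) : ℝ := ∫ z : SUGroup k, bk r z * (2 * Real.log (ch z)) ∂(mu k)

private theorem la_bk_zero {r : ℝ} (hr : 0 < r) {x : SUGroup n} (h : r ^ 2 ≤ hq x) :
    bk r x = 0 := by
  rw [bk, wk_eq_zero hr h, zero_div]

private theorem la_bk_K {a : SUGroup n} (ha : ch a = 1) (r : ℝ) (x : SUGroup n) :
    bk r (a * x) = bk r x := by
  rw [bk, bk, wk_K ha]

private theorem la_cont_log : Continuous fun z : SUGroup n => 2 * Real.log (ch z) :=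
  continuous_const.mul (continuous_ch.log fun z => (ch_pos z).ne')

/-- PROOF: the integrand is continuous, `≥ 0`, with compact support, positive for `1 < ch z` near `1`
(`1 ≤ k`). -/
theorem dfc_pos (hk : 1 ≤ k) {r : ℝ} (hr : 0 < r) (hr1 : r < 1) : 0 < dfc k r := by
  obtain ⟨z, hz⟩ : ∃ z : Fin k → ℂ, nr z = r / 2 := by
    refine ⟨Pi.single ⟨0, hk⟩ ((r / 2 : ℝ) : ℂ), ?_⟩
    rw [nr, Finset.sum_eq_single (⟨0, hk⟩ : Fin k)]
    · rw [Pi.single_eq_same, Complex.norm_real, Real.norm_eq_abs, sq_abs]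
      exact Real.sqrt_sq (by positivity)
    · intro j _ hj
      rw [Pi.single_eq_of_ne hj, norm_zero]
      norm_num
    · intro h
      exact absurd (Finset.mem_univ _) h
  have hq0 : hq (IN.pt z) = (r / 2) ^ 2 := by
    rw [hq_pt (by rw [hz]; linarith), hz]
  have hch : 1 < ch (IN.pt z) := by
    have h1 := one_le_ch (IN.pt z)
    refine lt_of_le_of_ne h1 fun h2 => ?_
    rw [hq, ← h2] at hq0
    have : 0 < (r / 2) ^ 2 := by positivity
    rw [← hq0] at this
    norm_num at this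
  unfold dfc
  refine Continuous.integral_pos_of_hasCompactSupport_nonneg_nonzero (x := IN.pt z)
    ((continuous_bk r).mul la_cont_log) ?_ (fun x => ?_) ?_
  · refine HasCompactSupport.intro (isCompact_hq (r := r) hr1 hr.le) fun x hx => ?_
    have h1 : ¬ hq x ≤ r ^ 2 := hx
    rw [la_bk_zero hr (not_le.1 h1).le, zero_mul]
  · exact mul_nonneg (bk_nonneg hr x) (mul_nonneg (by norm_num) (Real.log_nonneg (one_le_ch x)))
  · have h1 : 0 < bk r (IN.pt z) := by
      refine div_pos ?_ (cw_pos k)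
      rw [wk, th_eq_one]
      · have := ch_pos (IN.pt z)
        positivity
      · rw [hq0, div_pow, div_div, mul_comm, ← div_div, div_self (by positivity)]
        norm_num
    have h2 := Real.log_pos hch
    positivity

/-! ### Rotations -/

private theorem la_diag (d : Fin (n + 1) → ℂ) (hd : ∀ i, ‖d i‖ = 1) (hp : ∏ i, d i = 1) :
    ∃ k : SUGroup n, ∀ x : SUGroup n, ch (k * x) = ch x ∧
      ∀ j, zc (k * x) j = d j.castSucc / d (Fin.last n) * zc x j := by
  have h1 : (Matrix.diagonal d).det = 1 := by rw [det_diagonal, hp]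
  have hs : ∀ i, star (d i) * d i = 1 := by
    intro i
    rw [RCLike.star_def, Complex.conj_mul', hd]
    simp
  have h2 : (Matrix.diagonal d)ᴴ * J n * Matrix.diagonal d = J n := by
    rw [J, diagonal_conjTranspose, diagonal_mul_diagonal, diagonal_mul_diagonal]
    congr 1
    funext i
    rw [Pi.star_apply, mul_right_comm, hs, one_mul]
  refine ⟨ofMatrix _ h1 h2, fun x => ?_⟩
  have h3 : ∀ i j, (ofMatrix _ h1 h2 * x).toMatrix i j = d i * x.toMatrix i j := by
    intro i j
    rw [toMatrix_mul, toMatrix_ofMatrix, diagonal_mul]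
  constructor
  · rw [ch, h3, norm_mul, hd, one_mul]
    rfl
  · intro j
    rw [zc, zc, h3, h3, mul_div_mul_comm]

private theorem la_scal (c : ℂ) (hc : ‖c‖ = 1) :
    ∃ k : SUGroup n, ∀ x : SUGroup n, ch (k * x) = ch x ∧ ∀ j, zc (k * x) j = c ^ (n + 1) * zc x j := by
  have hcc : c * star c = 1 := by
    rw [RCLike.star_def, Complex.mul_conj', hc]; simp
  have hc0 : c ≠ 0 := by
    intro h
    rw [h, norm_zero] at hc
    exact zero_ne_one hc
  obtain ⟨k, hk⟩ := la_diag (n := n) (Fin.snoc (α := fun _ => ℂ) (fun _ => c) (star c ^ n))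
    (fun i => by
      refine Fin.lastCases ?_ (fun i => ?_) i
      · rw [Fin.snoc_last, norm_pow, norm_star, hc, one_pow]
      · rw [Fin.snoc_castSucc, hc])
    (by
      rw [Fin.prod_univ_castSucc]
      simp only [Fin.snoc_castSucc, Fin.snoc_last, Finset.prod_const, Finset.card_univ,
        Fintype.card_fin]
      rw [← mul_pow, hcc, one_pow])
  refine ⟨k, fun x => ⟨(hk x).1, fun j => ?_⟩⟩
  rw [(hk x).2 j, Fin.snoc_castSucc, Fin.snoc_last]
  congr 1
  have h1 : star c ^ n ≠ 0 := pow_ne_zero _ (star_ne_zero.2 hc0)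
  rw [div_eq_iff h1, pow_succ', mul_assoc, ← mul_pow, hcc, one_pow, mul_one]

private theorem la_root (z : ℂ) (hz : ‖z‖ = 1) : ∃ c : ℂ, c ^ (n + 1) = z ∧ ‖c‖ = 1 := by
  obtain ⟨c, hc⟩ : ∃ c : ℂ, c ^ (n + 1) = z := IsAlgClosed.exists_pow_nat_eq _ (Nat.succ_pos n)
  refine ⟨c, hc, ?_⟩
  have h1 := congrArg norm hc
  rw [norm_pow, hz] at h1
  exact (pow_eq_one_iff_of_nonneg (norm_nonneg c) (Nat.succ_ne_zero n)).1 h1

/-- the rotation by `ζ` about the base point -/
private theorem la_rot (ζ : ℂ) (hζ : ‖ζ‖ = 1) :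
    ∃ k : SUGroup n, ch k = 1 ∧ ∀ (x : SUGroup n) (j : Fin n), zc (k * x) j = ζ * zc x j := by
  obtain ⟨c, hc, hc1⟩ := la_root (n := n) ζ hζ
  obtain ⟨k, hk⟩ := la_scal (n := n) c hc1
  refine ⟨k, ?_, fun x j => ?_⟩
  · have h1 := (hk 1).1
    rwa [mul_one, ch_one] at h1
  · rw [(hk x).2, hc]

/-! ### The Hermitian product in the ball coordinate -/

/-- `<zc x, p_0>` -/
private noncomputable def la (p : Vec n) (x : SUGroup n) : ℂ :=
  hp (zc x) fun i => p i.castSucc

private theorem la_herm (p : Vec n) (x : SUGroup n) : herm (act x (base n)) p =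
    star (x.toMatrix (Fin.last n) (Fin.last n)) * (la p x - p (Fin.last n)) := by
  rw [act_base_eq, herm_smul_left, herm_eq, la, hp]
  simp only [pt_castSucc, pt_last, star_one, one_mul]

private theorem la_lt {p : Vec n} (hp : p ≠ 0) (hq : q p ≤ 0) : 0 < ‖p (Fin.last n)‖ := by
  refine norm_pos_iff.2 fun h0 => hp ?_
  rw [q_eq, h0, norm_zero] at hq
  have h1 : ∑ i : Fin n, ‖p i.castSucc‖ ^ 2 ≤ 0 := by linarith
  have h2 := (Finset.sum_eq_zero_iff_of_nonneg fun i _ => sq_nonneg ‖p (Fin.castSucc i)‖).1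
    (le_antisymm h1 (Finset.sum_nonneg fun i _ => sq_nonneg _))
  funext i
  refine Fin.lastCases h0 (fun i => ?_) i
  have h3 := h2 i (Finset.mem_univ i)
  exact norm_eq_zero.1 (pow_eq_zero_iff two_ne_zero |>.1 h3)

private theorem la_le {p : Vec n} (hq : q p ≤ 0) (x : SUGroup n) :
    ‖la p x‖ ≤ nr (zc x) * ‖p (Fin.last n)‖ := by
  refine (norm_hp_le _ _).trans (mul_le_mul_of_nonneg_left ?_ (nr_nonneg _))
  refine (sq_le_sq₀ (nr_nonneg _) (norm_nonneg _)).1 ?_
  rw [nr_sq]
  rw [q_eq] at hq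
  linarith

private theorem la_lt' {p : Vec n} (hp : p ≠ 0) (hq : q p ≤ 0) (x : SUGroup n) :
    ‖la p x‖ < ‖p (Fin.last n)‖ := by
  have h1 := la_le hq x
  have h2 := nr_zc_lt x
  have h3 := la_lt hp hq
  nlinarith

private theorem la_cont (p : Vec n) : Continuous (la p) := by
  unfold la hp
  exact continuous_finsetSum _ fun j _ => (continuous_zc j).star.mul continuous_const

private theorem la_ne {p : Vec n} (hp : p ≠ 0) (hq : q p ≤ 0) {ζ : ℂ} (hζ : ‖ζ‖ ≤ 1)
    (x : SUGroup n) : ζ * la p x - p (Fin.last n) ≠ 0 := by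
  intro h
  have h1 := la_lt' hp hq x
  rw [← sub_eq_zero.1 h, norm_mul] at h1
  have h2 : ‖ζ‖ * ‖la p x‖ ≤ 1 * ‖la p x‖ := mul_le_mul_of_nonneg_right hζ (norm_nonneg _)
  linarith

/-- The mean value of the harmonic function `log |a ζ - b|²`. -/
private theorem la_circle {a b : ℂ} (h : ‖a‖ < ‖b‖) :
    (2 * Real.pi)⁻¹ • ∫ θ in (0 : ℝ)..2 * Real.pi,
      Real.log (‖star (circleMap 0 1 θ) * a - b‖ ^ 2) = Real.log (‖b‖ ^ 2) := by
  have h1 : Real.circleAverage (fun ζ => Real.log ‖ζ * star a - star b‖) 0 1 =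
      Real.log ‖b‖ := by
    rw [InnerProductSpace.HarmonicOnNhd.circleAverage_eq, zero_mul, zero_sub, norm_neg, norm_star]
    intro x hx
    apply AnalyticAt.harmonicAt_log_norm (by fun_prop)
    intro h2
    simp only [abs_one, Metric.mem_closedBall, dist_zero_right] at hx
    have h3 := congrArg norm (sub_eq_zero.1 h2)
    rw [norm_mul, norm_star, norm_star] at h3
    have h4 : ‖x‖ * ‖a‖ ≤ 1 * ‖a‖ := mul_le_mul_of_nonneg_right hx (norm_nonneg _)
    linarith
  have h2 : ∀ θ : ℝ, Real.log (‖star (circleMap 0 1 θ) * a - b‖ ^ 2) =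
      2 * Real.log ‖circleMap 0 1 θ * star a - star b‖ := by
    intro θ
    have e : star (star (circleMap 0 1 θ) * a - b) = circleMap 0 1 θ * star a - star b := by
      rw [star_sub, star_mul, star_star, mul_comm]
    rw [← e, norm_star, Real.log_pow]
    push_cast
    ring
  simp only [h2]
  rw [intervalIntegral.integral_const_mul, Real.log_pow, ← h1, Real.circleAverage]
  simp only [smul_eq_mul]
  push_cast
  ring

private theorem la_bound {p : Vec n} (hp : p ≠ 0) (hqp : q p ≤ 0) {r : ℝ} (hr : 0 < r)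
    (hr1 : r < 1) : ∃ M : ℝ, ∀ (x : SUGroup n) (ζ : ℂ), ‖ζ‖ = 1 →
      |bk r x * Real.log (‖ζ * la p x - p (Fin.last n)‖ ^ 2)| ≤ bk r x * M := by
  have hb := la_lt hp hqp
  obtain ⟨b, hbe⟩ : ∃ b, ‖p (Fin.last n)‖ = b := ⟨_, rfl⟩
  refine ⟨max |Real.log (((1 - r) * b) ^ 2)| |Real.log ((2 * b) ^ 2)|, fun x ζ hζ => ?_⟩
  rw [abs_mul, abs_of_nonneg (bk_nonneg hr x)]
  rcases le_or_gt (r ^ 2) (hq x) with h | h
  · rw [la_bk_zero hr h, zero_mul, zero_mul]
  refine mul_le_mul_of_nonneg_left ?_ (bk_nonneg hr x)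
  have h1 : nr (zc x) ≤ r := by
    rw [← nr_zc_sq] at h
    exact (sq_lt_sq₀ (nr_nonneg _) hr.le).1 h |>.le
  have h2 : ‖ζ * la p x‖ ≤ r * b := by
    rw [norm_mul, hζ, one_mul, ← hbe]
    exact (la_le hqp x).trans (mul_le_mul_of_nonneg_right h1 hb.le)
  have h3 : (1 - r) * b ≤ ‖ζ * la p x - p (Fin.last n)‖ := by
    have h4 := norm_sub_norm_le (p (Fin.last n)) (ζ * la p x)
    rw [norm_sub_rev, hbe] at h4
    linarith
  have h5 : ‖ζ * la p x - p (Fin.last n)‖ ≤ 2 * b := by
    have h4 := norm_sub_le (ζ * la p x) (p (Fin.last n))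
    rw [hbe] at h4
    rw [hbe] at hb
    nlinarith
  rw [hbe] at hb
  have h6 : 0 < (1 - r) * b := mul_pos (by linarith) hb
  refine abs_le_max_abs_abs ?_ ?_
  · exact Real.log_le_log (by positivity) (pow_le_pow_left₀ h6.le h3 2)
  · exact Real.log_le_log (by have := h6.trans_le h3; positivity)
      (pow_le_pow_left₀ (norm_nonneg _) h5 2)

private theorem la_rotate (p : Vec n) {ζ : ℂ} {k : SUGroup n}
    (hk : ∀ (x : SUGroup n) (j : Fin n), zc (k * x) j = ζ * zc x j) (x : SUGroup n) :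
    la p (k * x) = star ζ * la p x := by
  rw [la, la, hp, hp, Finset.mul_sum]
  refine Finset.sum_congr rfl fun j _ => ?_
  rw [hk, star_mul]
  ring

private theorem la_mean (hn : 1 ≤ n) {r : ℝ} (hr : 0 < r) (hr1 : r < 1) {p : Vec n} (hp : p ≠ 0)
    (hqp : q p ≤ 0) :
    ∫ x : SUGroup n, bk r x * Real.log (‖la p x - p (Fin.last n)‖ ^ 2) ∂(mu n) =
      Real.log (‖p (Fin.last n)‖ ^ 2) := by
  obtain ⟨I, hI⟩ : ∃ I : ℝ, I = ∫ x : SUGroup n, bk r x *
    Real.log (‖la p x - p (Fin.last n)‖ ^ 2) ∂(mu n) := ⟨_, rfl⟩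
  have hπ : (0 : ℝ) < 2 * Real.pi := by positivity
  have hcirc : ∀ θ : ℝ, ‖circleMap 0 1 θ‖ = 1 := fun θ => by simp
  have hcs : ∀ θ : ℝ, ‖star (circleMap 0 1 θ)‖ = 1 := fun θ => by rw [norm_star, hcirc]
  have hrot : ∀ θ : ℝ, ∫ x : SUGroup n, bk r x *
      Real.log (‖star (circleMap 0 1 θ) * la p x - p (Fin.last n)‖ ^ 2) ∂(mu n) = I := by
    intro θ
    obtain ⟨k, hk, hkz⟩ := la_rot (n := n) (circleMap 0 1 θ) (hcirc θ)
    rw [hI, ← integral_mul_left_eq_self (μ := mu n)
      (fun x : SUGroup n => bk r x * Real.log (‖la p x - p (Fin.last n)‖ ^ 2)) k]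
    refine integral_congr_ae (Eventually.of_forall fun x => ?_)
    show bk r x * Real.log (‖star (circleMap 0 1 θ) * la p x - p (Fin.last n)‖ ^ 2) =
      bk r (k * x) * Real.log (‖la p (k * x) - p (Fin.last n)‖ ^ 2)
    rw [la_bk_K hk, la_rotate p hkz]
  obtain ⟨M, hM⟩ := la_bound hp hqp hr hr1
  have hcont : Continuous fun y : SUGroup n × ℝ => bk r y.1 *
      Real.log (‖star (circleMap 0 1 y.2) * la p y.1 - p (Fin.last n)‖ ^ 2) := by
    refine ((continuous_bk r).comp continuous_fst).mul (Continuous.log ?_ fun y => ?_)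
    · exact (((((continuous_circleMap 0 1).comp continuous_snd).star.mul
        ((la_cont p).comp continuous_fst)).sub continuous_const).norm).pow 2
    · exact pow_ne_zero 2 (norm_ne_zero_iff.2 (la_ne hp hqp (hcs y.2).le y.1))
  have hint : Integrable (Function.uncurry fun (x : SUGroup n) (θ : ℝ) => bk r x *
      Real.log (‖star (circleMap 0 1 θ) * la p x - p (Fin.last n)‖ ^ 2))
      ((mu n).prod (volume.restrict (Set.Ioc 0 (2 * Real.pi)))) := by
    have h1 : Integrable (fun y : SUGroup n × ℝ => bk r y.1 * M)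
        ((mu n).prod (volume.restrict (Set.Ioc 0 (2 * Real.pi)))) :=
      ((integrable_bk hr hr1).mul_const M).comp_fst _
    exact h1.mono' hcont.aestronglyMeasurable
      (Eventually.of_forall fun y => hM y.1 _ (hcs y.2))
  have hswap := integral_integral_swap hint
  have hL : ∫ x : SUGroup n, bk r x * Real.log (‖p (Fin.last n)‖ ^ 2) ∂(mu n) = I := by
    have h1 : ∀ x : SUGroup n, bk r x * Real.log (‖p (Fin.last n)‖ ^ 2) =
        (2 * Real.pi)⁻¹ • ∫ θ in Set.Ioc 0 (2 * Real.pi), bk r x *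
          Real.log (‖star (circleMap 0 1 θ) * la p x - p (Fin.last n)‖ ^ 2) := by
      intro x
      rw [← la_circle (la_lt' hp hqp x), intervalIntegral.integral_of_le hπ.le,
        integral_const_mul, mul_smul_comm]
    rw [integral_congr_ae (Eventually.of_forall h1), integral_smul, hswap]
    simp only [hrot]
    rw [integral_const, measureReal_restrict_apply MeasurableSet.univ, Set.univ_inter,
      Real.volume_real_Ioc_of_le hπ.le, sub_zero, smul_smul, inv_mul_cancel₀ hπ.ne', one_smul]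
  rw [integral_mul_const, integral_bk hn hr hr1, one_mul] at hL
  rw [← hI, ← hL]

/-- Mean value property of `log |herm (x e) p|²`, `q p ≤ 0`, `p ≠ 0`, up to `2 log ch`. PROOF:
`act (g z) e = act g (λ (vec (zc z) + e))`, `|λ| = ch z`; `herm (g z e) p = conj λ * herm (vec ζ + e) p'`,
`p' = g⁻¹ p`; `herm (vec ζ + e) p' = <ζ, p'_0> - p'_n` does not vanish for `|ζ| < 1` because
`|p'_n| ≥ |p'_0|`, `p'_n ≠ 0`; `bk r` and `mu` are invariant under `z ↦ k z`, `k` in the stabiliser, in
particular under the circle `ζ ↦ e^(i θ) ζ`, and the mean of `log |1 + a e^(i θ)|` over the circle is `0`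
for `|a| < 1` (mean value property of the harmonic function `log |1 + z|`, real part of a holomorphic
function; see `HM.circle`, `IN.AvgC` for the same pattern with `AA_zc`). -/
theorem AA_log_herm (hk : 1 ≤ k) {r : ℝ} (hr : 0 < r) (hr1 : r < 1) {p : Vec k} (hp : p ≠ 0)
    (hq : q p ≤ 0) (g : SUGroup k) :
    AA r (fun x => Real.log (‖herm (act x (base k)) p‖ ^ 2)) g =
      Real.log (‖herm (act g (base k)) p‖ ^ 2) + dfc k r := by
  obtain ⟨p', hp'⟩ : ∃ p', p' = act g⁻¹ p := ⟨_, rfl⟩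
  have hpe : p = act g p' := by rw [hp', ← act_mul, mul_inv_cancel, act_one]
  have hp0 : p' ≠ 0 := by
    intro h
    rw [h] at hpe
    refine hp (hpe.trans ?_)
    rw [act, Matrix.mulVec_zero]
  have hq0 : q p' ≤ 0 := by rw [hp', q_act]; exact hq
  have e1 : ∀ x : SUGroup k, Real.log (‖herm (act (g * x) (base k)) p‖ ^ 2) =
      2 * Real.log (ch x) + Real.log (‖la p' x - p' (Fin.last k)‖ ^ 2) := by
    intro x
    have h1 : ‖la p' x - p' (Fin.last k)‖ ≠ 0 := by
      have := la_ne hp0 hq0 (ζ := 1) (by simp) x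
      rw [one_mul] at this
      exact norm_ne_zero_iff.2 this
    have h2 : ‖x.toMatrix (Fin.last k) (Fin.last k)‖ = ch x := rfl
    rw [act_mul, hpe, herm_act, la_herm, norm_mul, norm_star, h2, mul_pow,
      Real.log_mul (pow_ne_zero 2 (ch_pos x).ne') (pow_ne_zero 2 h1), Real.log_pow]
    push_cast
    rfl
  have e2 : herm (act g (base k)) p = -p' (Fin.last k) := by
    have h1 : herm (act g (base k)) p = herm (base k) p' := by rw [hpe, herm_act]
    rw [h1, herm_eq]
    rw [Finset.sum_eq_zero, base, Pi.single_eq_same]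
    · simp
    · intro i _
      rw [base, Pi.single_eq_of_ne (Fin.castSucc_lt_last i).ne, star_zero, zero_mul]
  have hc : Continuous fun x : SUGroup k => Real.log (‖la p' x - p' (Fin.last k)‖ ^ 2) := by
    refine Continuous.log ((((la_cont p').sub continuous_const).norm).pow 2) fun x => ?_
    have := la_ne hp0 hq0 (ζ := 1) (by simp) x
    rw [one_mul] at this
    exact pow_ne_zero 2 (norm_ne_zero_iff.2 this)
  have i1 := integrable_AA hr hr1 (la_cont_log (n := k)) 1
  have i2 := integrable_AA hr hr1 hc 1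
  simp only [one_mul] at i1 i2
  rw [e2, norm_neg, AA]
  simp only [e1, mul_add]
  rw [integral_add i1 i2, la_mean hk hr hr1 hp0 hq0, add_comm]
  rfl

end Pool.Agent.Lib.MP_5d4057_al.GX
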