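import Pool.Agent.Lib.MP_5d4057_al.GX.Pou

/-!
# GX 2b: a discrete group with a Lyapunov function is a lattice
-/

namespace Pool.Agent.Lib.MP_5d4057_al.GX

open Matrix MeasureTheory Filter Topology Pool.Agent.Lib.MP_5d4057_al Pool.Agent.Lib.MP_5d4057_al.HM
  Pool.Agent.Lib.MP_5d4057_al.NU Pool.Agent.Lib.MP_5d4057_al.IN

open scoped ENNReal

variable {m : ℕ} {Δ : Subgroup (SUGroup m)}

private theorem ly_bkm (r : ℝ) : Measurable fun x : SUGroup m => ENNReal.ofReal (bk r x) :=
  (continuous_bk r).measurable.ennreal_ofReal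

private theorem ly_meas (r : ℝ) {f : SUGroup m → ℝ≥0∞} (hf : Measurable f) :
    Measurable (QE r f) := by
  have h1 : Measurable (Function.uncurry fun g x : SUGroup m =>
      ENNReal.ofReal (bk r x) * f (g * x)) :=
    ((ly_bkm r).comp measurable_snd).mul (hf.comp (measurable_fst.mul measurable_snd))
  exact h1.lintegral_prod_right

private theorem ly_inv (r : ℝ) {f : SUGroup m → ℝ≥0∞} (hf : ∀ γ ∈ Δ, ∀ g, f (γ * g) = f g) :
    ∀ γ ∈ Δ, ∀ g, QE r f (γ * g) = QE r f g := by
  intro γ hγ g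
  refine lintegral_congr fun x => ?_
  rw [mul_assoc, hf γ hγ]

private theorem ly_mono (r : ℝ) {f φ : SUGroup m → ℝ≥0∞} (h : ∀ g, f g ≤ φ g) (g : SUGroup m) :
    QE r f g ≤ QE r φ g :=
  lintegral_mono fun x => mul_le_mul_right (h (g * x)) _

private theorem ly_add (r : ℝ) {f φ : SUGroup m → ℝ≥0∞} (hf : Measurable f) (g : SUGroup m) :
    QE r (fun x => f x + φ x) g = QE r f g + QE r φ g := by
  have h1 : Measurable fun x : SUGroup m => ENNReal.ofReal (bk r x) * f (g * x) :=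
    (ly_bkm r).mul (hf.comp (measurable_const_mul g))
  unfold QE
  rw [← lintegral_add_left h1]
  refine lintegral_congr fun x => ?_
  rw [← mul_add]

private theorem ly_const (hm : 1 ≤ m) {r : ℝ} (hr : 0 < r) (hr1 : r < 1) (c : ℝ≥0∞)
    (g : SUGroup m) : QE r (fun _ => c) g = c := by
  unfold QE
  rw [lintegral_mul_const _ (ly_bkm r), ← ofReal_integral_eq_lintegral_ofReal
    (integrable_bk hr hr1) (Eventually.of_forall fun x => bk_nonneg hr x), integral_bk hm hr hr1,
    ENNReal.ofReal_one, one_mul]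

private theorem ly_meas_it (r : ℝ) {f : SUGroup m → ℝ≥0∞} (hf : Measurable f) (i : ℕ) :
    Measurable ((QE r)^[i] f) := by
  induction i with
  | zero => exact hf
  | succ i ih =>
    rw [Function.iterate_succ_apply']
    exact ly_meas r ih

private theorem ly_inv_it (r : ℝ) {f : SUGroup m → ℝ≥0∞} (hf : ∀ γ ∈ Δ, ∀ g, f (γ * g) = f g)
    (i : ℕ) : ∀ γ ∈ Δ, ∀ g, (QE r)^[i] f (γ * g) = (QE r)^[i] f g := by
  induction i with
  | zero => exact hf
  | succ i ih =>
    rw [Function.iterate_succ_apply']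
    exact ly_inv r ih

private theorem ly_le_one (hm : 1 ≤ m) {r : ℝ} (hr : 0 < r) (hr1 : r < 1) {f : SUGroup m → ℝ≥0∞}
    (hf : ∀ g, f g ≤ 1) (i : ℕ) : ∀ g, (QE r)^[i] f g ≤ 1 := by
  induction i with
  | zero => exact hf
  | succ i ih =>
    intro g
    rw [Function.iterate_succ_apply']
    exact (ly_mono r ih g).trans (ly_const hm hr hr1 1 g).le

private theorem ly_symm {χ : SUGroup m → ℝ} (h : Pou Δ χ) (r : ℝ) (i : ℕ) :
    ∀ {f φ : SUGroup m → ℝ≥0∞}, (∀ γ ∈ Δ, ∀ g, f (γ * g) = f g) → Measurable f →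
      (∀ γ ∈ Δ, ∀ g, φ (γ * g) = φ g) → Measurable φ →
      LI χ (fun g => f g * (QE r)^[i] φ g) = LI χ (fun g => φ g * (QE r)^[i] f g) := by
  induction i with
  | zero =>
    intro f φ _ _ _ _
    simp only [Function.iterate_zero, id_eq, mul_comm (f _)]
  | succ i ih =>
    intro f φ hf hfm hφ hφm
    have h1 := h.LI_QE r hf hfm (ly_inv_it r hφ i) (ly_meas_it r hφm i)
    have h2 := ih (ly_inv r hf) (ly_meas r hfm) hφ hφm
    rw [Function.iterate_succ_apply', Function.iterate_succ_apply, h1, ← h2]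
    simp only [mul_comm ((QE r)^[i] φ _)]

private theorem ly_sum (r : ℝ) {w : SUGroup m → ℝ≥0∞} (hw : Measurable w) (N : ℕ) (g : SUGroup m) :
    QE r (fun x => ∑ i ∈ Finset.range N, (QE r)^[i] w x) g =
      ∑ i ∈ Finset.range N, (QE r)^[i + 1] w g := by
  induction N with
  | zero => simp [QE]
  | succ N ih =>
    have h1 : Measurable fun x : SUGroup m => ∑ i ∈ Finset.range N, (QE r)^[i] w x :=
      Finset.measurable_fun_sum _ fun i _ => ly_meas_it r hw i
    simp only [Finset.sum_range_succ]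
    rw [ly_add r h1, ih, Function.iterate_succ_apply' (QE r) N w]

private theorem ly_iter (hm : 1 ≤ m) {r : ℝ} (hr : 0 < r) (hr1 : r < 1)
    {v w : SUGroup m → ℝ≥0∞} (hv : Measurable v) (hw : Measurable w) {c : ℝ≥0∞}
    (h : ∀ g, c + QE r v g ≤ v g + w g) (N : ℕ) :
    ∀ g, (N : ℝ≥0∞) * c + (QE r)^[N] v g ≤ v g + ∑ i ∈ Finset.range N, (QE r)^[i] w g := by
  induction N with
  | zero =>
    intro g
    simp
  | succ N ih =>
    intro g
    have h1 := ly_mono r ih g
    rw [ly_add r measurable_const, ly_const hm hr hr1, ly_add r hv, ly_sum r hw] at h1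
    rw [Function.iterate_succ_apply', Finset.sum_range_succ']
    have h2 := h g
    calc ((N + 1 : ℕ) : ℝ≥0∞) * c + QE r ((QE r)^[N] v) g
        = c + ((N : ℝ≥0∞) * c + QE r ((QE r)^[N] v) g) := by
          push_cast
          ring
      _ ≤ c + (QE r v g + ∑ i ∈ Finset.range N, (QE r)^[i + 1] w g) := add_le_add le_rfl h1
      _ = (c + QE r v g) + ∑ i ∈ Finset.range N, (QE r)^[i + 1] w g := by ring
      _ ≤ (v g + w g) + ∑ i ∈ Finset.range N, (QE r)^[i + 1] w g := add_le_add h2 le_rfl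
      _ = v g + (∑ i ∈ Finset.range N, (QE r)^[i + 1] w g + (QE r)^[0] w g) := by
          rw [Function.iterate_zero, id]
          ring

private theorem ly_LI_add {χ : SUGroup m → ℝ} (h : Pou Δ χ) {f₁ : SUGroup m → ℝ≥0∞}
    (hf : Measurable f₁) (f₂ : SUGroup m → ℝ≥0∞) :
    LI χ (fun g => f₁ g + f₂ g) = LI χ f₁ + LI χ f₂ := by
  have h2 : Measurable fun g => ENNReal.ofReal (χ g) * f₁ g := h.measurable.mul hf
  unfold LI
  rw [← lintegral_add_left h2]
  refine lintegral_congr fun g => ?_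
  rw [mul_add]

private theorem ly_LI_mul {χ : SUGroup m → ℝ} (h : Pou Δ χ) (a : ℝ≥0∞) {f : SUGroup m → ℝ≥0∞}
    (hf : Measurable f) : LI χ (fun g => a * f g) = a * LI χ f := by
  have h2 : Measurable fun g => ENNReal.ofReal (χ g) * f g := h.measurable.mul hf
  unfold LI
  rw [← lintegral_const_mul _ h2]
  refine lintegral_congr fun g => ?_
  ring

/-- The sum of the iterates, integrated against an invariant function with values in `[0, 1]`. -/
private theorem ly_LI_sum (hm : 1 ≤ m) {χ : SUGroup m → ℝ} (h : Pou Δ χ) {r : ℝ} (hr : 0 < r)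
    (hr1 : r < 1) {f w : SUGroup m → ℝ≥0∞} (hf : ∀ γ ∈ Δ, ∀ g, f (γ * g) = f g)
    (hfm : Measurable f) (hf1 : ∀ g, f g ≤ 1) (hw : ∀ γ ∈ Δ, ∀ g, w (γ * g) = w g)
    (hwm : Measurable w) (N : ℕ) :
    LI χ (fun g => f g * ∑ i ∈ Finset.range N, (QE r)^[i] w g) ≤ (N : ℝ≥0∞) * LI χ w := by
  induction N with
  | zero => simp [LI]
  | succ N ih =>
    have h1 : Measurable fun g => f g * ∑ i ∈ Finset.range N, (QE r)^[i] w g :=
      hfm.mul (Finset.measurable_fun_sum _ fun i _ => ly_meas_it r hwm i)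
    have h2 : LI χ (fun g => f g * (QE r)^[N] w g) ≤ LI χ w := by
      rw [ly_symm h r N hf hfm hw hwm]
      refine LI_mono fun g => ?_
      exact (mul_le_mul_right (ly_le_one hm hr hr1 hf1 N g) _).trans (mul_one _).le
    simp only [Finset.sum_range_succ, mul_add]
    rw [ly_LI_add h h1]
    refine (add_le_add ih h2).trans (le_of_eq ?_)
    push_cast
    ring

/-- **Lyapunov functions.** PROOF. `χ` from `exists_pou`. `V` is bounded on compact sets; there is `b ≥ 0`
with `AA r V ≤ V - c + b 1_Ω`, `Ω = {V ≤ R}` (on `Ω` by `hcov`, continuity of `AA r V` and invariance).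
Iterate (`V ≥ 0`): for all `N`, `c N ≤ V + b ∑_(i < N) Q^i 1_Ω` pointwise (everything is finite because
`bk r` has compact support). Let `K` be compact, `A = Δ K`, `M = sup_K V = sup_A V`; multiply by `1_A` and
integrate: `c N LI 1_A ≤ M LI 1_A + b ∑_(i < N) LI (1_A Q^i 1_Ω)`, and
`LI (1_A Q^i 1_Ω) = LI (1_Ω Q^i 1_A) ≤ LI 1_Ω < ∞` (`Pou.LI_QE` iterated, `Q^i 1_A ≤ 1`,
`Pou.LI_lt_top`). Divide by `N → ∞`: `c LI 1_A ≤ b LI 1_Ω` for all `K`; exhaust: `LI 1 < ∞`, so `χ` is
integrable, `Lat Δ χ`, `NU.Lat.isLattice`. -/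
theorem lat_of_lyap (hm : 1 ≤ m) (hd : DiscreteTopology Δ) {V : SUGroup m → ℝ} (hV : Continuous V)
    (hinv : ∀ δ ∈ Δ, ∀ g, V (δ * g) = V g) (h0 : ∀ g, 0 ≤ V g) {r c R : ℝ} (hr : 0 < r)
    (hr1 : r < 1) (hc : 0 < c) {E : Set (SUGroup m)} (hE : IsCompact E)
    (hcov : ∀ g, V g ≤ R → ∃ δ ∈ Δ, δ * g ∈ E) (hL : ∀ g, R < V g → AA r V g ≤ V g - c) :
    IsLattice Δ := by
  obtain ⟨χ, hχ⟩ := exists_pou hd
  have := hχ.countable
  -- the bound on `Ω`
  obtain ⟨b, hb0, hb⟩ : ∃ b : ℝ, 0 ≤ b ∧ ∀ g, V g ≤ R → c + AA r V g ≤ V g + b := by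
    have hcont : Continuous fun g => AA r V g - V g := (continuous_AA hr hr1 hV).sub hV
    obtain ⟨b, hb⟩ := (hE.image hcont).bddAbove
    refine ⟨max (c + b) 0, le_max_right _ _, fun g hg => ?_⟩
    obtain ⟨γ, hγ, hm⟩ := hcov g hg
    have h1 := hb ⟨γ * g, hm, rfl⟩
    have h2 : AA r V (γ * g) = AA r V g := by
      rw [← AA_left]
      simp only [hinv γ hγ]
    simp only [h2, hinv γ hγ g] at h1
    linarith [le_max_left (c + b) 0]
  obtain ⟨Ω, hΩ⟩ : ∃ Ω : Set (SUGroup m), Ω = {g | V g ≤ R} := ⟨_, rfl⟩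
  have hΩm : MeasurableSet Ω := by
    rw [hΩ]
    exact measurableSet_le hV.measurable measurable_const
  have hΩi : ∀ γ ∈ Δ, ∀ g, Ω.indicator (1 : SUGroup m → ℝ≥0∞) (γ * g) = Ω.indicator 1 g := by
    intro γ hγ g
    simp only [Set.indicator_apply, hΩ, Set.mem_ofPred_eq, hinv γ hγ g, Pi.one_apply]
  obtain ⟨w, hw⟩ : ∃ w : SUGroup m → ℝ≥0∞, w = fun g => ENNReal.ofReal b * Ω.indicator 1 g :=
    ⟨_, rfl⟩
  have hwm : Measurable w := by
    rw [hw]
    exact (measurable_one.indicator hΩm).const_mul _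
  have hwi : ∀ γ ∈ Δ, ∀ g, w (γ * g) = w g := by
    intro γ hγ g
    simp only [hw, hΩi γ hγ g]
  have hLw : LI χ w < ⊤ := by
    rw [hw, ly_LI_mul hχ _ (measurable_one.indicator hΩm)]
    refine ENNReal.mul_lt_top ENNReal.ofReal_lt_top (hχ.LI_lt_top hE (fun g => ?_) fun g hg => ?_)
    · exact Set.indicator_apply_le' (fun _ => le_rfl) fun _ => zero_le
    · have h1 : g ∈ Ω := by
        by_contra h2
        exact hg (Set.indicator_of_notMem h2 _)
      rw [hΩ] at h1
      exact hcov g h1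
  obtain ⟨v, hv⟩ : ∃ v : SUGroup m → ℝ≥0∞, v = fun g => ENNReal.ofReal (V g) := ⟨_, rfl⟩
  have hvm : Measurable v := by
    rw [hv]
    exact hV.measurable.ennreal_ofReal
  have hAA : ∀ g, QE r v g = ENNReal.ofReal (AA r V g) := by
    intro g
    unfold AA QE
    rw [ofReal_integral_eq_lintegral_ofReal (integrable_AA hr hr1 hV g)
      (Eventually.of_forall fun x => mul_nonneg (bk_nonneg hr x) (h0 _))]
    refine lintegral_congr fun x => ?_
    rw [hv, ENNReal.ofReal_mul (bk_nonneg hr x)]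
  have hAA0 : ∀ g, 0 ≤ AA r V g := fun g =>
    integral_nonneg fun x => mul_nonneg (bk_nonneg hr x) (h0 _)
  have hstep : ∀ g, ENNReal.ofReal c + QE r v g ≤ v g + w g := by
    intro g
    rw [hAA, ← ENNReal.ofReal_add hc.le (hAA0 g), hw, hv]
    simp only
    rcases le_or_gt (V g) R with h1 | h1
    · have h2 : g ∈ Ω := by
        rw [hΩ]
        exact h1
      rw [Set.indicator_of_mem h2, Pi.one_apply, mul_one, ← ENNReal.ofReal_add (h0 g) hb0]
      exact ENNReal.ofReal_le_ofReal (hb g h1)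
    · refine le_trans (ENNReal.ofReal_le_ofReal ?_) le_self_add
      linarith [hL g h1]
  have hcE : ENNReal.ofReal c ≠ 0 := (ENNReal.ofReal_pos.2 hc).ne'
  -- the estimate for compact sets
  have key : ∀ K : Set (SUGroup m), IsCompact K →
      LI χ (K.indicator 1) ≤ LI χ w / ENNReal.ofReal c := by
    intro K hK
    obtain ⟨A, hA⟩ : ∃ A : Set (SUGroup m), A = ⋃ δ : Δ, (fun g => (δ : SUGroup m) * g) ⁻¹' K :=
      ⟨_, rfl⟩
    have hAmem : ∀ g, g ∈ A ↔ ∃ δ ∈ Δ, δ * g ∈ K := by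
      intro g
      rw [hA]
      simp only [Set.mem_iUnion, Set.mem_preimage, Subtype.exists, exists_prop]
    have hAm : MeasurableSet A := by
      rw [hA]
      exact MeasurableSet.iUnion fun δ => (measurable_const_mul _) hK.isClosed.measurableSet
    obtain ⟨f, hf⟩ : ∃ f : SUGroup m → ℝ≥0∞, f = A.indicator 1 := ⟨_, rfl⟩
    have hfm : Measurable f := by
      rw [hf]
      exact measurable_one.indicator hAm
    have hAi : ∀ γ ∈ Δ, ∀ g, γ * g ∈ A ↔ g ∈ A := by
      intro γ hγ g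
      rw [hAmem, hAmem]
      constructor
      · rintro ⟨δ, hδ, h1⟩
        exact ⟨δ * γ, mul_mem hδ hγ, by rwa [mul_assoc]⟩
      · rintro ⟨δ, hδ, h1⟩
        exact ⟨δ * γ⁻¹, mul_mem hδ (inv_mem hγ), by rwa [mul_assoc, inv_mul_cancel_left]⟩
    have hfi : ∀ γ ∈ Δ, ∀ g, f (γ * g) = f g := by
      intro γ hγ g
      rw [hf]
      by_cases hg : g ∈ A
      · rw [Set.indicator_of_mem hg, Set.indicator_of_mem ((hAi γ hγ g).2 hg)]
        rfl
      · rw [Set.indicator_of_notMem hg, Set.indicator_of_notMem fun h0 => hg ((hAi γ hγ g).1 h0)]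
    have hf1 : ∀ g, f g ≤ 1 := by
      intro g
      rw [hf]
      exact Set.indicator_apply_le' (fun _ => le_rfl) fun _ => zero_le
    have hfA : ∀ g, g ∉ A → f g = 0 := fun g hg => by
      rw [hf]
      exact Set.indicator_of_notMem hg _
    have hLf : LI χ f < ⊤ := by
      refine hχ.LI_lt_top hK hf1 fun g hg => ?_
      have h1 : g ∈ A := by
        by_contra h2
        exact hg (hfA g h2)
      exact (hAmem g).1 h1
    obtain ⟨M, hM⟩ := (hK.image hV).bddAbove
    have hMv : ∀ g, f g * v g ≤ ENNReal.ofReal M * f g := by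
      intro g
      by_cases hg : g ∈ A
      · obtain ⟨δ, hδ, h1⟩ := (hAmem g).1 hg
        have h2 : V g ≤ M := by
          rw [← hinv δ hδ g]
          exact hM ⟨δ * g, h1, rfl⟩
        rw [mul_comm]
        refine mul_le_mul_left ?_ _
        rw [hv]
        exact ENNReal.ofReal_le_ofReal h2
      · rw [hfA g hg, zero_mul]
        exact zero_le
    have hN : ∀ N : ℕ, ((N : ℝ≥0∞) * ENNReal.ofReal c) * LI χ f ≤
        ENNReal.ofReal M * LI χ f + (N : ℝ≥0∞) * LI χ w := by
      intro N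
      rw [← ly_LI_mul hχ _ hfm]
      have h1 : ∀ g, ((N : ℝ≥0∞) * ENNReal.ofReal c) * f g ≤
          f g * v g + f g * ∑ i ∈ Finset.range N, (QE r)^[i] w g := by
        intro g
        have h2 := (le_self_add.trans (ly_iter hm hr hr1 hvm hwm hstep N g) :
          (N : ℝ≥0∞) * ENNReal.ofReal c ≤ _)
        rw [mul_comm, ← mul_add]
        exact mul_le_mul_right h2 _
      have h3 : Measurable fun g => f g * v g := hfm.mul hvm
      refine (LI_mono h1).trans ?_
      rw [ly_LI_add hχ h3]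
      refine add_le_add ?_ (ly_LI_sum hm hχ hr hr1 hfi hfm hf1 hwi hwm N)
      rw [← ly_LI_mul hχ _ hfm]
      exact LI_mono hMv
    -- real numbers
    have hreal : c * (LI χ f).toReal ≤ (LI χ w).toReal := by
      by_contra hlt
      rw [not_le] at hlt
      obtain ⟨N, hN'⟩ := exists_nat_gt
        ((max M 0 * (LI χ f).toReal) / (c * (LI χ f).toReal - (LI χ w).toReal))
      rw [div_lt_iff₀ (by linarith)] at hN'
      have h1 := hN N
      have h2 : (((N : ℝ≥0∞) * ENNReal.ofReal c) * LI χ f).toReal ≤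
          (ENNReal.ofReal M * LI χ f + (N : ℝ≥0∞) * LI χ w).toReal := by
        refine ENNReal.toReal_mono ?_ h1
        exact ENNReal.add_ne_top.2 ⟨(ENNReal.mul_lt_top ENNReal.ofReal_lt_top hLf).ne,
          (ENNReal.mul_lt_top (ENNReal.natCast_lt_top N) hLw).ne⟩
      rw [ENNReal.toReal_add (ENNReal.mul_lt_top ENNReal.ofReal_lt_top hLf).ne
        (ENNReal.mul_lt_top (ENNReal.natCast_lt_top N) hLw).ne, ENNReal.toReal_mul,
        ENNReal.toReal_mul, ENNReal.toReal_mul, ENNReal.toReal_mul, ENNReal.toReal_natCast,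
        ENNReal.toReal_ofReal hc.le] at h2
      have h3 : (ENNReal.ofReal M).toReal = max M 0 := ENNReal.toReal_ofReal'
      rw [h3] at h2
      nlinarith
    have hle : K.indicator (1 : SUGroup m → ℝ≥0∞) ≤ f := by
      intro g
      by_cases hg : g ∈ K
      · have h1 : g ∈ A := (hAmem g).2 ⟨1, one_mem _, by rwa [one_mul]⟩
        rw [hf, Set.indicator_of_mem hg, Set.indicator_of_mem h1]
      · rw [Set.indicator_of_notMem hg]
        exact zero_le
    refine (LI_mono hle).trans ?_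
    rw [ENNReal.le_div_iff_mul_le (Or.inl hcE) (Or.inl ENNReal.ofReal_ne_top)]
    rw [← ENNReal.ofReal_toReal hLf.ne, ← ENNReal.ofReal_toReal hLw.ne,
      ← ENNReal.ofReal_mul ENNReal.toReal_nonneg]
    refine ENNReal.ofReal_le_ofReal ?_
    rw [mul_comm]
    exact hreal
  -- exhaustion
  obtain ⟨ν, hν⟩ : ∃ ν : Measure (SUGroup m), ν = (mu m).withDensity fun g => ENNReal.ofReal (χ g) :=
    ⟨_, rfl⟩
  have hνK : ∀ K : Set (SUGroup m), IsCompact K → ν K ≤ LI χ w / ENNReal.ofReal c := by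
    intro K hK
    have hKm := hK.isClosed.measurableSet
    refine le_trans (le_of_eq ?_) (key K hK)
    rw [hν, withDensity_apply _ hKm, ← lintegral_indicator hKm]
    unfold LI
    refine lintegral_congr fun g => ?_
    by_cases hg : g ∈ K
    · rw [Set.indicator_of_mem hg, Set.indicator_of_mem hg, Pi.one_apply, mul_one]
    · rw [Set.indicator_of_notMem hg, Set.indicator_of_notMem hg, mul_zero]
  have hU : ν Set.univ ≤ LI χ w / ENNReal.ofReal c := by
    rw [← iUnion_compactCovering (SUGroup m),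
      (monotone_nat_of_le_succ fun n => compactCovering_subset _ n.le_succ).measure_iUnion]
    exact iSup_le fun k => hνK _ (isCompact_compactCovering _ k)
  have hfin : ν Set.univ < ⊤ := hU.trans_lt (ENNReal.div_lt_top hLw.ne hcE)
  have hL' : Lat Δ χ := by
    refine ⟨hd, hχ.cont, hχ.pos, hχ.sum, hχ.cont.aestronglyMeasurable, ?_⟩
    rw [hasFiniteIntegral_iff_ofReal (Eventually.of_forall fun g => (hχ.pos g).le)]
    rw [hν, withDensity_apply _ MeasurableSet.univ, Measure.restrict_univ] at hfin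
    exact hfin
  exact hL'.isLattice

end Pool.Agent.Lib.MP_5d4057_al.GX
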