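import Pool.Agent.Lib.MP_5d4057_al.Hyb.Tr

/-!
# GX 6a: a lattice has elements of infinite order
-/

namespace Pool.Agent.Lib.MP_5d4057_al.GX

open Matrix Pool.Agent.Lib.MP_5d4057_al Pool.Agent.Lib.MP_5d4057_al.Hyb

variable {k : ℕ}

private theorem nl_trace {m : ℕ} (M : Matrix (Fin m) (Fin m) ℂ) {N : ℕ} (hN : 0 < N)
    (hM : M ^ N = 1) : ‖M.trace‖ ≤ m := by
  have hroot : ∀ μ ∈ M.charpoly.roots, ‖μ‖ = 1 := by
    intro μ hμ
    have h1 : M.charpoly.IsRoot μ := Polynomial.isRoot_of_mem_roots hμ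
    have h2 : (Matrix.scalar (Fin m) μ - M).det = 0 := by
      rw [← Matrix.eval_charpoly]
      exact h1
    obtain ⟨v, hv, hv2⟩ := Matrix.exists_mulVec_eq_zero_iff.2 h2
    have h3 : M *ᵥ v = μ • v := by
      rw [Matrix.sub_mulVec, sub_eq_zero] at hv2
      rw [← hv2]
      ext i
      simp [Matrix.scalar_apply, Matrix.mulVec_diagonal]
    have h4 : ∀ j : ℕ, (M ^ j) *ᵥ v = μ ^ j • v := by
      intro j
      induction j with
      | zero => simp
      | succ j ih =>
        rw [pow_succ', ← Matrix.mulVec_mulVec, ih, Matrix.mulVec_smul, h3, smul_smul, pow_succ]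
    have h5 := h4 N
    rw [hM, Matrix.one_mulVec] at h5
    have h6 : μ ^ N = 1 := by
      obtain ⟨i, hi⟩ := Function.ne_iff.1 hv
      have h7 := congrFun h5 i
      rw [Pi.smul_apply, smul_eq_mul] at h7
      have h8 : (μ ^ N - 1) * v i = 0 := by
        rw [sub_mul, one_mul, ← h7, sub_self]
      rcases mul_eq_zero.1 h8 with h9 | h9
      · exact sub_eq_zero.1 h9
      · exact absurd h9 hi
    have h7 : ‖μ‖ ^ N = 1 := by rw [← norm_pow, h6, norm_one]
    exact (pow_eq_one_iff_of_nonneg (norm_nonneg μ) hN.ne').1 h7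
  rw [Matrix.trace_eq_sum_roots_charpoly]
  refine (norm_multiset_sum_le _).trans ?_
  have h1 : (M.charpoly.roots.map fun x => ‖x‖).sum ≤
      (M.charpoly.roots.map fun x => ‖x‖).card • (1 : ℝ) := by
    refine Multiset.sum_le_card_nsmul _ _ fun x hx => ?_
    obtain ⟨μ, hμ, rfl⟩ := Multiset.mem_map.1 hx
    exact (hroot μ hμ).le
  refine h1.trans ?_
  rw [Multiset.card_map, nsmul_eq_mul, mul_one]
  have h2 := M.charpoly.card_roots'
  rw [Matrix.charpoly_natDegree_eq_dim, Fintype.card_fin] at h2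
  exact_mod_cast h2

/-- PROOF: `trace_unbounded` gives `γ` with `|tr γ| > k + 1`; if `γ` had finite order all eigenvalues
would be roots of unity and `|tr γ| ≤ k + 1` (for instance: the trace is the sum of the roots of the
characteristic polynomial, each root `z` satisfies `z ^ N = 1`). -/
theorem exists_not_fin (hk : 1 ≤ k) {Γ : Subgroup (SUGroup k)} (h : IsLattice Γ) :
    ∃ γ ∈ Γ, ¬ IsOfFinOrder γ := by
  obtain ⟨γ, hγ, hlt⟩ := trace_unbounded hk Γ h (((k + 1 : ℕ) : ℝ))
  refine ⟨γ, hγ, fun hfin => ?_⟩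
  obtain ⟨N, hN, hN1⟩ := isOfFinOrder_iff_pow_eq_one.1 hfin
  have h1 : ∀ j : ℕ, (γ ^ j).toMatrix = γ.toMatrix ^ j := by
    intro j
    induction j with
    | zero => rw [pow_zero, pow_zero, toMatrix_one]
    | succ j ih => rw [pow_succ, pow_succ, toMatrix_mul, ih]
  have h2 : γ.toMatrix ^ N = 1 := by rw [← h1, hN1, toMatrix_one]
  have h3 := nl_trace γ.toMatrix hN h2
  linarith

end Pool.Agent.Lib.MP_5d4057_al.GX
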