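import Pool.Agent.Lib.MP_5d4057_al.NU.LatC
import Pool.Agent.Lib.MP_5d4057_al.NU.LatB
import Pool.Agent.Lib.MP_5d4057_al.IN.AvgB

/-!
# GX 2a: integration over the quotient by a discrete group, averages
-/

namespace Pool.Agent.Lib.MP_5d4057_al.GX

open Matrix MeasureTheory Filter Topology Pool.Agent.Lib.MP_5d4057_al Pool.Agent.Lib.MP_5d4057_al.HM
  Pool.Agent.Lib.MP_5d4057_al.NU Pool.Agent.Lib.MP_5d4057_al.IN

open scoped ENNReal

variable {m : ℕ} {Δ : Subgroup (SUGroup m)}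

/-- A partition of unity for a discrete group, without any condition of integrability
(`NU.exists_chi`). -/
structure Pou (Δ : Subgroup (SUGroup m)) (χ : SUGroup m → ℝ) : Prop where
  disc : DiscreteTopology Δ
  cont : Continuous χ
  pos : ∀ g, 0 < χ g
  sum : ∀ g, ∑' γ : Δ, χ (γ * g) = 1

theorem exists_pou (hd : DiscreteTopology Δ) : ∃ χ : SUGroup m → ℝ, Pou Δ χ := by
  obtain ⟨χ, h1, h2, h3⟩ := exists_chi hd
  exact ⟨χ, hd, h1, h2, h3⟩

theorem Pou.countable {χ : SUGroup m → ℝ} (h : Pou Δ χ) : Countable Δ := countable_disc h.disc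

theorem Pou.tsum_ofReal {χ : SUGroup m → ℝ} (h : Pou Δ χ) (g : SUGroup m) :
    ∑' γ : Δ, ENNReal.ofReal (χ ((γ : SUGroup m) * g)) = 1 := by
  have hs : Summable fun γ : Δ => χ ((γ : SUGroup m) * g) := by
    by_contra h0
    have h1 := h.sum g
    rw [tsum_eq_zero_of_not_summable h0] at h1
    exact zero_ne_one h1
  rw [← ENNReal.ofReal_tsum_of_nonneg (fun γ => (h.pos _).le) hs, h.sum g, ENNReal.ofReal_one]

theorem Pou.measurable {χ : SUGroup m → ℝ} (h : Pou Δ χ) :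
    Measurable fun g => ENNReal.ofReal (χ g) :=
  h.cont.measurable.ennreal_ofReal

/-- The general unfolding formula (as `NU.lunfold'`). -/
theorem Pou.lunfold {χ : SUGroup m → ℝ} (h : Pou Δ χ) {f φ : SUGroup m → ℝ≥0∞}
    (hf : ∀ γ ∈ Δ, ∀ g, f (γ * g) = f g) (hm : AEMeasurable f (mu m))
    (hφ : AEMeasurable φ (mu m)) :
    ∫⁻ g, φ g * f g ∂(mu m) = LI χ fun g => (∑' γ : Δ, φ ((γ : SUGroup m) * g)) * f g := by
  have := h.countable
  have hqm : ∀ x : SUGroup m, Measure.QuasiMeasurePreserving (fun g => x * g) (mu m) (mu m) :=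
    fun x => (measurePreserving_mul_left (mu m) x).quasiMeasurePreserving
  have e1 : ∀ g, φ g * f g = ∑' γ : Δ, ENNReal.ofReal (χ ((γ : SUGroup m) * g)) * (φ g * f g) := by
    intro g
    rw [ENNReal.tsum_mul_right, h.tsum_ofReal, one_mul]
  have hm1 : ∀ γ : Δ, AEMeasurable
      (fun g => ENNReal.ofReal (χ ((γ : SUGroup m) * g)) * (φ g * f g)) (mu m) := fun γ =>
    ((h.measurable.comp (measurable_const_mul (γ : SUGroup m))).aemeasurable).mul (hφ.mul hm)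
  have e2 : ∀ γ : Δ, ∫⁻ g, ENNReal.ofReal (χ ((γ : SUGroup m) * g)) * (φ g * f g) ∂(mu m) =
      ∫⁻ g, ENNReal.ofReal (χ g) * (φ (((γ⁻¹ : Δ) : SUGroup m) * g) * f g) ∂(mu m) := by
    intro γ
    rw [← lintegral_mul_left_eq_self
      (fun g => ENNReal.ofReal (χ ((γ : SUGroup m) * g)) * (φ g * f g)) ((γ⁻¹ : Δ) : SUGroup m)]
    refine lintegral_congr fun g => ?_
    rw [hf _ (γ⁻¹).2, ← mul_assoc (γ : SUGroup m), ← Subgroup.coe_mul, mul_inv_cancel,
      Subgroup.coe_one, one_mul]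
  have hm2 : ∀ γ : Δ, AEMeasurable
      (fun g => ENNReal.ofReal (χ g) * (φ (((γ⁻¹ : Δ) : SUGroup m) * g) * f g)) (mu m) := fun γ =>
    h.measurable.aemeasurable.mul ((hφ.comp_quasiMeasurePreserving (hqm _)).mul hm)
  calc ∫⁻ g, φ g * f g ∂(mu m)
      = ∫⁻ g, ∑' γ : Δ, ENNReal.ofReal (χ ((γ : SUGroup m) * g)) * (φ g * f g) ∂(mu m) :=
        lintegral_congr e1
    _ = ∑' γ : Δ, ∫⁻ g, ENNReal.ofReal (χ ((γ : SUGroup m) * g)) * (φ g * f g) ∂(mu m) :=
        lintegral_tsum hm1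
    _ = ∑' γ : Δ, ∫⁻ g, ENNReal.ofReal (χ g) *
          (φ (((γ⁻¹ : Δ) : SUGroup m) * g) * f g) ∂(mu m) := tsum_congr e2
    _ = ∫⁻ g, ∑' γ : Δ, ENNReal.ofReal (χ g) *
          (φ (((γ⁻¹ : Δ) : SUGroup m) * g) * f g) ∂(mu m) := (lintegral_tsum hm2).symm
    _ = LI χ fun g => (∑' γ : Δ, φ ((γ : SUGroup m) * g)) * f g := by
        refine lintegral_congr fun g => ?_
        rw [ENNReal.tsum_mul_left, ENNReal.tsum_mul_right]
        congr 2
        exact (Equiv.inv Δ).tsum_eq fun γ : Δ => φ ((γ : SUGroup m) * g)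

/-- PROOF: as `NU.LI_mul_right` (and `NU.lunfold`): the integrability of `χ` is not used there. -/
theorem Pou.LI_mul_right' {χ : SUGroup m → ℝ} (h : Pou Δ χ) {f : SUGroup m → ℝ≥0∞}
    (hf : ∀ γ ∈ Δ, ∀ g, f (γ * g) = f g) (hm : AEMeasurable f (mu m)) (x : SUGroup m) :
    LI χ (fun g => f (g * x)) = LI χ f := by
  have h1 : LI χ (fun g => f (g * x)) =
      ∫⁻ g, ENNReal.ofReal (χ (g * x⁻¹)) * f g ∂(mu m) := by
    unfold LI
    rw [← lintegral_mul_right_eq_self (fun g => ENNReal.ofReal (χ (g * x⁻¹)) * f g) x]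
    simp
  have h2 : AEMeasurable (fun g => ENNReal.ofReal (χ (g * x⁻¹))) (mu m) :=
    (h.measurable.comp (measurable_mul_const x⁻¹)).aemeasurable
  rw [h1, h.lunfold hf hm h2]
  refine lintegral_congr fun g => ?_
  have h3 : ∑' γ : Δ, ENNReal.ofReal (χ ((γ : SUGroup m) * g * x⁻¹)) = 1 := by
    rw [← h.tsum_ofReal (g * x⁻¹)]
    simp only [mul_assoc]
  simp only [h3, one_mul]

/-- PROOF: as `NU.LI_mul_right` (and `NU.lunfold`): the integrability of `χ` is not used there. -/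
theorem Pou.LI_mul_right {χ : SUGroup m → ℝ} (h : Pou Δ χ) {f : SUGroup m → ℝ≥0∞}
    (hf : ∀ γ ∈ Δ, ∀ g, f (γ * g) = f g) (hm : Measurable f) (x : SUGroup m) :
    LI χ (fun g => f (g * x)) = LI χ f :=
  h.LI_mul_right' hf hm.aemeasurable x

/-- A function supported in `Δ E`, `E` compact, and bounded by `1` has finite integral. PROOF:
`f ≤ ∑' γ, indicator E (γ g)`, unfolding (`NU.lunfold`): the integral is at most `mu E`. -/
theorem Pou.LI_lt_top {χ : SUGroup m → ℝ} (h : Pou Δ χ) {E : Set (SUGroup m)} (hE : IsCompact E)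
    {f : SUGroup m → ℝ≥0∞} (hf1 : ∀ g, f g ≤ 1) (hf : ∀ g, f g ≠ 0 → ∃ γ ∈ Δ, γ * g ∈ E) :
    LI χ f < ⊤ := by
  have hEm : MeasurableSet E := hE.isClosed.measurableSet
  have h1 : ∀ g, f g ≤ (∑' γ : Δ, E.indicator (1 : SUGroup m → ℝ≥0∞) ((γ : SUGroup m) * g)) *
      (1 : SUGroup m → ℝ≥0∞) g := by
    intro g
    rw [Pi.one_apply, mul_one]
    by_cases h0 : f g = 0
    · rw [h0]
      exact zero_le
    · obtain ⟨γ, hγ, hγE⟩ := hf g h0
      refine (hf1 g).trans ?_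
      have h2 : E.indicator (1 : SUGroup m → ℝ≥0∞) (((⟨γ, hγ⟩ : Δ) : SUGroup m) * g) = 1 :=
        Set.indicator_of_mem (show (((⟨γ, hγ⟩ : Δ) : SUGroup m) * g) ∈ E from hγE) _
      rw [← h2]
      exact ENNReal.le_tsum (f := fun δ : Δ =>
        E.indicator (1 : SUGroup m → ℝ≥0∞) ((δ : SUGroup m) * g)) (⟨γ, hγ⟩ : Δ)
  have h3 := h.lunfold (f := (1 : SUGroup m → ℝ≥0∞)) (φ := E.indicator (1 : SUGroup m → ℝ≥0∞))
    (fun _ _ _ => rfl) measurable_one.aemeasurable (measurable_one.indicator hEm).aemeasurable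
  refine (LI_mono h1).trans_lt ?_
  rw [← h3]
  simp only [Pi.one_apply, mul_one]
  rw [lintegral_indicator hEm]
  simp only [Pi.one_apply, lintegral_one, Measure.restrict_apply, MeasurableSet.univ,
    Set.univ_inter]
  exact hE.measure_lt_top

/-- The averaging operator on functions with values in `[0, ∞]`. -/
noncomputable def QE (r : ℝ) (f : SUGroup m → ℝ≥0∞) (g : SUGroup m) : ℝ≥0∞ :=
  ∫⁻ x : SUGroup m, ENNReal.ofReal (bk r x) * f (g * x) ∂(mu m)

private theorem bk_inv (r : ℝ) (x : SUGroup m) : bk r x⁻¹ = bk r x := by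
  rw [bk, bk, wk, wk, hq, hq, ch_inv]

/-- Interchange of the integrals (as `NU.LI_lintegral`). -/
theorem Pou.LI_lintegral {χ : SUGroup m → ℝ} (h : Pou Δ χ) {κ : SUGroup m → ℝ≥0∞}
    (hκ : Measurable κ) {Ψ : SUGroup m → SUGroup m → ℝ≥0∞}
    (hΨ : Measurable (Function.uncurry Ψ)) :
    LI χ (fun g => ∫⁻ x, κ x * Ψ g x ∂(mu m)) =
      ∫⁻ x, κ x * LI χ (fun g => Ψ g x) ∂(mu m) := by
  have e1 : LI χ (fun g => ∫⁻ x, κ x * Ψ g x ∂(mu m)) =
      ∫⁻ g, ∫⁻ x, ENNReal.ofReal (χ g) * (κ x * Ψ g x) ∂(mu m) ∂(mu m) := by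
    refine lintegral_congr fun g => ?_
    exact (lintegral_const_mul _ (hκ.mul (hΨ.comp measurable_prodMk_left))).symm
  have e2 : ∫⁻ x, κ x * LI χ (fun g => Ψ g x) ∂(mu m) =
      ∫⁻ x, ∫⁻ g, ENNReal.ofReal (χ g) * (κ x * Ψ g x) ∂(mu m) ∂(mu m) := by
    refine lintegral_congr fun x => ?_
    have e3 : ∫⁻ g, κ x * (ENNReal.ofReal (χ g) * Ψ g x) ∂(mu m) =
        κ x * ∫⁻ g, ENNReal.ofReal (χ g) * Ψ g x ∂(mu m) :=
      lintegral_const_mul _ (h.measurable.mul (hΨ.comp measurable_prodMk_right))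
    show κ x * ∫⁻ g, ENNReal.ofReal (χ g) * Ψ g x ∂(mu m) = _
    rw [← e3]
    refine lintegral_congr fun g => ?_
    ring
  rw [e1, e2]
  exact lintegral_lintegral_swap ((h.measurable.comp measurable_fst).mul
    ((hκ.comp measurable_snd).mul hΨ)).aemeasurable

/-- Symmetry: `LI χ (f * QE h) = LI χ (h * QE f)` for invariant functions. PROOF: Tonelli,
`Pou.LI_mul_right` applied to `g ↦ f (g x⁻¹) h g`, and `x ↦ x⁻¹` preserves `mu` and `bk r`
(`bk r` depends only on `ch x = ch x⁻¹`). -/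
theorem Pou.LI_QE {χ : SUGroup m → ℝ} (h : Pou Δ χ) (r : ℝ) {f φ : SUGroup m → ℝ≥0∞}
    (hf : ∀ γ ∈ Δ, ∀ g, f (γ * g) = f g) (hfm : Measurable f)
    (hφ : ∀ γ ∈ Δ, ∀ g, φ (γ * g) = φ g) (hφm : Measurable φ) :
    LI χ (fun g => f g * QE r φ g) = LI χ (fun g => φ g * QE r f g) := by
  have hκ : Measurable fun x : SUGroup m => ENNReal.ofReal (bk r x) :=
    (continuous_bk r).measurable.ennreal_ofReal
  have hm : ∀ {f φ : SUGroup m → ℝ≥0∞}, Measurable f → Measurable φ →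
      Measurable (Function.uncurry fun g x : SUGroup m => f g * φ (g * x)) := fun hf hφ =>
    (hf.comp measurable_fst).mul (hφ.comp (measurable_fst.mul measurable_snd))
  have key : ∀ {f φ : SUGroup m → ℝ≥0∞}, Measurable f → Measurable φ →
      LI χ (fun g => f g * QE r φ g) =
        ∫⁻ x, ENNReal.ofReal (bk r x) * LI χ (fun g => f g * φ (g * x)) ∂(mu m) := by
    intro f φ hf hφ
    rw [← h.LI_lintegral hκ (hm hf hφ)]
    refine lintegral_congr fun g => ?_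
    have h1 : ∫⁻ x : SUGroup m, f g * (ENNReal.ofReal (bk r x) * φ (g * x)) ∂(mu m) =
        f g * ∫⁻ x : SUGroup m, ENNReal.ofReal (bk r x) * φ (g * x) ∂(mu m) :=
      lintegral_const_mul _ (hκ.mul (hφ.comp (measurable_const_mul g)))
    show ENNReal.ofReal (χ g) *
      (f g * ∫⁻ x : SUGroup m, ENNReal.ofReal (bk r x) * φ (g * x) ∂(mu m)) =
      ENNReal.ofReal (χ g) *
        ∫⁻ x : SUGroup m, ENNReal.ofReal (bk r x) * (f g * φ (g * x)) ∂(mu m)
    rw [← h1]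
    congr 1
    refine lintegral_congr fun x => ?_
    ring
  rw [key hfm hφm, key hφm hfm]
  have e3 : ∀ x : SUGroup m, LI χ (fun g => f g * φ (g * x)) =
      LI χ (fun g => φ g * f (g * x⁻¹)) := by
    intro x
    rw [← h.LI_mul_right (f := fun g => φ g * f (g * x⁻¹)) (fun γ hγ g => by
      rw [hφ γ hγ, mul_assoc, hf γ hγ]) (hφm.mul (hfm.comp (measurable_mul_const x⁻¹))) x]
    simp only [mul_inv_cancel_right]
    refine lintegral_congr fun g => ?_
    ring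
  simp only [e3]
  rw [← lintegral_inv_eq_self (fun x => ENNReal.ofReal (bk r x) *
    LI χ (fun g => φ g * f (g * x⁻¹)))]
  refine lintegral_congr fun x => ?_
  rw [bk_inv, inv_inv]

end Pool.Agent.Lib.MP_5d4057_al.GX
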